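import Pool.Agent.TH684.AM.Commit

/-!
# Amplification by repetition
-/

set_option autoImplicit false

namespace Pool.Agent.TH684.AM

open Finset Pool.Agent.H579R2.Spt
open Pool.Agent.W901.RL (card_BL_nat)
open Pool.Agent.W920.NL (Str str_finite str_ncard ncard_split_le)

theorem ncard_BL (n : ℕ) (P : List Bool → Prop) [DecidablePred P] :
    {r : List Bool | r.length = n ∧ P r}.ncard = ((BL n).filter P).card := by
  rw [← Set.ncard_coe_finset]
  congr 1
  ext r
  simp

theorem prod_rows (m : ℕ) (f : List Bool → ℤ) : ∀ k : ℕ,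
    ∑ r ∈ BL (k * m), ((rowsL m k r).map f).prod = (∑ b ∈ BL m, f b) ^ k := by
  intro k
  induction k with
  | zero => simp [rowsL, card_BL]
  | succ k ih =>
    have e : (k + 1) * m = m + k * m := by ring
    rw [e]
    have h1 : ∀ r ∈ BL (m + k * m), ((rowsL m (k + 1) r).map f).prod =
        f (r.take m) * ((rowsL m k (r.drop m)).map f).prod := by
      intro r _
      rw [rowsL_succ, List.map_cons, List.prod_cons]
    rw [Finset.sum_congr rfl h1, sum_BL_add m (k * m) f (fun r => ((rowsL m k r).map f).prod), ih,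
      pow_succ, mul_comm]

/-- The number of wrong blocks. -/
def wr (P : List Bool → Bool) (l : List (List Bool)) : ℕ := (l.filter P).length

theorem prod_wr (P : List Bool → Bool) (l : List (List Bool)) :
    (l.map (fun b => if P b then (2 : ℤ) else 1)).prod = 2 ^ wr P l := by
  unfold wr
  induction l with
  | nil => simp
  | cons b l ih =>
    rw [List.map_cons, List.prod_cons, ih]
    cases h : P b
    · rw [List.filter_cons_of_neg (by simp [h])]
      simp
    · rw [List.filter_cons_of_pos h, List.length_cons, pow_succ]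
      simp [mul_comm]

theorem nine_pow (a : ℕ) : 2 ^ (50 * a) ≤ 3 ^ (24 * a) * 2 ^ (12 * a) := by
  rw [pow_mul, pow_mul, pow_mul, ← mul_pow]
  exact Nat.pow_le_pow_left (by norm_num) a

/-- **Amplification.** -/
theorem ampl (P : List Bool → Bool) (m a : ℕ)
    (hP : 3 * {b : List Bool | b.length = m ∧ P b = true}.ncard ≤ 2 ^ m) :
    2 ^ (2 * a) * {r : List Bool | r.length = 24 * a * m ∧
      24 * a ≤ 2 * wr P (rowsL m (24 * a) r)}.ncard ≤ 2 ^ (24 * a * m) := by
  classical
  have h1 : 3 * ∑ b ∈ BL m, (if P b then (2 : ℤ) else 1) ≤ 4 * 2 ^ m := by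
    have h2 : ∑ b ∈ BL m, (if P b then (2 : ℤ) else 1) =
        2 ^ m + (((BL m).filter (fun b => P b = true)).card : ℤ) := by
      have h3 : ∀ b ∈ BL m, (if P b then (2 : ℤ) else 1) = 1 + (if P b = true then 1 else 0) := by
        intro b _
        split_ifs <;> norm_num
      rw [Finset.sum_congr rfl h3, Finset.sum_add_distrib, Finset.sum_boole]
      simp [card_BL]
    rw [ncard_BL] at hP
    have h4 : (3 : ℤ) * (((BL m).filter (fun b => P b = true)).card : ℤ) ≤ 2 ^ m := by
      exact_mod_cast hP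
    rw [h2]
    linarith
  have h2 := prod_rows m (fun b => if P b then (2 : ℤ) else 1) (24 * a)
  have h3 : (2 : ℤ) ^ (12 * a) * (((BL (24 * a * m)).filter
      (fun r => 24 * a ≤ 2 * wr P (rowsL m (24 * a) r))).card : ℤ) ≤
      ∑ r ∈ BL (24 * a * m), ((rowsL m (24 * a) r).map (fun b => if P b then (2 : ℤ) else 1)).prod
      := by
    rw [Finset.card_filter]
    push_cast
    rw [Finset.mul_sum]
    refine Finset.sum_le_sum fun r _ => ?_
    rw [prod_wr]
    split_ifs with h
    · rw [mul_one]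
      exact pow_le_pow_right₀ (by norm_num) (by omega)
    · rw [mul_zero]
      positivity
  rw [h2] at h3
  have h4 : (3 : ℤ) ^ (24 * a) * (∑ b ∈ BL m, (if P b then (2 : ℤ) else 1)) ^ (24 * a) ≤
      4 ^ (24 * a) * (2 ^ m) ^ (24 * a) := by
    rw [← mul_pow, ← mul_pow]
    refine pow_le_pow_left₀ (mul_nonneg (by norm_num) (Finset.sum_nonneg fun b _ => ?_)) h1 _
    split_ifs <;> norm_num
  set C : ℕ := ((BL (24 * a * m)).filter
      (fun r => 24 * a ≤ 2 * wr P (rowsL m (24 * a) r))).card with hC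
  have h5 : (3 : ℤ) ^ (24 * a) * (2 ^ (12 * a) * (C : ℤ)) ≤ 4 ^ (24 * a) * (2 ^ m) ^ (24 * a) :=
    (mul_le_mul_of_nonneg_left h3 (by positivity)).trans h4
  have h6 : 3 ^ (24 * a) * (2 ^ (12 * a) * C) ≤ 4 ^ (24 * a) * (2 ^ m) ^ (24 * a) := by
    exact_mod_cast h5
  have h7 : 2 ^ (48 * a) * (2 ^ (2 * a) * C) ≤ 2 ^ (48 * a) * 2 ^ (24 * a * m) := by
    calc 2 ^ (48 * a) * (2 ^ (2 * a) * C) = 2 ^ (50 * a) * C := by
          rw [← mul_assoc, ← pow_add]
          congr 2
          ring
      _ ≤ 3 ^ (24 * a) * 2 ^ (12 * a) * C := Nat.mul_le_mul_right _ (nine_pow a)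
      _ = 3 ^ (24 * a) * (2 ^ (12 * a) * C) := by ring
      _ ≤ 4 ^ (24 * a) * (2 ^ m) ^ (24 * a) := h6
      _ = 2 ^ (48 * a) * 2 ^ (24 * a * m) := by
          have e : (4 : ℕ) = 2 ^ 2 := by norm_num
          rw [e, ← pow_mul, ← pow_mul]
          congr 2 <;> ring
  rw [ncard_BL]
  exact Nat.le_of_mul_le_mul_left h7 (by positivity)

end Pool.Agent.TH684.AM
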