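import Pool.Agent.TH684.AM.Law
import Pool.Agent.TH684.CX.ThmN
import Pool.Agent.W903.GP.Hier
import Pool.Agent.W901.NU.Cls

/-!
# Closure properties of `AM` if `coNP` is contained in `AM`
-/

set_option autoImplicit false

namespace Pool.Agent.TH684.AM

open Pool.Agent.NPC Pool.Agent.H251R5.PQ Pool.Agent.W901.AT Pool.Agent.H579R2.Spt
open Pool.Agent.W901.NU Pool.Agent.TH684.CX
open Pool.Agent.W903.GP (InPH SigmaP)
open Pool.Agent.W920.NL (InAM Str str_finite str_ncard ncard_split_le)
open Pool.Agent.W901.RL (split_le split_le_left)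

theorem pb_len (x w : List Bool) : (pairBits x w).length = 2 * x.length + 1 + w.length := by
  unfold pairBits
  rw [List.length_append, List.length_cons]
  have h : (x.flatMap (fun b => [true, b])).length = 2 * x.length := by
    induction x with
    | nil => rfl
    | cons a x ih =>
      rw [List.flatMap_cons, List.length_append, ih]
      simp only [List.length_cons, List.length_nil]
      omega
  omega

theorem inAM_of {S : Set (List Bool)} {v : List Bool → List Bool → List Bool → Bool}
    (hv : Poly (fun q : List Bool × (List Bool × List Bool) => v q.1 q.2.1 q.2.2))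
    (ρ p : Polynomial ℕ)
    (hc : ∀ x ∈ S, ∀ r : List Bool, r.length = ρ.eval x.length →
      ∃ w : List Bool, w.length ≤ p.eval x.length ∧ v x r w = true)
    (hs : ∀ x, x ∉ S → 2 * {r : List Bool | r.length = ρ.eval x.length ∧
      ∃ w : List Bool, w.length ≤ p.eval x.length ∧ v x r w = true}.ncard ≤
        2 ^ ρ.eval x.length) : InAM S := by
  refine ⟨fun y => [v (unpair (unpair y).1).1 (unpair (unpair y).1).2 (unpair y).2], ρ, p,
    PIso.poly_iff.1 (NPC.Poly.cons ?_ (NPC.Poly.const [])), fun x hx r hr => ?_, fun x hx => ?_⟩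
  · exact hv.comp (NPC.Poly.pair (NPC.Poly.fst (poly_unpair.comp (NPC.Poly.fst poly_unpair)))
      (NPC.Poly.pair (NPC.Poly.snd (poly_unpair.comp (NPC.Poly.fst poly_unpair)))
        (NPC.Poly.snd poly_unpair)))
  · obtain ⟨w, hw1, hw2⟩ := hc x hx r hr
    refine ⟨w, hw1, ?_⟩
    simp only [unpair_pairBits]
    rw [hw2]
  · have h := hs x hx
    refine le_trans (Nat.mul_le_mul_left _ (Set.ncard_le_ncard ?_ ?_)) h
    · rintro r ⟨hr, w, hw1, hw2⟩
      simp only [unpair_pairBits, List.cons.injEq, and_true] at hw2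
      exact ⟨hr, w, hw1, hw2⟩
    · exact (str_finite _).subset fun r hr => hr.1

/-- Acceptance by a verifier. -/
def Acc (V : List Bool → List Bool) (p : Polynomial ℕ) (x r w : List Bool) : Bool :=
  decide (w.length ≤ p.eval x.length) && decide (V (pairBits (pairBits x r) w) = [true])

theorem acc_iff {V : List Bool → List Bool} {p : Polynomial ℕ} {x r w : List Bool} :
    Acc V p x r w = true ↔ w.length ≤ p.eval x.length ∧
      V (pairBits (pairBits x r) w) = [true] := by
  unfold Acc
  rw [Bool.and_eq_true, decide_eq_true_eq, decide_eq_true_eq]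

theorem acc_poly {α : Type} [TEnc α] {V : List Bool → List Bool} (hV : PolyTime V)
    (p : Polynomial ℕ) {x r w : α → List Bool} (hx : Poly x) (hr : Poly r) (hw : Poly w) :
    Poly (fun t => Acc V p (x t) (r t) (w t)) := by
  unfold Acc
  exact NPC.Poly.and (NPC.Poly.decide_le (NPC.Poly.length hw) ((UPoly.length hx).eval p).toPoly)
    (NPC.Poly.decide_eq ((PIso.poly_iff.2 hV).comp (H622R2.poly_pairBits
      (H622R2.poly_pairBits hx hr) hw)) (NPC.Poly.const [true]))

theorem am_ofP {L : Set (List Bool)} (h : InP L) : InAM L := by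
  obtain ⟨V, hV, hVL⟩ := h
  refine inAM_of (v := fun x _ _ => decide (V x = [true])) (NPC.Poly.decide_eq
    ((PIso.poly_iff.2 hV).comp (NPC.Poly.fst NPC.Poly.id)) (NPC.Poly.const [true])) 0 0
    (fun x hx r _ => ⟨[], Nat.zero_le _, decide_eq_true ((hVL x).1 hx)⟩) fun x hx => ?_
  have h1 : {r : List Bool | r.length = (0 : Polynomial ℕ).eval x.length ∧
      ∃ w : List Bool, w.length ≤ (0 : Polynomial ℕ).eval x.length ∧
        decide (V x = [true]) = true} = ∅ := by
    ext r
    simp only [Set.mem_ofPred_eq, Set.mem_empty_iff_false, iff_false]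
    rintro ⟨-, w, -, h2⟩
    exact hx ((hVL x).2 (of_decide_eq_true h2))
  rw [h1]
  simp

theorem out_bound {α : Type} [TEnc α] {f : List Bool → List Bool} (hf : Poly f) :
    ∃ q : Polynomial ℕ, ∀ x, (f x).length ≤ q.eval x.length := by
  obtain ⟨p1, hp1⟩ := hf.sz_le
  refine ⟨p1.comp (Polynomial.C 4 * Polynomial.X + 1), fun z => ?_⟩
  have h1 := hp1 z
  have h2 := length_lt_sz (f z)
  have h3 := eval_mono p1 (sz_listBool_le z)
  simp only [Polynomial.eval_comp, Polynomial.eval_add, Polynomial.eval_mul, Polynomial.eval_C,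
    Polynomial.eval_X, Polynomial.eval_one]
  omega

theorem am_pre {L : Set (List Bool)} {f : List Bool → List Bool} (hf : Poly f) (h : InAM L) :
    InAM (f ⁻¹' L) := by
  obtain ⟨V, ρ, p, hV, hc, hs⟩ := h
  obtain ⟨q, hq⟩ := out_bound (α := List Bool) hf
  have e1 : Poly (fun t : List Bool × (List Bool × List Bool) => f t.1) :=
    hf.comp (NPC.Poly.fst NPC.Poly.id)
  refine inAM_of (v := fun x r w => Acc V p (f x) (r.take (ρ.eval (f x).length)) w)
    (acc_poly hV p e1 (take_poly' (NPC.Poly.fst (NPC.Poly.snd NPC.Poly.id))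
      ((UPoly.length e1).eval ρ).toPoly) (NPC.Poly.snd (NPC.Poly.snd NPC.Poly.id)))
    (ρ.comp q) (p.comp q) (fun x hx r hr => ?_) fun x hx => ?_
  · rw [Polynomial.eval_comp] at hr
    obtain ⟨w, hw1, hw2⟩ := hc (f x) hx (r.take (ρ.eval (f x).length)) (by
      rw [List.length_take, hr]
      exact min_eq_left (eval_mono ρ (hq x)))
    refine ⟨w, ?_, acc_iff.2 ⟨hw1, hw2⟩⟩
    rw [Polynomial.eval_comp]
    exact hw1.trans (eval_mono p (hq x))
  · rw [Polynomial.eval_comp]
    have h1 := split_le_left (K := 2) (a := ρ.eval (f x).length)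
      (b := ρ.eval (q.eval x.length) - ρ.eval (f x).length)
      (Q := fun r => ∃ w : List Bool, w.length ≤ p.eval (f x).length ∧
        V (pairBits (pairBits (f x) r) w) = [true]) (hs (f x) hx)
    rw [Nat.add_sub_cancel' (eval_mono ρ (hq x))] at h1
    refine le_trans (Nat.mul_le_mul_left _ (Set.ncard_le_ncard ?_ ?_)) h1
    · rintro r ⟨hr, w, _, hw⟩
      exact ⟨hr, w, acc_iff.1 hw⟩
    · exact (str_finite _).subset fun r hr => hr.1

theorem am_inter {L L' : Set (List Bool)} (h : InAM L) (h' : InAM L') : InAM (L ∩ L') := by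
  obtain ⟨V, ρ, p, hV, hc, hs⟩ := h
  obtain ⟨V', ρ', p', hV', hc', hs'⟩ := h'
  have e1 : Poly (fun t : List Bool × (List Bool × List Bool) => t.1) := NPC.Poly.fst NPC.Poly.id
  have e2 : Poly (fun t : List Bool × (List Bool × List Bool) => t.2.1) :=
    NPC.Poly.fst (NPC.Poly.snd NPC.Poly.id)
  have e3 : Poly (fun t : List Bool × (List Bool × List Bool) => unpair t.2.2) :=
    poly_unpair.comp (NPC.Poly.snd (NPC.Poly.snd NPC.Poly.id))
  have el := ((UPoly.length e1).eval ρ).toPoly
  refine inAM_of (v := fun x r w => Acc V p x (r.take (ρ.eval x.length)) (unpair w).1 &&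
      Acc V' p' x (r.drop (ρ.eval x.length)) (unpair w).2)
    (NPC.Poly.and (acc_poly hV p e1 (take_poly' e2 el) (NPC.Poly.fst e3))
      (acc_poly hV' p' e1 (drop_poly' e2 el) (NPC.Poly.snd e3)))
    (ρ + ρ') (2 * p + 1 + p') (fun x hx r hr => ?_) fun x hx => ?_
  · rw [Polynomial.eval_add] at hr
    obtain ⟨w, hw1, hw2⟩ := hc x hx.1 (r.take (ρ.eval x.length)) (by
      rw [List.length_take, hr]
      omega)
    obtain ⟨w', hw1', hw2'⟩ := hc' x hx.2 (r.drop (ρ.eval x.length)) (by
      rw [List.length_drop, hr]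
      omega)
    refine ⟨pairBits w w', ?_, ?_⟩
    · rw [pb_len]
      simp only [Polynomial.eval_add, Polynomial.eval_mul, Polynomial.eval_ofNat,
        Polynomial.eval_one]
      omega
    · simp only [unpair_pairBits]
      rw [acc_iff.2 ⟨hw1, hw2⟩, acc_iff.2 ⟨hw1', hw2'⟩]
      rfl
  · rw [Polynomial.eval_add]
    by_cases hxL : x ∈ L
    · have hxL' : x ∉ L' := fun h => hx ⟨hxL, h⟩
      have h1 := split_le (K := 2) (a := ρ.eval x.length) (b := ρ'.eval x.length)
        (Q := fun _ r => ∃ w : List Bool, w.length ≤ p'.eval x.length ∧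
          V' (pairBits (pairBits x r) w) = [true]) (fun _ _ => hs' x hxL')
      refine le_trans (Nat.mul_le_mul_left _ (Set.ncard_le_ncard ?_ ?_)) h1
      · rintro r ⟨hr, w, _, hw⟩
        rw [Bool.and_eq_true] at hw
        exact ⟨hr, _, acc_iff.1 hw.2⟩
      · exact (str_finite _).subset fun r hr => hr.1
    · have h1 := split_le_left (K := 2) (a := ρ.eval x.length) (b := ρ'.eval x.length)
        (Q := fun r => ∃ w : List Bool, w.length ≤ p.eval x.length ∧
          V (pairBits (pairBits x r) w) = [true]) (hs x hxL)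
      refine le_trans (Nat.mul_le_mul_left _ (Set.ncard_le_ncard ?_ ?_)) h1
      · rintro r ⟨hr, w, _, hw⟩
        rw [Bool.and_eq_true] at hw
        exact ⟨hr, _, acc_iff.1 hw.1⟩
      · exact (str_finite _).subset fun r hr => hr.1

/-- Guesses for the closure under existential quantification. -/
abbrev Ge : Type := List Bool × List (List Bool)

/-- Decoding of a guess. -/
def dge (w : List Bool) : Ge := (unbits Ge w).getD default

theorem dge_poly : Poly dge := NPC.Poly.optGetD poly_unbits (NPC.Poly.const _)

theorem dge_bits (g : Ge) : dge (bits g) = g := by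
  unfold dge
  rw [unbits_bits, Option.getD_some]

/-- The verifier for the closure under existential quantification. -/
noncomputable def ave (V : List Bool → List Bool) (ρ p pw : Polynomial ℕ) (x r g : List Bool) :
    Bool :=
  decide ((dge g).1.length ≤ pw.eval x.length) &&
    (List.range ((pw + 2).eval x.length)).all (fun τ =>
      Acc V p (pairBits x (dge g).1)
        (((r.drop (τ * (ρ.comp (Polynomial.C 2 * Polynomial.X + 1 + pw)).eval x.length)).take
          ((ρ.comp (Polynomial.C 2 * Polynomial.X + 1 + pw)).eval x.length)).take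
            (ρ.eval (pairBits x (dge g).1).length)) ((dge g).2.getD τ []))

theorem am_ex {L : Set (List Bool)} (pw : Polynomial ℕ) (h : InAM L) :
    InAM {x | ∃ w : List Bool, w.length ≤ pw.eval x.length ∧ pairBits x w ∈ L} := by
  classical
  obtain ⟨V, ρ, p, hV, hc, hs⟩ := h
  set l : Polynomial ℕ := Polynomial.C 2 * Polynomial.X + 1 + pw with hl
  have hle : ∀ n, l.eval n = 2 * n + 1 + pw.eval n := fun n => by simp [hl]
  have hpb : ∀ x w : List Bool, w.length ≤ pw.eval x.length →
      (pairBits x w).length ≤ l.eval x.length := by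
    intro x w hw
    rw [pb_len, hle]
    omega
  have hρl : ∀ n, (ρ.comp l).eval n = ρ.eval (l.eval n) := fun n => Polynomial.eval_comp
  refine inAM_of (v := ave V ρ p pw) ?_ ((pw + 2) * ρ.comp l)
    ((Polynomial.C 4 * pw + 1) + ((pw + 2) * (Polynomial.C 4 * p.comp l + 2) + 1) + 1)
    (fun x hx r hr => ?_) fun x hx => ?_
  · have e1 : Poly (fun t : List Bool × (List Bool × List Bool) => t.1) := NPC.Poly.fst NPC.Poly.id
    have e2 : Poly (fun t : List Bool × (List Bool × List Bool) => t.2.1) :=
      NPC.Poly.fst (NPC.Poly.snd NPC.Poly.id)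
    have e3 : Poly (fun t : List Bool × (List Bool × List Bool) => dge t.2.2) :=
      dge_poly.comp (NPC.Poly.snd (NPC.Poly.snd NPC.Poly.id))
    have u1 := UPoly.length e1
    unfold ave
    refine NPC.Poly.and (NPC.Poly.decide_le (NPC.Poly.length (NPC.Poly.fst e3))
      (u1.eval pw).toPoly) ?_
    refine NPC.Poly.all (l := fun t : List Bool × (List Bool × List Bool) =>
        List.range ((pw + 2).eval t.1.length))
      (p := fun t τ => Acc V p (pairBits t.1 (dge t.2.2).1)
        (((t.2.1.drop (τ * (ρ.comp l).eval t.1.length)).take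
          ((ρ.comp l).eval t.1.length)).take
            (ρ.eval (pairBits t.1 (dge t.2.2).1).length)) ((dge t.2.2).2.getD τ []))
      (u1.eval (pw + 2)).range ?_
    have f1 : Poly (fun t : (List Bool × (List Bool × List Bool)) × ℕ => t.1) :=
      NPC.Poly.fst NPC.Poly.id
    have f2 : Poly (fun t : (List Bool × (List Bool × List Bool)) × ℕ => t.2) :=
      NPC.Poly.snd NPC.Poly.id
    have g1 : Poly (fun t : (List Bool × (List Bool × List Bool)) × ℕ =>
        pairBits t.1.1 (dge t.1.2.2).1) :=
      H622R2.poly_pairBits (e1.comp f1) (NPC.Poly.fst (e3.comp f1))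
    have g2 : Poly (fun t : (List Bool × (List Bool × List Bool)) × ℕ =>
        (ρ.comp l).eval t.1.1.length) := ((UPoly.length (e1.comp f1)).eval (ρ.comp l)).toPoly
    exact acc_poly hV p g1 (take_poly' (take_poly' (drop_poly' (e2.comp f1)
      (NPC.Poly.mul f2 g2)) g2) ((UPoly.length g1).eval ρ).toPoly)
      (NPC.Poly.getD (NPC.Poly.snd (e3.comp f1)) f2 (NPC.Poly.const []))
  · obtain ⟨w, hw, hwL⟩ := hx
    rw [Polynomial.eval_mul] at hr
    have hm := eval_mono ρ (hpb x w hw)
    have hex : ∀ τ : ℕ, ∃ v : List Bool, v.length ≤ p.eval (pairBits x w).length ∧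
        (τ < (pw + 2).eval x.length → Acc V p (pairBits x w)
          (((r.drop (τ * (ρ.comp l).eval x.length)).take ((ρ.comp l).eval x.length)).take
            (ρ.eval (pairBits x w).length)) v = true) := by
      intro τ
      by_cases hτ : τ < (pw + 2).eval x.length
      · obtain ⟨v, hv1, hv2⟩ := hc (pairBits x w) hwL
          (((r.drop (τ * (ρ.comp l).eval x.length)).take ((ρ.comp l).eval x.length)).take
            (ρ.eval (pairBits x w).length)) (by
            rw [List.length_take, List.length_take, List.length_drop, hr, hρl]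
            have h3 : (τ + 1) * ρ.eval (l.eval x.length) ≤
              (pw + 2).eval x.length * ρ.eval (l.eval x.length) := Nat.mul_le_mul_right _ hτ
            rw [Nat.add_mul, one_mul] at h3
            omega)
        exact ⟨v, hv1, fun _ => acc_iff.2 ⟨hv1, hv2⟩⟩
      · exact ⟨[], Nat.zero_le _, fun h => absurd h hτ⟩
    choose f hf1 hf2 using hex
    refine ⟨bits ((w, (List.range ((pw + 2).eval x.length)).map f) : Ge), ?_, ?_⟩
    · rw [bits_length, sz_pair]
      have s1 := sz_listBool_le w
      have s2 := sz_le_length_mul ((List.range ((pw + 2).eval x.length)).map f)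
        (4 * p.eval (l.eval x.length) + 1) (fun u hu => by
          obtain ⟨τ, -, rfl⟩ := List.mem_map.1 hu
          have h1 := sz_listBool_le (f τ)
          have h2 := hf1 τ
          have h3 := eval_mono p (hpb x w hw)
          omega)
      rw [List.length_map, List.length_range] at s2
      simp only [Polynomial.eval_add, Polynomial.eval_mul, Polynomial.eval_C,
        Polynomial.eval_comp, Polynomial.eval_one, Polynomial.eval_ofNat] at s2 ⊢
      have s3 : (pw.eval x.length + 2) * (4 * p.eval (l.eval x.length) + 1 + 1) =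
        (pw.eval x.length + 2) * (4 * p.eval (l.eval x.length) + 2) := rfl
      omega
    · unfold ave
      rw [dge_bits, Bool.and_eq_true, decide_eq_true_eq, List.all_eq_true]
      refine ⟨hw, fun τ hτ => ?_⟩
      have hτ' := List.mem_range.1 hτ
      have h1 : ((List.range ((pw + 2).eval x.length)).map f).getD τ [] = f τ := by
        rw [List.getD_eq_getElem?_getD, List.getElem?_map, List.getElem?_range hτ']
        rfl
      simp only
      rw [h1]
      exact hf2 τ hτ'
  · rw [Polynomial.eval_mul]
    have h2 := union_commit (BLe (pw.eval x.length)) (pw.eval x.length) ((pw + 2).eval x.length)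
      ((ρ.comp l).eval x.length) 1 (card_BLe _)
      (fun w ch => ∃ v : List Bool, v.length ≤ p.eval (pairBits x w).length ∧
        V (pairBits (pairBits (pairBits x w) (ch.take (ρ.eval (pairBits x w).length))) v) =
          [true]) (fun w hw => ?_) (by simp)
    · rw [pow_one] at h2
      refine le_trans (Nat.mul_le_mul_left _ (Set.ncard_le_ncard ?_ ?_)) h2
      · rintro r ⟨hr, g, _, hg⟩
        unfold ave at hg
        rw [Bool.and_eq_true, decide_eq_true_eq, List.all_eq_true] at hg
        exact ⟨hr, (dge g).1, mem_BLe.2 hg.1, fun τ hτ =>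
          ⟨_, acc_iff.1 (hg.2 τ (List.mem_range.2 hτ))⟩⟩
      · exact (str_finite _).subset fun r hr => hr.1
    · have hw' := mem_BLe.1 hw
      have hn : pairBits x w ∉ L := fun h => hx ⟨w, hw', h⟩
      have hm := eval_mono ρ (hpb x w hw')
      have h1 := split_le_left (K := 2) (a := ρ.eval (pairBits x w).length)
        (b := ρ.eval (l.eval x.length) - ρ.eval (pairBits x w).length)
        (Q := fun r => ∃ v : List Bool, v.length ≤ p.eval (pairBits x w).length ∧
          V (pairBits (pairBits (pairBits x w) r) v) = [true]) (hs _ hn)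
      rw [Nat.add_sub_cancel' hm] at h1
      rw [hρl]
      exact h1

theorem am_compl (h : ∀ S : Set (List Bool), InNP S → InAM Sᶜ) {L : Set (List Bool)}
    (hL : InAM L) : InAM Lᶜ := by
  obtain ⟨V, ρ, p, hV, hc, hs⟩ := hL
  set N : Set (List Bool) := {z | (unpair z).2.length ≠ ρ.eval (unpair z).1.length ∨
    ∃ w : List Bool, Acc V p (unpair z).1 (unpair z).2 w = true} with hN
  have hNP : InNP N := by
    have e1 : Poly (fun y : List Bool => (unpair y).1) := NPC.Poly.fst poly_unpair
    have e2 : Poly (fun y : List Bool => (unpair y).2) := NPC.Poly.snd poly_unpair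
    have e3 : Poly (fun y : List Bool => (unpair (unpair y).1).1) := e1.comp e1
    have e4 : Poly (fun y : List Bool => (unpair (unpair y).1).2) := e2.comp e1
    refine ⟨fun y => [!decide ((unpair (unpair y).1).2.length =
      ρ.eval (unpair (unpair y).1).1.length) ||
        Acc V p (unpair (unpair y).1).1 (unpair (unpair y).1).2 (unpair y).2], p,
      PIso.poly_iff.1 (NPC.Poly.cons (NPC.Poly.or (NPC.Poly.not (NPC.Poly.decide_eq
        (NPC.Poly.length e4) ((UPoly.length e3).eval ρ).toPoly)) (acc_poly hV p e3 e4 e2))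
        (NPC.Poly.const [])), fun z => ?_⟩
    simp only [hN, Set.mem_ofPred_eq, unpair_pairBits, List.cons.injEq, and_true,
      Bool.or_eq_true, Bool.not_eq_true', decide_eq_false_iff_not]
    constructor
    · rintro (h1 | ⟨w, hw⟩)
      · exact ⟨[], Nat.zero_le _, Or.inl h1⟩
      · exact ⟨w, (acc_iff.1 hw).1.trans (eval_mono p
          (Pool.Agent.W920.NL.unpair_fst_length z)), Or.inr hw⟩
    · rintro ⟨w, _, h1 | h1⟩
      · exact Or.inl h1
      · exact Or.inr ⟨w, h1⟩
  have h1 := am_ex ρ (h N hNP)
  have h2 : {x | ∃ w : List Bool, w.length ≤ ρ.eval x.length ∧ pairBits x w ∈ Nᶜ} = Lᶜ := by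
    ext x
    simp only [Set.mem_ofPred_eq, Set.mem_compl_iff, hN, unpair_pairBits, not_or, not_not]
    constructor
    · rintro ⟨r, _, hr, hno⟩ hx
      obtain ⟨w, hw⟩ := hc x hx r hr
      exact hno ⟨w, acc_iff.2 hw⟩
    · intro hx
      have h3 := hs x hx
      by_contra hcon
      push Not at hcon
      have h4 : Str (ρ.eval x.length) ⊆ {r : List Bool | r.length = ρ.eval x.length ∧
          ∃ w : List Bool, w.length ≤ p.eval x.length ∧
            V (pairBits (pairBits x r) w) = [true]} := by
        intro r hr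
        obtain ⟨w, hw⟩ := hcon r (le_of_eq hr) hr
        exact ⟨hr, w, acc_iff.1 hw⟩
      have h5 := Set.ncard_le_ncard h4 ((str_finite _).subset fun r hr => hr.1)
      rw [str_ncard] at h5
      have h6 : 1 ≤ 2 ^ ρ.eval x.length := Nat.one_le_two_pow
      omega
  rw [← h2]
  exact h1

/-- **If `coNP` is contained in `AM` then `AM` is closed.** -/
theorem cl_am (h : ∀ S : Set (List Bool), InNP S → InAM Sᶜ) : Cl InAM where
  ofP := am_ofP
  pre := am_pre
  inter := am_inter
  compl := am_compl h
  ex := am_ex

/-- **If `coNP` is contained in `AM` then the polynomial hierarchy is contained in `AM`.** -/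
theorem ph_sub_am (h : ∀ S : Set (List Bool), InNP S → InAM Sᶜ) {S : Set (List Bool)}
    (hS : InPH S) : InAM S := by
  obtain ⟨k, hk⟩ := hS
  induction k generalizing S with
  | zero => exact am_ofP hk
  | succ k ih =>
    obtain ⟨M, p, hM, hx⟩ := hk
    have h1 := am_ex p (am_compl h (ih hM))
    have h2 : {x | ∃ w : List Bool, w.length ≤ p.eval x.length ∧ pairBits x w ∈ Mᶜ} = S := by
      ext x
      exact (hx x).symm
    rw [← h2]
    exact h1

end Pool.Agent.TH684.AM
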