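import Pool.Agent.TH684.AM.Count
import Pool.Agent.W920.NL.Cnt

/-!
# Completeness and soundness of the protocol for one list
-/

set_option autoImplicit false

namespace Pool.Agent.TH684.AM

open Finset Pool.Agent.H579R2.Spt
open Pool.Agent.W901.RL (card_BL_nat)
open Pool.Agent.W920.NL (Str str_finite str_ncard ncard_split_le blocks_le)

/-- The target `(α, β, γ)` is hit by two strings with the same value under `F` and different sides. -/
def Hit (F : List Bool → List Bool) (side : List Bool → Bool) (N mv mx l k : ℕ)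
    (HV HX : List (List Bool)) (α β γ : List Bool) : Prop :=
  ∃ x x' : List Bool, x.length = N ∧ x'.length = N ∧ F x = F x' ∧ side x ≠ side x' ∧
    (∃ h ∈ HV, hsh mv l h (F x) = α) ∧ (∃ g ∈ HX, hsh mx k g x = β) ∧ ∃ g ∈ HX, hsh mx k g x' = γ

/-- **Merlin can hit all targets.** -/
theorem exists_commit (t R S : ℕ) (ht : S + 2 ≤ t) (F : List Bool → List Bool)
    (hF : ∀ x ∈ BL (t + R), (F x).length ≤ S) :
    ∃ j < t, ∃ k l : ℕ, k ≤ t + R ∧ l ≤ S + 1 ∧ 2 ^ (t + R) ≤ 8 * t * (t + R + 1) * 2 ^ (l + k) ∧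
      ∃ HV HX : List (List Bool), HV.length = S + 2 ∧ HX.length = S + t + R + 3 ∧
        (∀ h ∈ HV, h.length = l * (S + 1)) ∧ (∀ g ∈ HX, g.length = k * (t + R + 1)) ∧
        ∀ α β γ : List Bool, α.length = l → β.length = k → γ.length = k →
          ∃ x x' : List Bool, x.length = t + R ∧ x'.length = t + R ∧ F x = F x' ∧
            x.getD j false = false ∧ x'.getD j false = true ∧
            (∃ h ∈ HV, hsh (S + 1) l h (F x) = α) ∧ (∃ g ∈ HX, hsh (t + R + 1) k g x = β) ∧
            ∃ g ∈ HX, hsh (t + R + 1) k g x' = γ := by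
  classical
  obtain ⟨j, hj, k, l, hk, hl, W, hW1, hW2, hW3, hW4⟩ := exists_jkl t R S ht F hF
  obtain ⟨HV, hV1, hV2, hV3⟩ := exists_hitting (BL (l * (S + 1)))
    (fun y r => ∃ c ∈ W, hsh (S + 1) l r c = y) (S + 2) (BL l) (fun y hy => by
      have h1 := hit_half (S + 1) l W (fun c hc => Nat.succ_le_succ (hW2 c hc)) hW1 y
        (mem_BL.1 hy)
      rw [card_BL_nat]
      have h2 : {ω : List Bool | ω ∈ BL (l * (S + 1)) ∧ ∃ c ∈ W, hsh (S + 1) l ω c = y} =
          ↑((BL (l * (S + 1))).filter (fun r => ∃ c ∈ W, hsh (S + 1) l r c = y)) := by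
        ext ω; simp
      rw [h2, Set.ncard_coe_finset]
      exact h1) (Finset.card_pos.1 (by rw [card_BL_nat]; positivity)) (by
      rw [card_BL_nat]
      exact Nat.pow_lt_pow_right (by norm_num) (by omega))
  set Xf : List Bool → Bool → Finset (List Bool) := fun v b =>
    (BL (t + R)).filter (fun x => F x = v ∧ x.getD j false = b) with hXf
  obtain ⟨HX, hX1, hX2, hX3⟩ := exists_hitting (BL (k * (t + R + 1)))
    (fun (y : List Bool × (Bool × List Bool)) r => ∃ c ∈ Xf y.1 y.2.1,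
      hsh (t + R + 1) k r c = y.2.2) (S + t + R + 3) (W ×ˢ ((univ : Finset Bool) ×ˢ BL k))
    (fun y hy => by
      obtain ⟨hy1, hy2⟩ := Finset.mem_product.1 hy
      obtain ⟨-, hy3⟩ := Finset.mem_product.1 hy2
      have h1 := hit_half (t + R + 1) k (Xf y.1 y.2.1) (fun c hc => by
        have := mem_BL.1 (Finset.mem_filter.1 hc).1
        omega) (hW3 y.1 hy1 y.2.1) y.2.2 (mem_BL.1 hy3)
      rw [card_BL_nat]
      have h2 : {ω : List Bool | ω ∈ BL (k * (t + R + 1)) ∧
          ∃ c ∈ Xf y.1 y.2.1, hsh (t + R + 1) k ω c = y.2.2} =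
          ↑((BL (k * (t + R + 1))).filter
            (fun r => ∃ c ∈ Xf y.1 y.2.1, hsh (t + R + 1) k r c = y.2.2)) := by
        ext ω; simp
      rw [h2, Set.ncard_coe_finset]
      exact h1) (Finset.card_pos.1 (by rw [card_BL_nat]; positivity)) (by
      rw [Finset.card_product, Finset.card_product, card_BL_nat]
      have h1 : W.card ≤ 2 ^ (S + 1) :=
        (Finset.card_le_card fun v hv => mem_BLe.2 (hW2 v hv)).trans (card_BLe S)
      calc W.card * ((univ : Finset Bool).card * 2 ^ k) ≤ 2 ^ (S + 1) * (2 ^ 1 * 2 ^ (t + R)) :=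
            Nat.mul_le_mul h1 (Nat.mul_le_mul (by simp) (Nat.pow_le_pow_right (by norm_num) hk))
        _ = 2 ^ (S + t + R + 2) := by rw [← pow_add, ← pow_add]; congr 1; ring
        _ < 2 ^ (S + t + R + 3) := Nat.pow_lt_pow_right (by norm_num) (by omega))
  refine ⟨j, hj, k, l, hk, hl, hW4, HV, HX, hV1, hX1, fun h hh => mem_BL.1 (hV2 h hh),
    fun g hg => mem_BL.1 (hX2 g hg), fun α β γ hα hβ hγ => ?_⟩
  obtain ⟨h, hh, v, hv, h1⟩ := hV3 α (mem_BL.2 hα)
  obtain ⟨g, hg, x, hx, h2⟩ := hX3 (v, (false, β)) (Finset.mem_product.2 ⟨hv,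
    Finset.mem_product.2 ⟨Finset.mem_univ _, mem_BL.2 hβ⟩⟩)
  obtain ⟨g', hg', x', hx', h3⟩ := hX3 (v, (true, γ)) (Finset.mem_product.2 ⟨hv,
    Finset.mem_product.2 ⟨Finset.mem_univ _, mem_BL.2 hγ⟩⟩)
  obtain ⟨a1, a2, a3⟩ := Finset.mem_filter.1 hx
  obtain ⟨b1, b2, b3⟩ := Finset.mem_filter.1 hx'
  exact ⟨x, x', mem_BL.1 a1, mem_BL.1 b1, a2.trans b2.symm, a3, b3, ⟨h, hh, by rw [a2]; exact h1⟩,
    ⟨g, hg, h2⟩, ⟨g', hg', h3⟩⟩

/-! ### Soundness -/

theorem piece_card (α β : List Bool) (L cs : ℕ) (h1 : α.length ≤ L) (h2 : L + β.length ≤ cs) :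
    {c : List Bool | c.length = cs ∧ c.take α.length = α ∧
      (c.drop L).take β.length = β}.ncard ≤ 2 ^ (cs - α.length - β.length) := by
  have hA : {c : List Bool | c.length = cs ∧ c.take α.length = α ∧
      (c.drop L).take β.length = β}.ncard ≤ ({α} : Set (List Bool)).ncard *
      {d : List Bool | d.length = cs - α.length ∧
        (d.drop (L - α.length)).take β.length = β}.ncard := by
    refine ncard_split_le (a := α.length) (Set.finite_singleton _)
      ((str_finite (cs - α.length)).subset fun r hr => hr.1) ?_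
    rintro r ⟨hr1, hr2, hr3⟩
    refine ⟨hr2, by rw [List.length_drop, hr1], ?_⟩
    rw [List.drop_drop, Nat.add_sub_cancel' h1]
    exact hr3
  have hB : {d : List Bool | d.length = cs - α.length ∧
        (d.drop (L - α.length)).take β.length = β}.ncard ≤ (Str (L - α.length)).ncard *
      {d : List Bool | d.length = cs - L ∧ d.take β.length = β}.ncard := by
    refine ncard_split_le (a := L - α.length) (str_finite _)
      ((str_finite (cs - L)).subset fun r hr => hr.1) ?_
    rintro r ⟨hr1, hr2⟩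
    refine ⟨?_, ?_, hr2⟩
    · change (r.take (L - α.length)).length = L - α.length
      rw [List.length_take]
      omega
    · rw [List.length_drop]
      omega
  have hC : {d : List Bool | d.length = cs - L ∧ d.take β.length = β}.ncard ≤
      ({β} : Set (List Bool)).ncard * (Str (cs - L - β.length)).ncard := by
    refine ncard_split_le (a := β.length) (Set.finite_singleton _) (str_finite _) ?_
    rintro r ⟨hr1, hr2⟩
    refine ⟨hr2, ?_⟩
    change (r.drop β.length).length = cs - L - β.length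
    rw [List.length_drop, hr1]
  rw [Set.ncard_singleton, one_mul] at hA hC
  rw [str_ncard] at hB hC
  calc _ ≤ 2 ^ (L - α.length) * 2 ^ (cs - L - β.length) :=
        hA.trans (hB.trans (Nat.mul_le_mul_left _ hC))
    _ = 2 ^ (cs - α.length - β.length) := by rw [← pow_add]; congr 1; omega

/-- Unions over lists and finite sets. -/
theorem ncard_exists_le {ι : Type} (s : Finset ι) (P : ι → List Bool → Prop) (n M : ℕ)
    (h : ∀ i ∈ s, {c : List Bool | c.length = n ∧ P i c}.ncard ≤ M) :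
    {c : List Bool | c.length = n ∧ ∃ i ∈ s, P i c}.ncard ≤ s.card * M := by
  classical
  induction s using Finset.induction_on with
  | empty =>
    have h1 : {c : List Bool | c.length = n ∧ ∃ i ∈ (∅ : Finset ι), P i c} = ∅ := by
      ext c; simp
    rw [h1]
    simp
  | insert a s ha ih =>
    have h1 : {c : List Bool | c.length = n ∧ ∃ i ∈ insert a s, P i c} ⊆
        {c : List Bool | c.length = n ∧ P a c} ∪
          {c : List Bool | c.length = n ∧ ∃ i ∈ s, P i c} := by
      rintro c ⟨hc, i, hi, hP⟩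
      rcases Finset.mem_insert.1 hi with rfl | hi
      · exact Or.inl ⟨hc, hP⟩
      · exact Or.inr ⟨hc, i, hi, hP⟩
    have h2 := ih fun i hi => h i (Finset.mem_insert_of_mem hi)
    have h3 := h a (Finset.mem_insert_self _ _)
    have h4 := (Set.ncard_le_ncard h1 (((str_finite n).subset fun r hr => hr.1).union
      ((str_finite n).subset fun r hr => hr.1))).trans (Set.ncard_union_le _ _)
    rw [Finset.card_insert_of_notMem ha, Nat.add_mul, one_mul]
    omega

/-- One half of the soundness bound. -/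
theorem half_hit (Bad : Finset (List Bool)) (F : List Bool → List Bool) (mv mx l k L cs : ℕ)
    (HV HX : List (List Bool)) (h1 : l ≤ L) (h2 : L + k ≤ cs) :
    {c : List Bool | c.length = cs ∧ ∃ x ∈ Bad, (∃ h ∈ HV, hsh mv l h (F x) = c.take l) ∧
      ∃ g ∈ HX, hsh mx k g x = (c.drop L).take k}.ncard ≤
      Bad.card * (HV.length * HX.length * 2 ^ (cs - l - k)) := by
  classical
  refine ncard_exists_le Bad (fun x c => (∃ h ∈ HV, hsh mv l h (F x) = c.take l) ∧
      ∃ g ∈ HX, hsh mx k g x = (c.drop L).take k) cs _ fun x _ => ?_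
  have h3 : {c : List Bool | c.length = cs ∧ ((∃ h ∈ HV, hsh mv l h (F x) = c.take l) ∧
      ∃ g ∈ HX, hsh mx k g x = (c.drop L).take k)} ⊆
      {c : List Bool | c.length = cs ∧ ∃ q ∈ HV.toFinset ×ˢ HX.toFinset,
        (hsh mv l q.1 (F x) = c.take l ∧ hsh mx k q.2 x = (c.drop L).take k)} := by
    rintro c ⟨hc, ⟨h, hh, h4⟩, g, hg, h5⟩
    exact ⟨hc, (h, g), Finset.mem_product.2 ⟨List.mem_toFinset.2 hh, List.mem_toFinset.2 hg⟩,
      h4, h5⟩
  refine (Set.ncard_le_ncard h3 ((str_finite cs).subset fun r hr => hr.1)).trans ?_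
  refine (ncard_exists_le (HV.toFinset ×ˢ HX.toFinset) (fun q c =>
    hsh mv l q.1 (F x) = c.take l ∧ hsh mx k q.2 x = (c.drop L).take k) cs
    (2 ^ (cs - l - k)) fun q _ => ?_).trans ?_
  · have h4 := piece_card (hsh mv l q.1 (F x)) (hsh mx k q.2 x) L cs
      (by rw [hsh_length]; exact h1) (by rw [hsh_length]; exact h2)
    rw [hsh_length, hsh_length] at h4
    refine (Set.ncard_le_ncard ?_ ((str_finite cs).subset fun r hr => hr.1)).trans h4
    rintro c ⟨hc, h5, h6⟩
    exact ⟨hc, h5.symm, h6.symm⟩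
  · rw [Finset.card_product]
    exact Nat.mul_le_mul_right _ (Nat.mul_le_mul (List.toFinset_card_le _)
      (List.toFinset_card_le _))

/-- **Merlin cannot hit more than half of the targets if few strings are bad.** -/
theorem hit_sound (F : List Bool → List Bool) (side : List Bool → Bool) (Bd : List Bool → Prop)
    (N mv mx l k L1 L2 cs σ : ℕ) (HV HX : List (List Bool)) (h1 : l ≤ L1) (h2 : k ≤ L2)
    (h3 : L1 + 2 * L2 ≤ cs) (hpair : ∀ x x' : List Bool, x.length = N → x'.length = N →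
      F x = F x' → side x ≠ side x' → Bd x ∨ Bd x')
    (hbad : 2 ^ (2 * σ) * {x : List Bool | x.length = N ∧ Bd x}.ncard ≤ 2 ^ N)
    (hN : N ≤ l + k + σ) (hK : 4 * (HV.length * HX.length) ≤ 2 ^ σ) :
    2 * {c : List Bool | c.length = cs ∧ Hit F side N mv mx l k HV HX (c.take l)
      ((c.drop L1).take k) ((c.drop (L1 + L2)).take k)}.ncard ≤ 2 ^ cs := by
  classical
  set Bad : Finset (List Bool) := (BL N).filter Bd with hBad
  have hBc : {x : List Bool | x.length = N ∧ Bd x}.ncard = Bad.card := by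
    rw [← Set.ncard_coe_finset]
    congr 1
    ext x
    simp [hBad]
  rw [hBc] at hbad
  have hA := half_hit Bad F mv mx l k L1 cs HV HX h1 (by omega)
  have hB := half_hit Bad F mv mx l k (L1 + L2) cs HV HX (by omega) (by omega)
  have hsub : {c : List Bool | c.length = cs ∧ Hit F side N mv mx l k HV HX (c.take l)
      ((c.drop L1).take k) ((c.drop (L1 + L2)).take k)} ⊆
      {c : List Bool | c.length = cs ∧ ∃ x ∈ Bad, (∃ h ∈ HV, hsh mv l h (F x) = c.take l) ∧
        ∃ g ∈ HX, hsh mx k g x = (c.drop L1).take k} ∪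
      {c : List Bool | c.length = cs ∧ ∃ x ∈ Bad, (∃ h ∈ HV, hsh mv l h (F x) = c.take l) ∧
        ∃ g ∈ HX, hsh mx k g x = (c.drop (L1 + L2)).take k} := by
    rintro c ⟨hc, x, x', hx, hx', hF, hsd, ⟨h, hh, h4⟩, ⟨g, hg, h5⟩, ⟨g', hg', h6⟩⟩
    rcases hpair x x' hx hx' hF hsd with hb | hb
    · exact Or.inl ⟨hc, x, Finset.mem_filter.2 ⟨mem_BL.2 hx, hb⟩, ⟨h, hh, h4⟩, g, hg, h5⟩
    · exact Or.inr ⟨hc, x', Finset.mem_filter.2 ⟨mem_BL.2 hx', hb⟩, ⟨h, hh, hF ▸ h4⟩, g', hg', h6⟩
  have h4 := (Set.ncard_le_ncard hsub (((str_finite cs).subset fun r hr => hr.1).union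
      ((str_finite cs).subset fun r hr => hr.1))).trans (Set.ncard_union_le _ _)
  have h5 : 2 ^ (2 * σ) * (2 * {c : List Bool | c.length = cs ∧
      Hit F side N mv mx l k HV HX (c.take l)
      ((c.drop L1).take k) ((c.drop (L1 + L2)).take k)}.ncard) ≤ 2 ^ (2 * σ) * 2 ^ cs := by
    calc 2 ^ (2 * σ) * (2 * {c : List Bool | c.length = cs ∧
          Hit F side N mv mx l k HV HX (c.take l)
          ((c.drop L1).take k) ((c.drop (L1 + L2)).take k)}.ncard)
        ≤ 2 ^ (2 * σ) * (2 * (2 * (Bad.card * (HV.length * HX.length * 2 ^ (cs - l - k))))) := by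
          refine Nat.mul_le_mul_left _ (Nat.mul_le_mul_left _ ?_)
          omega
      _ = (2 ^ (2 * σ) * Bad.card) * (4 * (HV.length * HX.length)) * 2 ^ (cs - l - k) := by ring
      _ ≤ 2 ^ N * 2 ^ σ * 2 ^ (cs - l - k) :=
          Nat.mul_le_mul_right _ (Nat.mul_le_mul hbad hK)
      _ ≤ 2 ^ (l + k + σ) * 2 ^ σ * 2 ^ (cs - l - k) :=
          Nat.mul_le_mul_right _ (Nat.mul_le_mul_right _ (Nat.pow_le_pow_right (by norm_num) hN))
      _ = 2 ^ (2 * σ) * 2 ^ cs := by
          rw [← pow_add, ← pow_add, ← pow_add]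
          congr 1
          omega
  exact Nat.le_of_mul_le_mul_left h5 (by positivity)

/-- **The union bound over the commitments.** -/
theorem union_commit {ι : Type} (s : Finset ι) (Q T cs e : ℕ) (hs : s.card ≤ 2 ^ (Q + 1))
    (X : ι → List Bool → Prop)
    (hX : ∀ i ∈ s, 2 * {c : List Bool | c.length = cs ∧ X i c}.ncard ≤ 2 ^ cs)
    (hT : Q + 1 + e ≤ T) :
    2 ^ e * {r : List Bool | r.length = T * cs ∧ ∃ i ∈ s, ∀ τ < T,
      X i ((r.drop (τ * cs)).take cs)}.ncard ≤ 2 ^ (T * cs) := by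
  classical
  have h1 : ∀ i ∈ s, {r : List Bool | r.length = T * cs ∧ ∀ τ < T,
      X i ((r.drop (τ * cs)).take cs)}.ncard ≤ 2 ^ (T * cs) / 2 ^ T := by
    intro i hi
    rw [Nat.le_div_iff_mul_le (by positivity), mul_comm]
    have h2 := blocks_le (X := {c : List Bool | c.length = cs ∧ X i c}) (n := cs) (B := cs)
      (fun c hc => hc.1) le_rfl (hX i hi) T T le_rfl
    refine le_trans (Nat.mul_le_mul_left _ (Set.ncard_le_ncard ?_ ?_)) h2
    · rintro r ⟨hr1, hr2⟩
      refine ⟨hr1, fun τ hτ => ⟨?_, hr2 τ hτ⟩⟩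
      rw [List.length_take, List.length_drop, hr1]
      have h3 : (τ + 1) * cs ≤ T * cs := Nat.mul_le_mul_right _ hτ
      rw [Nat.add_mul, one_mul] at h3
      omega
    · exact (str_finite _).subset fun r hr => hr.1
  have h2 := ncard_exists_le s (fun i r => ∀ τ < T, X i ((r.drop (τ * cs)).take cs)) (T * cs)
    _ h1
  calc 2 ^ e * {r : List Bool | r.length = T * cs ∧ ∃ i ∈ s, ∀ τ < T,
        X i ((r.drop (τ * cs)).take cs)}.ncard
      ≤ 2 ^ e * (2 ^ (Q + 1) * (2 ^ (T * cs) / 2 ^ T)) :=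
        Nat.mul_le_mul_left _ (h2.trans (Nat.mul_le_mul_right _ hs))
    _ = 2 ^ (Q + 1 + e) * (2 ^ (T * cs) / 2 ^ T) := by ring
    _ ≤ 2 ^ T * (2 ^ (T * cs) / 2 ^ T) :=
        Nat.mul_le_mul_right _ (Nat.pow_le_pow_right (by norm_num) hT)
    _ ≤ 2 ^ (T * cs) := Nat.mul_div_le _ _

end Pool.Agent.TH684.AM
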