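import Pool.Agent.TH684.AM.Sound

/-!
# Completeness of the protocol
-/

set_option autoImplicit false

namespace Pool.Agent.TH684.AM

open Pool.Agent.NPC Pool.Agent.H251R5.PQ Pool.Agent.W901.AT Pool.Agent.H579R2.Spt
open Pool.Agent.TH684.EX Pool.Agent.TH684.CX Pool.Agent.TH684.DI

/-- The codes of the items for the vector `w` and the positions `J`. -/
def cod (w : List Bool) (J : List ℕ) : List (Bool × ℕ) :=
  (List.range w.length).map (fun r => if J.idxOf r < J.length then (true, J.idxOf r)
    else (false, if w.getD r false = true then 1 else 0))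

theorem cod_length (w : List Bool) (J : List ℕ) : (cod w J).length = w.length := by
  simp [cod]

/-- The choice of the strings. -/
def bt (s : List Bool) (k : ℕ) : ℕ := bif s.getD k false then 1 else 0

theorem bt_lt (s : List Bool) (k : ℕ) : bt s k < 2 := by
  unfold bt
  cases s.getD k false <;> simp

theorem pos_cod (w : List Bool) (J : List ℕ) (s : List Bool) :
    pos (cod w J) s = itms w J 2 (bt s) := by
  unfold pos cod itms
  rw [List.map_map]
  refine List.map_congr_left fun r _ => ?_
  unfold itm bt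
  rw [Function.comp_apply]
  by_cases h : J.idxOf r < J.length
  · rw [if_pos h, if_pos h]
    simp only [cond_true]
    rw [Nat.mul_comm 2 (J.idxOf r)]
  · rw [if_neg h, if_neg h]
    simp only [cond_false]
    split <;> rfl

theorem cod_mem {w : List Bool} {J : List ℕ} {t : Bool × ℕ} (ht : t ∈ cod w J) :
    (t.1 = true → t.2 < J.length) ∧ t.2 ≤ J.length + 1 := by
  obtain ⟨r, -, rfl⟩ := List.mem_map.1 ht
  by_cases h : J.idxOf r < J.length
  · rw [if_pos h]
    exact ⟨fun _ => h, by simp only; omega⟩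
  · rw [if_neg h]
    refine ⟨fun h1 => absurd h1 (by simp), ?_⟩
    simp only
    split <;> omega

/-- the bound for the commitments as a function of the unary number -/
noncomputable def Q0 (ρ q : Polynomial ℕ) (d : ℕ) : Polynomial ℕ :=
  (Polynomial.C 4 * Polynomial.X + 1) + (Wp q d * (Polynomial.C 4 * tp q + 10) + 1) +
    (Polynomial.C 8 * tp q + 5) + (Polynomial.C 4 * Sp q + Polynomial.C 4 * Np ρ q d + 8) +
    ((Sp q + 2) * (Polynomial.C 4 * (Sp q + 1) * (Sp q + 1) + 2) + 1) +
    ((Sp q + Np ρ q d + 3) * (Polynomial.C 4 * Np ρ q d * (Np ρ q d + 1) + 2) + 1) + 10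

variable {ρ q : Polynomial ℕ} {d : ℕ}

theorem q0_eval (a : ℕ) : (Q0 ρ q d).eval a = (4 * a + 1) +
    ((Wp q d).eval a * (4 * (tp q).eval a + 10) + 1) + (8 * (tp q).eval a + 5) +
    (4 * (Sp q).eval a + 4 * (Np ρ q d).eval a + 8) +
    (((Sp q).eval a + 2) * (4 * ((Sp q).eval a + 1) * ((Sp q).eval a + 1) + 2) + 1) +
    (((Sp q).eval a + (Np ρ q d).eval a + 3) *
      (4 * (Np ρ q d).eval a * ((Np ρ q d).eval a + 1) + 2) + 1) + 10 := by
  simp [Q0]

theorem sp_eval (a : ℕ) : (Sp q).eval a = 24 * a * (4 * q.eval a + 2) + 1 := by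
  simp [Sp]

theorem tp_eval (a : ℕ) : (tp q).eval a = (Sp q).eval a + 2 := by
  simp [tp]

theorem wp_eval (a : ℕ) : (Wp q d).eval a = (2 * (tp q).eval a) ^ d + d := by
  simp [Wp]

/-- The size of a commitment. -/
theorem cm_size {a i l k m : ℕ} {e : Bool} {its : List (Bool × ℕ)} {HV HX : List (List Bool)}
    (h1 : its.length ≤ (Wp q d).eval a) (h2 : ∀ t ∈ its, t.2 ≤ (tp q).eval a + 1)
    (h3 : i ≤ 2 * (tp q).eval a) (h4 : l ≤ (Sp q).eval a + 1) (h5 : k ≤ (Np ρ q d).eval a)
    (h6 : HV.length = (Sp q).eval a + 2)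
    (h7 : HX.length = (Sp q).eval a + (Np ρ q d).eval a + 3)
    (h8 : ∀ h ∈ HV, h.length = l * ((Sp q).eval a + 1))
    (h9 : ∀ h ∈ HX, h.length = k * ((Np ρ q d).eval a + 1)) (hm : m = a) :
    (bits ((List.replicate m true, (its, ((i, e), ((List.replicate l true, List.replicate k true),
      (HV, HX))))) : Cm)).length ≤ (Q0 ρ q d).eval a := by
  subst hm
  rw [bits_length, q0_eval]
  simp only [sz_pair]
  have s1 : sz (List.replicate m true) ≤ 4 * m + 1 := by
    have := sz_listBool_le (List.replicate m true)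
    rwa [List.length_replicate] at this
  have s2 : sz its ≤ (Wp q d).eval m * (4 * (tp q).eval m + 10) + 1 := by
    have e1 := sz_le_length_mul its (4 * (tp q).eval m + 9) (fun t ht => by
      have e2 := sz_t_nat_le t.2 _ (h2 t ht)
      have e3 := sz_bool_le t.1
      have e4 : sz t = sz t.1 + sz t.2 + 1 := sz_pair _ _
      omega)
    have e2 : its.length * (4 * (tp q).eval m + 9 + 1) ≤
        (Wp q d).eval m * (4 * (tp q).eval m + 10) := Nat.mul_le_mul_right _ h1
    omega
  have s3 : sz i ≤ 8 * (tp q).eval m + 1 := by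
    have := sz_t_nat_le i _ h3
    omega
  have s4 := sz_bool_le e
  have s5 : sz (List.replicate l true) ≤ 4 * (Sp q).eval m + 5 := by
    have := sz_listBool_le (List.replicate l true)
    rw [List.length_replicate] at this
    omega
  have s6 : sz (List.replicate k true) ≤ 4 * (Np ρ q d).eval m + 1 := by
    have := sz_listBool_le (List.replicate k true)
    rw [List.length_replicate] at this
    omega
  have s7 : sz HV ≤ ((Sp q).eval m + 2) *
      (4 * ((Sp q).eval m + 1) * ((Sp q).eval m + 1) + 2) + 1 := by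
    have e1 := sz_le_length_mul HV (4 * ((Sp q).eval m + 1) * ((Sp q).eval m + 1) + 1)
      (fun h hh => by
        have e2 := sz_listBool_le h
        have e3 : 4 * h.length ≤ 4 * ((Sp q).eval m + 1) * ((Sp q).eval m + 1) := by
          rw [h8 h hh, ← mul_assoc]
          exact Nat.mul_le_mul_right _ (Nat.mul_le_mul_left _ h4)
        omega)
    rw [h6] at e1
    exact e1
  have s8 : sz HX ≤ ((Sp q).eval m + (Np ρ q d).eval m + 3) *
      (4 * (Np ρ q d).eval m * ((Np ρ q d).eval m + 1) + 2) + 1 := by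
    have e1 := sz_le_length_mul HX (4 * (Np ρ q d).eval m * ((Np ρ q d).eval m + 1) + 1)
      (fun h hh => by
        have e2 := sz_listBool_le h
        have e3 : 4 * h.length ≤ 4 * (Np ρ q d).eval m * ((Np ρ q d).eval m + 1) := by
          rw [h9 h hh, ← mul_assoc]
          exact Nat.mul_le_mul_right _ (Nat.mul_le_mul_left _ h5)
        omega)
    rw [h7] at e1
    exact e1
  omega

theorem mem_rowsL {m k : ℕ} {r b : List Bool} (hr : r.length = k * m) (hb : b ∈ rowsL m k r) :
    b.length = m := by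
  obtain ⟨i, hi, rfl⟩ := List.mem_map.1 hb
  have hi' := List.mem_range.1 hi
  rw [List.length_take, List.length_drop, hr]
  have h3 : (i + 1) * m ≤ k * m := Nat.mul_le_mul_right _ hi'
  rw [Nat.add_mul, one_mul] at h3
  omega

/-- The length of the outputs of the repeated algorithm. -/
theorem ff_le {Q : List (List Bool) → Prop} {B : Set (List Bool)} {D : List Bool → List Bool}
    (hs : RSpec Q B D ρ q) (L : List (List Bool)) (hL : L ≠ []) (a m : ℕ)
    (hLa : ∀ y ∈ L, y.length ≤ a) (hm : ρ.eval (bits L).length ≤ m) (b : List Bool)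
    (hb : b.length = 24 * a * m) : (FF D ρ m a L b).length ≤ (Sp q).eval a := by
  unfold FF
  rw [sp_eval]
  refine bits_list_le (by rw [List.length_map, rowsL_length]) fun y hy => ?_
  obtain ⟨b', hb', rfl⟩ := List.mem_map.1 hy
  refine (hs a L hL hLa).1 _ ?_
  rw [List.length_take, mem_rowsL hb hb']
  exact min_eq_left hm

/-- **Completeness of the protocol.** -/
theorem vfy_complete (P : Par) {A B : Set (List Bool)} (hs : RSpec (Val P.g A) B P.D P.ρ P.q)
    (hd : ∀ n : ℕ, ∃ w : List Bool, w.length ≤ n ^ P.d + P.d ∧ n ≤ sens P.g w)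
    (hC : ∀ a, P.C0 ≤ a → 8 * (tp P.q).eval a * ((Np P.ρ P.q P.d).eval a + 1) ≤ 2 ^ a)
    (hC1 : P.C1 = P.y0.length + P.y1.length + P.C0)
    (hL1 : ∀ zl, (Sp P.q).eval (zl + P.C1) + 1 ≤ P.L1.eval zl)
    (hL2 : ∀ zl, (Np P.ρ P.q P.d).eval (zl + P.C1) ≤ P.L2.eval zl)
    (hQ : ∀ zl, (Q0 P.ρ P.q P.d).eval (zl + P.C1) ≤ P.Q.eval zl)
    (n : ℕ) (qs : List (List Bool)) (hn : n + 2 * (tp P.q).eval (n + P.C1) ≤ qs.length)
    (hlen : ∀ y ∈ qs, y.length ≤ n) (zl : ℕ) (hz : qs.length ≤ zl) (r : List Bool)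
    (hr : r.length = (P.T * P.cs).eval zl) :
    ∃ G : Gm, vfy P (P.y0 :: P.y1 :: qs) zl r G = true ∧ (bits G).length ≤
      P.Q.eval zl + (P.T.eval zl * (8 * (Np P.ρ P.q P.d).eval (zl + P.C1) + 4) + 2) := by
  classical
  have hcs : P.cs.eval zl = P.L1.eval zl + 2 * P.L2.eval zl := by simp [Par.cs]
  rw [Polynomial.eval_mul] at hr
  set a := n + P.C1 with ha
  set t := (tp P.q).eval a with ht
  obtain ⟨w, hw1, hw2⟩ := hd (2 * t)
  obtain ⟨e, he⟩ := exists_posn P.g w
  set J := (posn P.g w e).take t with hJ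
  have hJl : J.length = t := by
    rw [hJ, List.length_take]
    omega
  have hJm : ∀ x ∈ J, x ∈ posn P.g w e := fun x hx => List.mem_of_mem_take hx
  have hJe : ∀ x ∈ J, w.getD x false = e := fun x hx => (mem_posn (hJm x hx)).2.2
  have hJn : J.Nodup := (posn_nodup P.g w e).sublist (List.take_sublist _ _)
  have ht2 : 2 ≤ t := by rw [ht, tp_eval]; omega
  have hwl : w.length ≤ (Wp P.q P.d).eval a := by rw [wp_eval]; exact hw1
  have hw0 : w ≠ [] := by
    rintro rfl
    have h1 : sens P.g ([] : List Bool) = 0 := by simp [sens]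
    omega
  set its := cod w J with hits
  have hits0 : its ≠ [] := by
    intro h
    have h1 := congrArg List.length h
    rw [hits, cod_length, List.length_nil, List.length_eq_zero_iff] at h1
    exact hw0 h1
  have hya : ∀ y ∈ P.y0 :: P.y1 :: qs, y.length ≤ a := by
    intro y hy
    rcases List.mem_cons.1 hy with rfl | h
    · omega
    · rcases List.mem_cons.1 h with rfl | h
      · omega
      · have := hlen y h
        omega
  have hNa : (Np P.ρ P.q P.d).eval a = t + 24 * a * (mp P.ρ P.q P.d).eval a := np_eval a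
  set F := Fx P.D P.ρ P.q P.d (P.y0 :: P.y1 :: qs) its a with hF
  have hFl : ∀ x ∈ BL (t + 24 * a * (mp P.ρ P.q P.d).eval a), (F x).length ≤ (Sp P.q).eval a := by
    intro x hx
    rw [mem_BL] at hx
    have hLa := sel_le hya (pos its (x.take t))
    refine ff_le hs _ ?_ _ _ hLa ?_ _ ?_
    · intro h2
      have h3 := congrArg List.length h2
      rw [sel_len, pos_length, List.length_nil, List.length_eq_zero_iff] at h3
      exact hits0 h3
    · rw [mp_eval]
      refine eval_mono P.ρ ?_
      rw [zp_eval]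
      refine bits_list_le ?_ hLa
      rw [sel_len, pos_length, hits, cod_length]
      exact hwl
    · rw [List.length_drop, hx]
      omega
  obtain ⟨j, hj, k, l, hk, hl, h8, HV, HX, hV, hX, hVl, hXl, hall⟩ :=
    exists_commit t (24 * a * (mp P.ρ P.q P.d).eval a) ((Sp P.q).eval a)
      (by rw [ht, tp_eval]) F hFl
  rw [← hNa] at hk h8 hXl
  have hX' : HX.length = (Sp P.q).eval a + (Np P.ρ P.q P.d).eval a + 3 := by
    rw [hX, hNa]
    ring
  have haz : a ≤ zl + P.C1 := by omega
  have hSz := eval_mono (Sp P.q) haz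
  have hNz := eval_mono (Np P.ρ P.q P.d) haz
  have hL1z := hL1 zl
  have hL2z := hL2 zl
  have hNlk : (Np P.ρ P.q P.d).eval a ≤ l + k + a := by
    have h1 : 2 ^ (Np P.ρ P.q P.d).eval a ≤ 2 ^ (l + k + a) := by
      calc 2 ^ (Np P.ρ P.q P.d).eval a
          ≤ 8 * t * ((Np P.ρ P.q P.d).eval a + 1) * 2 ^ (l + k) := h8
        _ ≤ 2 ^ a * 2 ^ (l + k) := Nat.mul_le_mul_right _ (hC a (by omega))
        _ = 2 ^ (l + k + a) := by rw [← pow_add]; congr 1; ring
    exact (Nat.pow_le_pow_iff_right (by norm_num)).1 h1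
  set c : Cm := (List.replicate a true, (its, ((j * 2, e), ((List.replicate l true,
    List.replicate k true), (HV, HX))))) with hc
  have hcm := cm_size (ρ := P.ρ) (q := P.q) (d := P.d) (a := a) (i := j * 2) (l := l) (k := k)
    (m := a) (e := e) (its := its) (HV := HV) (HX := HX) (by rw [hits, cod_length]; exact hwl)
    (fun u hu => by
      have := (cod_mem hu).2
      omega) (by omega) hl hk hV hX' hVl hXl rfl
  have hcQ : (bits c).length ≤ P.Q.eval zl :=
    hcm.trans ((eval_mono _ haz).trans (hQ zl))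
  have hok : okc P.ρ P.q P.d P.C0 P.C1 P.Q (P.y0 :: P.y1 :: qs) zl c = true := by
    unfold okc
    rw [hc]
    simp only [Bool.and_eq_true, decide_eq_true_eq, Bool.not_eq_true', List.all_eq_true,
      Bool.or_eq_true, List.length_replicate]
    have hlq : (P.y0 :: P.y1 :: qs).length = qs.length + 2 := rfl
    refine ⟨⟨⟨by omega, haz⟩, ?_, by rw [hits, cod_length]; exact hwl⟩, ⟨fun u hu => ?_, hya⟩,
      ⟨by omega, hl⟩, ⟨hk, hNlk⟩, ⟨by omega, by omega⟩, hcQ⟩
    · cases h1 : its with
      | nil => exact absurd h1 hits0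
      | cons _ _ => rfl
    · cases h1 : u.1
      · exact Or.inl rfl
      · have h2 := (cod_mem hu).1 h1
        right
        omega
  have hch : ∀ τ < P.T.eval zl,
      ((r.drop (τ * P.cs.eval zl)).take (P.cs.eval zl)).length = P.cs.eval zl := by
    intro τ hτ
    rw [List.length_take, List.length_drop, hr]
    have h3 : (τ + 1) * P.cs.eval zl ≤ P.T.eval zl * P.cs.eval zl := Nat.mul_le_mul_right _ hτ
    rw [Nat.add_mul, one_mul] at h3
    omega
  have hex : ∀ τ : ℕ, ∃ xx : List Bool × List Bool,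
      (xx.1.length ≤ (Np P.ρ P.q P.d).eval a ∧ xx.2.length ≤ (Np P.ρ P.q P.d).eval a) ∧
      (τ < P.T.eval zl → tst P.g P.D P.ρ P.q P.d (P.y0 :: P.y1 :: qs) c (P.L1.eval zl)
        (P.L2.eval zl) ((r.drop (τ * P.cs.eval zl)).take (P.cs.eval zl)) xx = true) := by
    intro τ
    by_cases hτ : τ < P.T.eval zl
    · set ch := (r.drop (τ * P.cs.eval zl)).take (P.cs.eval zl) with hchd
      have hchl : ch.length = P.cs.eval zl := hch τ hτ
      obtain ⟨x, x', hx, hx', hFx, hxj, hxj', hα, hβ, hγ⟩ := hall (ch.take l)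
        ((ch.drop (P.L1.eval zl)).take k) ((ch.drop (P.L1.eval zl + P.L2.eval zl)).take k)
        (by rw [List.length_take]; omega) (by rw [List.length_take, List.length_drop]; omega)
        (by rw [List.length_take, List.length_drop]; omega)
      rw [← hNa] at hx hx' hβ hγ
      refine ⟨(x, x'), ⟨hx.le, hx'.le⟩, fun _ => ?_⟩
      unfold tst
      rw [hc]
      simp only [Bool.and_eq_true, decide_eq_true_eq, Bool.not_eq_true', decide_eq_false_iff_not,
        List.any_eq_true, List.length_replicate]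
      refine ⟨⟨⟨hx, hx'⟩, hFx, ?_⟩, hα, hβ, hγ⟩
      unfold sdx
      rw [hits, pos_cod, pos_cod, ← ht]
      have hg1 : (x.take t).getD j false = false := by
        rw [List.getD_eq_getElem _ _ (by rw [List.length_take]; omega), List.getElem_take,
          ← List.getD_eq_getElem _ false (by omega)]
        exact hxj
      have hg2 : (x'.take t).getD j false = true := by
        rw [List.getD_eq_getElem _ _ (by rw [List.length_take]; omega), List.getElem_take,
          ← List.getD_eq_getElem _ false (by omega)]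
        exact hxj'
      have hb1 : bt (x.take t) j = 0 := by unfold bt; rw [hg1]; rfl
      have hb2 : bt (x'.take t) j = 1 := by unfold bt; rw [hg2]; rfl
      have hjJ : j < J.length := by omega
      have e1 := map_self (w := w) (J := J) (M := 2) (s := bt (x.take t)) (k := j) (e := e) hJe hJn
        (fun k _ => bt_lt _ k) hjJ
      have e2 := map_other (w := w) (J := J) (M := 2) (s := bt (x.take t)) (t := bt (x'.take t))
        (k := j) (e := e) hJe (bt_lt _ j) (fun k _ => bt_lt _ k) (by rw [hb1, hb2]; norm_num)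
      rw [hb1, Nat.add_zero] at e1 e2
      rw [e1, e2]
      exact (mem_posn (hJm _ (List.getElem_mem hjJ))).2.1
    · exact ⟨([], []), ⟨Nat.zero_le _, Nat.zero_le _⟩, fun h => absurd h hτ⟩
  choose xf hxf1 hxf2 using hex
  refine ⟨(c, (List.range (P.T.eval zl)).map xf), ?_, ?_⟩
  · unfold vfy
    rw [Bool.and_eq_true, List.all_eq_true]
    refine ⟨hok, fun τ hτ => ?_⟩
    have hτ' := List.mem_range.1 hτ
    simp only
    have h1 : ((List.range (P.T.eval zl)).map xf).getD τ ([], []) = xf τ := by
      rw [List.getD_eq_getElem?_getD, List.getElem?_map, List.getElem?_range hτ']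
      rfl
    rw [h1]
    exact hxf2 τ hτ'
  · rw [bits_length, sz_pair]
    have h1 := sz_le_length_mul ((List.range (P.T.eval zl)).map xf)
      (8 * (Np P.ρ P.q P.d).eval (zl + P.C1) + 3) (fun u hu => by
        obtain ⟨τ, -, rfl⟩ := List.mem_map.1 hu
        have e1 := sz_listBool_le (xf τ).1
        have e2 := sz_listBool_le (xf τ).2
        have e3 : sz (xf τ) = sz (xf τ).1 + sz (xf τ).2 + 1 := sz_pair _ _
        have e4 := hxf1 τ
        omega)
    rw [List.length_map, List.length_range] at h1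
    have h2 : sz c ≤ P.Q.eval zl := hcQ
    have h3 : P.T.eval zl * (8 * (Np P.ρ P.q P.d).eval (zl + P.C1) + 3 + 1) =
      P.T.eval zl * (8 * (Np P.ρ P.q P.d).eval (zl + P.C1) + 4) := rfl
    omega

end Pool.Agent.TH684.AM
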