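import Pool.Agent.TH684.AM.Thm

/-!
# The converse: deciding one string with public coins
-/

set_option autoImplicit false

namespace Pool.Agent.TH684.AM

open Pool.Agent.NPC Pool.Agent.H251R5.PQ Pool.Agent.W901.AT Pool.Agent.H579R2.Spt
open Pool.Agent.TH684.EX Pool.Agent.TH684.CX Pool.Agent.TH684.DI
open Pool.Agent.W920.NL

/-- Guesses: the answer and certificates. -/
abbrev Gn : Type := Bool × List (List Bool)

/-- Decoding of a guess. -/
def dgn (w : List Bool) : Gn := (unbits Gn w).getD default

theorem dgn_poly : Poly dgn := NPC.Poly.optGetD poly_unbits (NPC.Poly.const _)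

theorem dgn_bits (g : Gn) : dgn (bits g) = g := by
  unfold dgn
  rw [unbits_bits, Option.getD_some]

/-- The check of the certificates for `x ∉ A`; `m` is the number of random bits of a block and `T`
the number of blocks. -/
def ckn (V : List Bool → List Bool) (ρ p : Polynomial ℕ) (x : List Bool) (m T : ℕ) (r : List Bool)
    (ws : List (List Bool)) : Bool :=
  (List.range T).all (fun i => decide ((ws.getD i []).length ≤ p.eval x.length) &&
    decide (V (pairBits (pairBits x ((r.drop (i * m)).take (ρ.eval x.length))) (ws.getD i [])) =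
      [true]))

/-- The algorithm. -/
def yn (V1 : List Bool → List Bool) (p1 : Polynomial ℕ) (V2 : List Bool → List Bool)
    (ρ p2 : Polynomial ℕ) (y : List Bool) : Option ℕ :=
  bif (dgn (unpair y).2).1 then
    (bif ver V1 p1 ((dl (unpair (unpair y).1).1).getD 0 []) ((dgn (unpair y).2).2.getD 0 []) then
      some 1 else none)
  else
    (bif ckn V2 ρ p2 ((dl (unpair (unpair y).1).1).getD 0 [])
        (ρ.eval (unpair (unpair y).1).1.length) (2 * (unpair (unpair y).1).1.length + 3)
        (unpair (unpair y).1).2 (dgn (unpair y).2).2 then some 0 else none)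

section

variable {α : Type} [TEnc α]

theorem ckn_poly {V : List Bool → List Bool} (hV : Poly V) (ρ p : Polynomial ℕ)
    {x r : α → List Bool} {m T : α → ℕ} {ws : α → List (List Bool)} (hx : Poly x) (hm : Poly m)
    (hT : UPoly T) (hr : Poly r) (hw : Poly ws) :
    Poly (fun a => ckn V ρ p (x a) (m a) (T a) (r a) (ws a)) := by
  unfold ckn
  refine NPC.Poly.all (l := fun a => List.range (T a)) (p := fun a i =>
    decide (((ws a).getD i []).length ≤ p.eval (x a).length) &&
    decide (V (pairBits (pairBits (x a) (((r a).drop (i * m a)).take (ρ.eval (x a).length)))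
      ((ws a).getD i [])) = [true])) hT.range ?_
  have e1 : Poly (fun t : α × ℕ => t.1) := NPC.Poly.fst NPC.Poly.id
  have e2 : Poly (fun t : α × ℕ => t.2) := NPC.Poly.snd NPC.Poly.id
  have e3 : Poly (fun t : α × ℕ => (ws t.1).getD t.2 []) :=
    NPC.Poly.getD (hw.comp e1) e2 (NPC.Poly.const [])
  have e4 := hx.comp e1
  exact NPC.Poly.and (NPC.Poly.decide_le (NPC.Poly.length e3) ((UPoly.length e4).eval p).toPoly)
    (NPC.Poly.decide_eq (hV.comp (H622R2.poly_pairBits (H622R2.poly_pairBits e4
      (take_poly' (drop_poly' (hr.comp e1) (NPC.Poly.mul e2 (hm.comp e1)))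
        ((UPoly.length e4).eval ρ).toPoly)) e3)) (NPC.Poly.const [true]))

end

theorem yn_poly {V1 V2 : List Bool → List Bool} (hV1 : PolyTime V1) (hV2 : Poly V2)
    (p1 ρ p2 : Polynomial ℕ) : Poly (yn V1 p1 V2 ρ p2) := by
  have e1 : Poly (fun z : List Bool => (unpair (unpair z).1).1) :=
    NPC.Poly.fst (poly_unpair.comp (NPC.Poly.fst poly_unpair))
  have e2 : Poly (fun z : List Bool => (unpair (unpair z).1).2) :=
    NPC.Poly.snd (poly_unpair.comp (NPC.Poly.fst poly_unpair))
  have e3 : Poly (fun z : List Bool => dgn (unpair z).2) :=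
    dgn_poly.comp (NPC.Poly.snd poly_unpair)
  have e4 : Poly (fun z : List Bool => (dl (unpair (unpair z).1).1).getD 0 []) :=
    NPC.Poly.getD (dl_poly.comp e1) (NPC.Poly.const 0) (NPC.Poly.const [])
  have e5 : Poly (fun z : List Bool => ver V1 p1 ((dl (unpair (unpair z).1).1).getD 0 [])
      ((dgn (unpair z).2).2.getD 0 [])) :=
    (ver_poly hV1 p1).comp (NPC.Poly.pair e4 (NPC.Poly.getD (NPC.Poly.snd e3) (NPC.Poly.const 0)
      (NPC.Poly.const [])))
  have eu := UPoly.length e1
  unfold yn
  exact NPC.Poly.cond (NPC.Poly.fst e3)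
    (NPC.Poly.cond e5 (NPC.Poly.const (some 1)) (NPC.Poly.const none))
    (NPC.Poly.cond (ckn_poly hV2 ρ p2 e4 (eu.eval ρ).toPoly
      (((UPoly.const 2).mul eu).add (UPoly.const 3)) e2 (NPC.Poly.snd e3))
      (NPC.Poly.const (some 0)) (NPC.Poly.const none))

/-- **If `A` is in `NP` and its complement is in `AM`, then a position which is not the only member
of `A` can be found with public coins.** -/
theorem amfeasible_notOnly {A : Set (List Bool)} (hA : InNP A) (hA' : InAM Aᶜ) :
    AMFeasible (NotOnly A) := by
  classical
  obtain ⟨V1, p1, hV1, hA1⟩ := hA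
  obtain ⟨V2, ρ, p2, hV2, hA2, hA3⟩ := hA'
  set pw : Polynomial ℕ := (Polynomial.C 4 * p1 + 2) + ((Polynomial.C 2 * Polynomial.X + 3) *
    (Polynomial.C 4 * p2 + 2)) + 6 with hpw
  have hpwe : ∀ n, pw.eval n = (4 * p1.eval n + 2) + ((2 * n + 3) * (4 * p2.eval n + 2)) + 6 :=
    fun n => by simp [hpw]
  refine ⟨yn V1 p1 V2 ρ p2, (Polynomial.C 2 * Polynomial.X + 3) * ρ, pw, 2, 2,
    polyTime_bits (yn_poly hV1 (PIso.poly_iff.2 hV2) p1 ρ p2), fun n qs hqs hlen => ?_⟩
  have hqe : ((Polynomial.C 2 * Polynomial.X + 3) * ρ).eval (bits qs).length =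
      (2 * (bits qs).length + 3) * ρ.eval (bits qs).length := by simp
  have hm : 2 ≤ qs.length := by omega
  have hm2 : qs.length = n ^ 2 + 2 := hqs
  set x := qs.getD 0 [] with hx
  have hxl : x.length ≤ (bits qs).length := by
    have hne : 0 < qs.length := by omega
    rw [hx, List.getD_eq_getElem _ _ hne]
    have e1 := sz_le_of_mem (List.getElem_mem hne)
    have e2 := length_lt_sz qs[0]
    have e3 := bits_length qs
    omega
  have hρ := eval_mono ρ hxl
  rw [hqe]
  constructor
  · intro r hr
    by_cases hxA : x ∈ A
    · obtain ⟨w, hw⟩ := (hA1 x).1 hxA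
      refine ⟨1, bits ((true, [w]) : Gn), ?_, ?_⟩
      · rw [bits_length, sz_pair, hpwe]
        have h1 := sz_le_length_mul [w] (4 * p1.eval (bits qs).length + 1) (fun v hv => by
          rw [List.mem_singleton] at hv
          subst hv
          have h2 := sz_listBool_le v
          have h3 := hw.1
          have h4 := eval_mono p1 hxl
          omega)
        have h2 := sz_bool_le true
        simp only [List.length_singleton, one_mul] at h1
        omega
      · unfold yn
        simp only [unpair_pairBits, dgn_bits, dl_bits, cond_true]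
        have h1 : ver V1 p1 (qs.getD 0 []) ([w].getD 0 []) = true := ver_iff.2 hw
        rw [h1, cond_true]
    · have h1 : ∀ i, ∃ w : List Bool, w.length ≤ p2.eval x.length ∧
          (i < 2 * (bits qs).length + 3 → V2 (pairBits (pairBits x
            ((r.drop (i * ρ.eval (bits qs).length)).take (ρ.eval x.length))) w) = [true]) := by
        intro i
        by_cases hi : i < 2 * (bits qs).length + 3
        · obtain ⟨w, hw1, hw2⟩ := hA2 x hxA ((r.drop (i * ρ.eval (bits qs).length)).take
            (ρ.eval x.length)) (by
              rw [List.length_take, List.length_drop, hr]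
              have h3 : (i + 1) * ρ.eval (bits qs).length ≤
                (2 * (bits qs).length + 3) * ρ.eval (bits qs).length := Nat.mul_le_mul_right _ hi
              rw [Nat.add_mul, one_mul] at h3
              omega)
          exact ⟨w, hw1, fun _ => hw2⟩
        · exact ⟨[], Nat.zero_le _, fun h => absurd h hi⟩
      choose w hw1 hw2 using h1
      refine ⟨0, bits ((false, (List.range (2 * (bits qs).length + 3)).map w) : Gn), ?_, ?_⟩
      · rw [bits_length, sz_pair, hpwe]
        have h1 := sz_le_length_mul ((List.range (2 * (bits qs).length + 3)).map w)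
          (4 * p2.eval (bits qs).length + 1) (fun v hv => by
            obtain ⟨i, _, rfl⟩ := List.mem_map.1 hv
            have h2 := sz_listBool_le (w i)
            have h3 := hw1 i
            have h4 := eval_mono p2 hxl
            omega)
        have h2 := sz_bool_le false
        rw [List.length_map, List.length_range] at h1
        have h3 : (2 * (bits qs).length + 3) * (4 * p2.eval (bits qs).length + 1 + 1) =
          (2 * (bits qs).length + 3) * (4 * p2.eval (bits qs).length + 2) := rfl
        omega
      · unfold yn
        simp only [unpair_pairBits, dgn_bits, dl_bits, cond_false]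
        have h1 : ckn V2 ρ p2 (qs.getD 0 []) (ρ.eval (bits qs).length)
            (2 * (bits qs).length + 3) r ((List.range (2 * (bits qs).length + 3)).map w) =
              true := by
          unfold ckn
          rw [List.all_eq_true]
          intro i hi
          have hi' := List.mem_range.1 hi
          have h3 : ((List.range (2 * (bits qs).length + 3)).map w).getD i [] = w i := by
            rw [List.getD_eq_getElem?_getD, List.getElem?_map, List.getElem?_range hi']
            rfl
          rw [h3, Bool.and_eq_true, decide_eq_true_eq, decide_eq_true_eq]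
          exact ⟨hw1 i, hw2 i hi'⟩
        rw [h1, cond_true]
  · by_cases hxA : x ∈ A
    · have h2 := blocks_le (X := {r : List Bool | r.length = ρ.eval x.length ∧
        ∃ w : List Bool, w.length ≤ p2.eval x.length ∧
          V2 (pairBits (pairBits x r) w) = [true]}) (n := ρ.eval x.length)
        (B := ρ.eval (bits qs).length) (fun r hr => hr.1) hρ (hA3 x fun h => h hxA)
        (2 * (bits qs).length + 3) (2 * (bits qs).length + 3) le_rfl
      refine le_trans (Nat.mul_le_mul_left _ (Set.ncard_le_ncard ?_ ?_)) h2
      · rintro r ⟨hr, l, ⟨w, -, hw⟩, hl⟩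
        refine ⟨hr, fun i hi => ?_⟩
        unfold yn at hw
        simp only [unpair_pairBits, dl_bits] at hw
        cases hg : (dgn w).1
        · rw [hg, cond_false] at hw
          cases hc : ckn V2 ρ p2 (qs.getD 0 []) (ρ.eval (bits qs).length)
            (2 * (bits qs).length + 3) r (dgn w).2
          · rw [hc, cond_false] at hw
            exact absurd hw (by simp)
          · unfold ckn at hc
            rw [List.all_eq_true] at hc
            have h3 := hc i (List.mem_range.2 hi)
            rw [Bool.and_eq_true, decide_eq_true_eq, decide_eq_true_eq] at h3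
            refine ⟨?_, _, h3.1, h3.2⟩
            rw [List.length_take, List.length_drop, hr]
            have h3 : (i + 1) * ρ.eval (bits qs).length ≤
                (2 * (bits qs).length + 3) * ρ.eval (bits qs).length := Nat.mul_le_mul_right _ hi
            rw [Nat.add_mul, one_mul] at h3
            omega
        · rw [hg, cond_true] at hw
          exfalso
          cases hv : ver V1 p1 (qs.getD 0 []) ((dgn w).2.getD 0 [])
          · rw [hv, cond_false] at hw
            exact absurd hw (by simp)
          · rw [hv, cond_true] at hw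
            refine hl ⟨?_, ?_⟩
            · rw [← Option.some.inj hw]
              omega
            · rw [← Option.some.inj hw]
              refine ⟨by omega, fun h3 => ?_⟩
              have h4 := (h3 0 (by omega)).1 hxA
              exact absurd h4 (by norm_num)
      · exact (str_finite _).subset fun r hr => hr.1
    · have h2 : {r : List Bool | r.length = (2 * (bits qs).length + 3) * ρ.eval (bits qs).length ∧
          ∃ l, AOut (yn V1 p1 V2 ρ p2) pw (bits qs) r l ∧ ¬ (l ≤ n ^ 2 + 2 ∧ NotOnly A qs l)} =
          ∅ := by
        ext r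
        simp only [Set.mem_ofPred_eq, Set.mem_empty_iff_false, iff_false]
        rintro ⟨-, l, ⟨w, -, hw⟩, hl⟩
        unfold yn at hw
        simp only [unpair_pairBits, dl_bits] at hw
        cases hg : (dgn w).1
        · rw [hg, cond_false] at hw
          cases hc : ckn V2 ρ p2 (qs.getD 0 []) (ρ.eval (bits qs).length)
            (2 * (bits qs).length + 3) r (dgn w).2
          · rw [hc, cond_false] at hw
            exact absurd hw (by simp)
          · rw [hc, cond_true] at hw
            refine hl ⟨?_, ?_⟩
            · rw [← Option.some.inj hw]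
              omega
            · rw [← Option.some.inj hw]
              exact ⟨by omega, fun h3 => hxA ((h3 0 (by omega)).2 rfl)⟩
        · rw [hg, cond_true] at hw
          cases hv : ver V1 p1 (qs.getD 0 []) ((dgn w).2.getD 0 [])
          · rw [hv, cond_false] at hw
            exact absurd hw (by simp)
          · exact hxA ((hA1 x).2 ⟨_, ver_iff.1 hv⟩)
      rw [h2]
      simp

theorem AMFeasible.mono {T T' : List (List Bool) → ℕ → Prop} (h : AMFeasible T)
    (hT : ∀ qs l, T qs l → T' qs l) : AMFeasible T' := by
  obtain ⟨Y, ρ, p, b, c, hY, h⟩ := h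
  refine ⟨Y, ρ, p, b, c, hY, fun n qs h1 h2 => ⟨(h n qs h1 h2).1, ?_⟩⟩
  refine le_trans (Nat.mul_le_mul_left _ (Set.ncard_le_ncard ?_ ?_)) (h n qs h1 h2).2
  · rintro r ⟨hr, l, hl1, hl2⟩
    exact ⟨hr, l, hl1, fun h3 => hl2 ⟨h3.1, hT _ _ h3.2⟩⟩
  · exact (str_finite _).subset fun r hr => hr.1

/-- **The law of exclusion with public coins for `NP`-hard sets.** -/
theorem am_tfae : List.TFAE
    [∀ S : Set (List Bool), InNP S → InAM Sᶜ,
      ∃ A L : Set (List Bool), NPHard A ∧ InP L ∧ AMFeasible (Exclude L A),
      ∃ A : Set (List Bool), NPHard A ∧ AMFeasible (NotOnly A),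
      ∀ A : Set (List Bool), InNP A → AMFeasible (NotOnly A)] := by
  tfae_have 1 → 4 := fun h A hA => amfeasible_notOnly hA (h A hA)
  tfae_have 4 → 3 := fun h => by
    obtain ⟨h1, h2⟩ := Pool.Agent.NPC.H545KS.sat_complete
    exact ⟨_, h2, h _ h1⟩
  tfae_have 3 → 2 := fun ⟨A, hA, h⟩ => ⟨A, Lunit, hA, lunit_inP, h.mono exclude_of_notOnly⟩
  tfae_have 2 → 1 := fun ⟨A, L, hA, hL, h⟩ S hS => inAM_of_amfeasible hA hL h hS
  tfae_finish

end Pool.Agent.TH684.AM
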