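import Pool.Agent.TH684.AM.Hash

/-!
# Outputs with many preimages on both sides
-/

set_option autoImplicit false

namespace Pool.Agent.TH684.AM

open Finset Pool.Agent.H579R2.Spt
open Pool.Agent.W901.RL (card_BL_nat)

section

variable {α V : Type} [DecidableEq V]

/-- The number of preimages on one side. -/
def nf (X : Finset α) (bit : α → ℕ → Bool) (F : α → V) (v : V) (j : ℕ) (b : Bool) : ℕ :=
  (X.filter (fun x => F x = v ∧ bit x j = b)).card

theorem fibre_le (X : Finset α) (bit : α → ℕ → Bool) (t : ℕ) (F : α → V) (C : ℕ)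
    (hC : ∀ c : ℕ → Bool, (X.filter (fun x => ∀ j < t, bit x j = c j)).card ≤ C) (v : V) :
    (X.filter (fun x => F x = v)).card ≤
      ∑ j ∈ range t, min (nf X bit F v j false) (nf X bit F v j true) + C := by
  classical
  set c : ℕ → Bool := fun j => decide (nf X bit F v j false < nf X bit F v j true) with hc
  have h1 : X.filter (fun x => F x = v) ⊆ X.filter (fun x => ∀ j < t, bit x j = c j) ∪
      (range t).biUnion (fun j => X.filter (fun x => F x = v ∧ bit x j = !(c j))) := by
    intro x hx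
    obtain ⟨hx1, hx2⟩ := Finset.mem_filter.1 hx
    rw [Finset.mem_union]
    by_cases h : ∀ j < t, bit x j = c j
    · exact Or.inl (Finset.mem_filter.2 ⟨hx1, h⟩)
    · push Not at h
      obtain ⟨j, hj, hne⟩ := h
      refine Or.inr (Finset.mem_biUnion.2 ⟨j, Finset.mem_range.2 hj, Finset.mem_filter.2
        ⟨hx1, hx2, ?_⟩⟩)
      revert hne
      generalize bit x j = a
      generalize c j = b
      cases a <;> cases b <;> simp
  have h2 : ∀ j ∈ range t, (X.filter (fun x => F x = v ∧ bit x j = !(c j))).card =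
      min (nf X bit F v j false) (nf X bit F v j true) := by
    intro j _
    by_cases h : nf X bit F v j false < nf X bit F v j true
    · have h3 : c j = true := by rw [hc]; exact decide_eq_true h
      rw [h3, min_eq_left h.le]
      rfl
    · have h3 : c j = false := by rw [hc]; exact decide_eq_false h
      rw [h3, min_eq_right (not_lt.1 h)]
      rfl
  calc (X.filter (fun x => F x = v)).card ≤ _ := Finset.card_le_card h1
    _ ≤ (X.filter (fun x => ∀ j < t, bit x j = c j)).card +
        ((range t).biUnion (fun j => X.filter (fun x => F x = v ∧ bit x j = !(c j)))).card :=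
        Finset.card_union_le _ _
    _ ≤ C + ∑ j ∈ range t, (X.filter (fun x => F x = v ∧ bit x j = !(c j))).card :=
        Nat.add_le_add (hC c) Finset.card_biUnion_le
    _ = _ := by rw [Finset.sum_congr rfl h2, add_comm]

theorem count_min (X : Finset α) (bit : α → ℕ → Bool) (t : ℕ) (F : α → V) (W : Finset V)
    (hF : ∀ x ∈ X, F x ∈ W) (C : ℕ)
    (hC : ∀ c : ℕ → Bool, (X.filter (fun x => ∀ j < t, bit x j = c j)).card ≤ C) :
    X.card ≤ ∑ j ∈ range t, ∑ v ∈ W, min (nf X bit F v j false) (nf X bit F v j true) +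
      W.card * C := by
  classical
  have h1 : X.card = ∑ v ∈ W, (X.filter (fun x => F x = v)).card :=
    Finset.card_eq_sum_card_fiberwise hF
  rw [h1, Finset.sum_comm, ← smul_eq_mul, ← Finset.sum_const, ← Finset.sum_add_distrib]
  exact Finset.sum_le_sum fun v _ => fibre_le X bit t F C hC v

/-- A popular level. -/
theorem exists_level (W : Finset V) (μ : V → ℕ) (N : ℕ) (hμ : ∀ v ∈ W, μ v < 2 ^ N)
    (hpos : 0 < ∑ v ∈ W, μ v) : ∃ k < N, ∃ l, 2 ^ l ≤ (W.filter (fun v => 2 ^ k ≤ μ v)).card ∧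
      ∑ v ∈ W, μ v ≤ N * 2 ^ (l + k + 2) := by
  classical
  have h1 : ∑ v ∈ W, μ v ≤
      ∑ k ∈ range N, (W.filter (fun v => 2 ^ k ≤ μ v)).card * 2 ^ (k + 1) := by
    have h2 : ∀ v ∈ W, μ v ≤ ∑ k ∈ range N, (if 2 ^ k ≤ μ v then 2 ^ (k + 1) else 0) := by
      intro v hv
      rcases Nat.eq_zero_or_pos (μ v) with h0 | h0
      · rw [h0]; exact Nat.zero_le _
      · have h3 : 2 ^ Nat.log 2 (μ v) ≤ μ v := Nat.pow_log_le_self 2 h0.ne'
        have h4 : μ v < 2 ^ (Nat.log 2 (μ v) + 1) := Nat.lt_pow_succ_log_self (by norm_num) _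
        have h5 : Nat.log 2 (μ v) < N := by
          by_contra h
          have h6 : 2 ^ N ≤ 2 ^ Nat.log 2 (μ v) := Nat.pow_le_pow_right (by norm_num) (by omega)
          have := hμ v hv
          omega
        refine h4.le.trans ?_
        have h6 := Finset.single_le_sum (f := fun k => if 2 ^ k ≤ μ v then 2 ^ (k + 1) else 0)
          (fun _ _ => Nat.zero_le _) (Finset.mem_range.2 h5)
        rwa [if_pos h3] at h6
    refine (Finset.sum_le_sum h2).trans ?_
    rw [Finset.sum_comm]
    refine Finset.sum_le_sum fun k _ => ?_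
    rw [← Finset.sum_filter, Finset.sum_const, smul_eq_mul]
  obtain ⟨k, hk, h2⟩ : ∃ k ∈ range N,
      ∑ v ∈ W, μ v ≤ N * ((W.filter (fun v => 2 ^ k ≤ μ v)).card * 2 ^ (k + 1)) := by
    by_contra hcon
    push Not at hcon
    have hN : (range N).Nonempty := by
      rw [Finset.nonempty_range_iff]
      rintro rfl
      simp only [range_zero, sum_empty] at h1
      omega
    have h3 := Finset.sum_lt_sum_of_nonempty hN hcon
    rw [← Finset.mul_sum, Finset.sum_const, Finset.card_range, smul_eq_mul] at h3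
    exact absurd (Nat.mul_le_mul_left N h1) (not_le.2 h3)
  refine ⟨k, Finset.mem_range.1 hk, Nat.log 2 (W.filter (fun v => 2 ^ k ≤ μ v)).card, ?_, ?_⟩
  · refine Nat.pow_log_le_self 2 ?_
    intro h0
    rw [h0, zero_mul, mul_zero] at h2
    omega
  · refine h2.trans (Nat.mul_le_mul_left _ ?_)
    have h3 := (Nat.lt_pow_succ_log_self (b := 2) (by norm_num)
      (W.filter (fun v => 2 ^ k ≤ μ v)).card).le
    calc (W.filter (fun v => 2 ^ k ≤ μ v)).card * 2 ^ (k + 1) ≤
        2 ^ (Nat.log 2 (W.filter (fun v => 2 ^ k ≤ μ v)).card + 1) * 2 ^ (k + 1) :=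
          Nat.mul_le_mul_right _ h3
      _ = _ := by rw [← pow_add]; congr 1; ring

end

/-- The strings of length at most `S`. -/
noncomputable def BLe (S : ℕ) : Finset (List Bool) := (range (S + 1)).biUnion BL

theorem mem_BLe {S : ℕ} {v : List Bool} : v ∈ BLe S ↔ v.length ≤ S := by
  unfold BLe
  simp only [Finset.mem_biUnion, Finset.mem_range, mem_BL]
  constructor
  · rintro ⟨a, ha, h⟩
    omega
  · intro h
    exact ⟨v.length, by omega, rfl⟩

theorem card_BLe (S : ℕ) : (BLe S).card ≤ 2 ^ (S + 1) := by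
  refine Finset.card_biUnion_le.trans ?_
  rw [Finset.sum_congr rfl fun a _ => card_BL_nat a]
  exact (Nat.geomSum_lt le_rfl (fun k hk => Finset.mem_range.1 hk)).le

theorem prefix_card (t R : ℕ) (c : ℕ → Bool) :
    ((BL (t + R)).filter (fun x => ∀ j < t, x.getD j false = c j)).card ≤ 2 ^ R := by
  classical
  rw [← card_BL_nat R]
  refine Finset.card_le_card_of_injOn (fun x => x.drop t) ?_ ?_
  · intro x hx
    have h1 := (Finset.mem_filter.1 (Finset.mem_coe.1 hx)).1
    rw [mem_BL] at h1
    rw [Finset.mem_coe, mem_BL, List.length_drop]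
    omega
  · intro x hx y hy hxy
    obtain ⟨hx1, hx2⟩ := Finset.mem_filter.1 (Finset.mem_coe.1 hx)
    obtain ⟨hy1, hy2⟩ := Finset.mem_filter.1 (Finset.mem_coe.1 hy)
    rw [mem_BL] at hx1 hy1
    have h1 : x.take t = y.take t := by
      refine List.ext_getElem (by simp [hx1, hy1]) fun j h1 h2 => ?_
      have hj : j < t := by
        rw [List.length_take] at h1
        omega
      rw [List.getElem_take, List.getElem_take]
      have h3 := hx2 j hj
      have h4 := hy2 j hj
      rw [List.getD_eq_getElem _ _ (by omega)] at h3 h4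
      rw [h3, h4]
    rw [← List.take_append_drop t x, ← List.take_append_drop t y, h1]
    exact congrArg _ hxy

/-- **A position and two levels.** -/
theorem exists_jkl (t R S : ℕ) (ht : S + 2 ≤ t) (F : List Bool → List Bool)
    (hF : ∀ x ∈ BL (t + R), (F x).length ≤ S) :
    ∃ j < t, ∃ k l : ℕ, k ≤ t + R ∧ l ≤ S + 1 ∧ ∃ W : Finset (List Bool), 2 ^ l ≤ W.card ∧
      (∀ v ∈ W, v.length ≤ S) ∧
      (∀ v ∈ W, ∀ b : Bool,
        2 ^ k ≤ ((BL (t + R)).filter (fun x => F x = v ∧ x.getD j false = b)).card) ∧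
      2 ^ (t + R) ≤ 8 * t * (t + R + 1) * 2 ^ (l + k) := by
  classical
  set bit : List Bool → ℕ → Bool := fun x j => x.getD j false with hbit
  have h1 := count_min (BL (t + R)) bit t F (BLe S) (fun x hx => mem_BLe.2 (hF x hx)) (2 ^ R)
    (fun c => prefix_card t R c)
  have h2 : (BLe S).card * 2 ^ R ≤ 2 ^ (t + R - 1) := by
    calc (BLe S).card * 2 ^ R ≤ 2 ^ (S + 1) * 2 ^ R := Nat.mul_le_mul_right _ (card_BLe S)
      _ = 2 ^ (S + 1 + R) := by rw [← pow_add]
      _ ≤ _ := Nat.pow_le_pow_right (by norm_num) (by omega)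
  have h3 : 2 ^ (t + R) = 2 * 2 ^ (t + R - 1) := by
    rw [← pow_succ']
    congr 1
    omega
  rw [card_BL_nat] at h1
  have h4 : 2 ^ (t + R - 1) ≤ ∑ j ∈ range t, ∑ v ∈ BLe S,
      min (nf (BL (t + R)) bit F v j false) (nf (BL (t + R)) bit F v j true) := by omega
  obtain ⟨j, hj, h5⟩ : ∃ j ∈ range t, 2 ^ (t + R - 1) ≤ t * ∑ v ∈ BLe S,
      min (nf (BL (t + R)) bit F v j false) (nf (BL (t + R)) bit F v j true) := by
    by_contra hcon
    push Not at hcon
    have h6 := Finset.sum_lt_sum_of_nonempty (Finset.nonempty_range_iff.2 (by omega)) hcon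
    rw [← Finset.mul_sum, Finset.sum_const, Finset.card_range, smul_eq_mul] at h6
    exact absurd (Nat.mul_le_mul_left t h4) (not_le.2 h6)
  set μ : List Bool → ℕ := fun v =>
    min (nf (BL (t + R)) bit F v j false) (nf (BL (t + R)) bit F v j true) with hμ
  have hμ1 : ∀ v ∈ BLe S, μ v < 2 ^ (t + R + 1) := by
    intro v _
    refine lt_of_le_of_lt ((min_le_left _ _).trans (Finset.card_filter_le _ _)) ?_
    rw [card_BL_nat, pow_succ]
    have : 0 < 2 ^ (t + R) := by positivity
    omega
  have hpos : 0 < ∑ v ∈ BLe S, μ v := by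
    by_contra h0
    have h6 : ∑ v ∈ BLe S, μ v = 0 := by omega
    rw [h6, mul_zero] at h5
    have : 0 < 2 ^ (t + R - 1) := by positivity
    omega
  obtain ⟨k, hk, l, hl, h6⟩ := exists_level (BLe S) μ (t + R + 1) hμ1 hpos
  refine ⟨j, Finset.mem_range.1 hj, k, l, by omega, ?_,
    (BLe S).filter (fun v => 2 ^ k ≤ μ v), hl,
    fun v hv => mem_BLe.1 (Finset.mem_filter.1 hv).1, fun v hv b => ?_, ?_⟩
  · have h7 : 2 ^ l ≤ 2 ^ (S + 1) :=
      hl.trans ((Finset.card_filter_le _ _).trans (card_BLe S))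
    exact (Nat.pow_le_pow_iff_right (by norm_num)).1 h7
  · have h7 := (Finset.mem_filter.1 hv).2
    cases b
    · exact h7.trans (min_le_left _ _)
    · exact h7.trans (min_le_right _ _)
  · calc 2 ^ (t + R) = 2 * 2 ^ (t + R - 1) := h3
      _ ≤ 2 * (t * ((t + R + 1) * 2 ^ (l + k + 2))) :=
        Nat.mul_le_mul_left _ (h5.trans (Nat.mul_le_mul_left _ h6))
      _ = 8 * t * (t + R + 1) * 2 ^ (l + k) := by rw [pow_add]; ring

end Pool.Agent.TH684.AM
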