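import Pool.Agent.TH684.EX.Defs
import Pool.Agent.W920.NL.DefsAM

/-!
# Exclusion with public coins: definitions

Polynomial time is Mathlib's `Turing.TM2ComputableInPolyTime` (through `Pool.Agent.NPC.PolyTime`);
`InAM` is the notion of `Pool.Agent.W920.NL.DefsAM`.
-/

set_option autoImplicit false

namespace Pool.Agent.TH684.AM

open Pool.Agent.NPC Pool.Agent.H251R5.PQ

/-- The number `l` is an output on the input `z` with the random bits `r`: a string `w` of length at
most `p |z|` is received, and the output is `l` if `Y ((z, r), w) = some l`; there is none if
`Y ((z, r), w) = none`. -/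
def AOut (Y : List Bool → Option ℕ) (p : Polynomial ℕ) (z r : List Bool) (l : ℕ) : Prop :=
  ∃ w : List Bool, w.length ≤ p.eval z.length ∧ Y (pairBits (pairBits z r) w) = some l

/-- A polynomial-time algorithm which sends `ρ |z|` random bits to a prover and computes an output
from the reply solves the task `T` (which output numbers are right for which lists of strings) for
lists of polynomially many strings: for every `n` and every list of `n ^ b + b` strings of length at
most `n`, for all random bits some reply gives an output, and with probability at least
`1 - 2 ^ (-2 k - 3)`, where `k` is the length of the code of the list, all replies give outputs which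
are right and at most `n ^ c + c`. -/
def AMFeasible (T : List (List Bool) → ℕ → Prop) : Prop :=
  ∃ (Y : List Bool → Option ℕ) (ρ p : Polynomial ℕ) (b c : ℕ), PolyTime (fun z => bits (Y z)) ∧
    ∀ (n : ℕ) (qs : List (List Bool)), qs.length = n ^ b + b → (∀ y ∈ qs, y.length ≤ n) →
      (∀ r : List Bool, r.length = ρ.eval (bits qs).length → ∃ l, AOut Y p (bits qs) r l) ∧
      2 ^ (2 * (bits qs).length + 3) * {r : List Bool | r.length = ρ.eval (bits qs).length ∧
        ∃ l, AOut Y p (bits qs) r l ∧ ¬ (l ≤ n ^ c + c ∧ T qs l)}.ncard ≤
          2 ^ ρ.eval (bits qs).length

end Pool.Agent.TH684.AM
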