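import Pool.Agent.TH684.DI.SensDefs

/-!
# Distillation with bounded error: definitions

Polynomial time is Mathlib's `Turing.TM2ComputableInPolyTime` (through `Pool.Agent.NPC.PolyTime`).
-/

set_option autoImplicit false

namespace Pool.Agent.TH684.AM

open Pool.Agent.NPC Pool.Agent.H251R5.PQ

/-- `RDistills Q B`: a probabilistic polynomial-time algorithm `D` (with `ρ k` random bits, `k` the
length of the code of the list) maps every nonempty list of strings to one string, whose length is at
most polynomial in the length of the longest string of the list, no matter how long the list is, and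
which is in `B` if and only if the list has the property `Q`, except for an error of probability at
most `1 / 3` for every list. -/
def RDistills (Q : List (List Bool) → Prop) (B : Set (List Bool)) : Prop :=
  ∃ (D : List Bool → List Bool) (ρ q : Polynomial ℕ), PolyTime D ∧
    ∀ (n : ℕ) (qs : List (List Bool)), qs ≠ [] → (∀ y ∈ qs, y.length ≤ n) →
      (∀ r : List Bool, r.length = ρ.eval (bits qs).length →
        (D (pairBits (bits qs) r)).length ≤ q.eval n) ∧
      3 * {r : List Bool | r.length = ρ.eval (bits qs).length ∧
        ¬ (D (pairBits (bits qs) r) ∈ B ↔ Q qs)}.ncard ≤ 2 ^ ρ.eval (bits qs).length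

end Pool.Agent.TH684.AM
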