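import Pool.Agent.H579R2.Spt.VV2
import Pool.Agent.W901.RL.Search

/-!
# Hashing by random linear maps
-/

set_option autoImplicit false

namespace Pool.Agent.TH684.AM

open Finset Pool.Agent.H579R2.Spt
open Pool.Agent.W901.RL (card_BL_nat)

/-- The hash value of the string `c`: `l` bits, with the matrix `r`. -/
def hsh (m l : ℕ) (r c : List Bool) : List Bool := (rowsL m l r).map (fun a => ip a (cd c))

theorem hsh_length (m l : ℕ) (r c : List Bool) : (hsh m l r c).length = l := by
  simp [hsh, rowsL]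

theorem hsh_succ (m l : ℕ) (r c : List Bool) :
    hsh m (l + 1) r c = ip (r.take m) (cd c) :: hsh m l (r.drop m) c := by
  unfold hsh
  rw [rowsL_succ, List.map_cons]

theorem two_ind_eq (a b : Bool) : 2 * ind (a == b) = 1 + ch a * ch b := by
  cases a <;> cases b <;> simp [ind, ch]

theorem half_count' (m : ℕ) (c : List Bool) (y : Bool) (hcl : c.length + 1 ≤ m) :
    2 * ∑ a ∈ BL m, ind (ip a (cd c) == y) = 2 ^ m := by
  rw [Finset.mul_sum, Finset.sum_congr rfl (fun a _ => two_ind_eq (ip a (cd c)) y),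
    Finset.sum_add_distrib, ← Finset.sum_mul,
    char_sum m (cd c) (cd_nrm c) (cd_ne c) (by rw [cd_length]; exact hcl)]
  simp [card_BL]

theorem quarter_count' (m : ℕ) (c d : List Bool) (y : Bool) (hne : c ≠ d)
    (hcl : c.length + 1 ≤ m) (hdl : d.length + 1 ≤ m) :
    4 * ∑ a ∈ BL m, ind (ip a (cd c) == y) * ind (ip a (cd d) == y) = 2 ^ m := by
  have h1 : ∀ a, 4 * (ind (ip a (cd c) == y) * ind (ip a (cd d) == y)) =
      1 + ch (ip a (cd c)) * ch y + ch (ip a (cd d)) * ch y +
        ch (ip a (cd c)) * ch (ip a (cd d)) := by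
    intro a
    have h2 : ch y * ch y = 1 := by cases y <;> simp [ch]
    calc 4 * (ind (ip a (cd c) == y) * ind (ip a (cd d) == y)) =
          (2 * ind (ip a (cd c) == y)) * (2 * ind (ip a (cd d) == y)) := by ring
      _ = 1 + ch (ip a (cd c)) * ch y + ch (ip a (cd d)) * ch y +
        ch (ip a (cd c)) * ch (ip a (cd d)) * (ch y * ch y) := by
          rw [two_ind_eq, two_ind_eq]; ring
      _ = _ := by rw [h2, mul_one]
  have hc2 : (cd c).length ≤ m := by rw [cd_length]; exact hcl
  have hd2 : (cd d).length ≤ m := by rw [cd_length]; exact hdl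
  rw [Finset.mul_sum, Finset.sum_congr rfl (fun a _ => h1 a), Finset.sum_add_distrib,
    Finset.sum_add_distrib, Finset.sum_add_distrib, ← Finset.sum_mul, ← Finset.sum_mul,
    char_sum m _ (cd_nrm c) (cd_ne c) hc2, char_sum m _ (cd_nrm d) (cd_ne d) hd2,
    char_orth m _ _ (cd_nrm c) (cd_nrm d) (fun h => hne (cd_inj h)) hc2 hd2]
  simp [card_BL]

theorem ind_cons (a b : Bool) (u v : List Bool) :
    ind (decide (a :: u = b :: v)) = ind (a == b) * ind (decide (u = v)) := by
  by_cases h1 : a = b <;> by_cases h2 : u = v <;> simp [h1, h2, ind]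

theorem hsh_count (m : ℕ) (c : List Bool) (hcl : c.length + 1 ≤ m) :
    ∀ (l : ℕ) (y : List Bool), y.length = l →
      2 ^ l * ∑ r ∈ BL (l * m), ind (decide (hsh m l r c = y)) = 2 ^ (l * m) := by
  intro l
  induction l with
  | zero =>
    intro y hy
    rw [List.length_eq_zero_iff.1 hy]
    simp [hsh, rowsL, ind, card_BL]
  | succ l ih =>
    intro y hy
    cases y with
    | nil => simp at hy
    | cons y0 y =>
      have hy' : y.length = l := by simpa using hy
      have e : (l + 1) * m = m + l * m := by ring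
      rw [e]
      have h1 : ∀ r ∈ BL (m + l * m), ind (decide (hsh m (l + 1) r c = y0 :: y)) =
          ind (ip (r.take m) (cd c) == y0) * ind (decide (hsh m l (r.drop m) c = y)) := by
        intro r _
        rw [hsh_succ, ind_cons]
      rw [Finset.sum_congr rfl h1, sum_BL_add m (l * m) (fun a => ind (ip a (cd c) == y0))
        (fun a => ind (decide (hsh m l a c = y))), pow_succ, pow_add, ← ih y hy',
        ← half_count' m c y0 hcl]
      ring

theorem hsh_count2 (m : ℕ) (c d : List Bool) (hne : c ≠ d) (hcl : c.length + 1 ≤ m)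
    (hdl : d.length + 1 ≤ m) : ∀ (l : ℕ) (y : List Bool), y.length = l →
      4 ^ l * ∑ r ∈ BL (l * m), ind (decide (hsh m l r c = y)) * ind (decide (hsh m l r d = y)) =
        2 ^ (l * m) := by
  intro l
  induction l with
  | zero =>
    intro y hy
    rw [List.length_eq_zero_iff.1 hy]
    simp [hsh, rowsL, ind, card_BL]
  | succ l ih =>
    intro y hy
    cases y with
    | nil => simp at hy
    | cons y0 y =>
      have hy' : y.length = l := by simpa using hy
      have e : (l + 1) * m = m + l * m := by ring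
      rw [e]
      have h1 : ∀ r ∈ BL (m + l * m), ind (decide (hsh m (l + 1) r c = y0 :: y)) *
          ind (decide (hsh m (l + 1) r d = y0 :: y)) =
          (ind (ip (r.take m) (cd c) == y0) * ind (ip (r.take m) (cd d) == y0)) *
            (ind (decide (hsh m l (r.drop m) c = y)) *
              ind (decide (hsh m l (r.drop m) d = y))) := by
        intro r _
        rw [hsh_succ, hsh_succ, ind_cons, ind_cons]
        ring
      rw [Finset.sum_congr rfl h1, sum_BL_add m (l * m)
        (fun a => ind (ip a (cd c) == y0) * ind (ip a (cd d) == y0))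
        (fun a => ind (decide (hsh m l a c = y)) * ind (decide (hsh m l a d = y))), pow_succ,
        pow_add, ← ih y hy', ← quarter_count' m c d y0 hne hcl hdl]
      ring

/-- **Half of the matrices hit a given value.** -/
theorem hit_half (m l : ℕ) (S : Finset (List Bool)) (hS : ∀ c ∈ S, c.length + 1 ≤ m)
    (hl : 2 ^ l ≤ S.card) (y : List Bool) (hy : y.length = l) :
    2 ^ (l * m) ≤ 2 * ((BL (l * m)).filter (fun r => ∃ c ∈ S, hsh m l r c = y)).card := by
  classical
  obtain ⟨S', hS', hc⟩ := Finset.exists_subset_card_eq hl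
  have h1 : ((BL (l * m)).filter (fun r => ∃ c ∈ S', hsh m l r c = y)).card ≤
      ((BL (l * m)).filter (fun r => ∃ c ∈ S, hsh m l r c = y)).card := by
    refine Finset.card_le_card fun r hr => ?_
    obtain ⟨h2, c, hc, h3⟩ := Finset.mem_filter.1 hr
    exact Finset.mem_filter.2 ⟨h2, c, hS' hc, h3⟩
  refine le_trans ?_ (Nat.mul_le_mul_left 2 h1)
  set N : List Bool → ℤ := fun r => ∑ c ∈ S', ind (decide (hsh m l r c = y)) with hN
  have hN1 : (2 : ℤ) ^ l * ∑ r ∈ BL (l * m), N r = 2 ^ l * 2 ^ (l * m) := by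
    rw [Finset.sum_comm, Finset.mul_sum, Finset.sum_congr rfl (fun c hc' =>
      hsh_count m c (hS c (hS' hc')) l y hy), Finset.sum_const, hc]
    simp
  have hN2 : (4 : ℤ) ^ l * ∑ r ∈ BL (l * m), (N r) ^ 2 ≤ 2 * 4 ^ l * 2 ^ (l * m) := by
    have e1 : ∀ r, (N r) ^ 2 = N r + ∑ c ∈ S', ∑ d ∈ S'.erase c,
        ind (decide (hsh m l r c = y)) * ind (decide (hsh m l r d = y)) := by
      intro r
      rw [pow_two, hN]
      simp only
      rw [Finset.sum_mul_sum, ← Finset.sum_add_distrib]
      refine Finset.sum_congr rfl fun c hc' => ?_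
      rw [← Finset.add_sum_erase _ _ hc']
      congr 1
      cases decide (hsh m l r c = y) <;> simp [ind]
    rw [Finset.sum_congr rfl (fun r _ => e1 r), Finset.sum_add_distrib, mul_add]
    have e2 : (4 : ℤ) ^ l * ∑ r ∈ BL (l * m), N r = 4 ^ l * 2 ^ (l * m) := by
      have : (4 : ℤ) ^ l = 2 ^ l * 2 ^ l := by rw [← mul_pow]; norm_num
      rw [this, mul_assoc, hN1, ← mul_assoc]
    have e3 : (4 : ℤ) ^ l * ∑ r ∈ BL (l * m), ∑ c ∈ S', ∑ d ∈ S'.erase c,
        ind (decide (hsh m l r c = y)) * ind (decide (hsh m l r d = y)) ≤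
        4 ^ l * 2 ^ (l * m) := by
      have e4 : ∑ r ∈ BL (l * m), ∑ c ∈ S', ∑ d ∈ S'.erase c,
          ind (decide (hsh m l r c = y)) * ind (decide (hsh m l r d = y)) =
          ∑ c ∈ S', ∑ d ∈ S'.erase c, ∑ r ∈ BL (l * m),
          ind (decide (hsh m l r c = y)) * ind (decide (hsh m l r d = y)) := by
        rw [Finset.sum_comm]
        refine Finset.sum_congr rfl fun c _ => ?_
        rw [Finset.sum_comm]
      rw [e4, Finset.mul_sum]
      calc ∑ c ∈ S', (4 : ℤ) ^ l * ∑ d ∈ S'.erase c, ∑ r ∈ BL (l * m),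
            ind (decide (hsh m l r c = y)) * ind (decide (hsh m l r d = y))
          = ∑ c ∈ S', ∑ d ∈ S'.erase c, (2 : ℤ) ^ (l * m) := by
            refine Finset.sum_congr rfl fun c hc' => ?_
            rw [Finset.mul_sum]
            refine Finset.sum_congr rfl fun d hd => ?_
            exact hsh_count2 m c d (Finset.ne_of_mem_erase hd).symm (hS c (hS' hc'))
              (hS d (hS' (Finset.mem_of_mem_erase hd))) l y hy
        _ ≤ ∑ c ∈ S', ∑ d ∈ S', (2 : ℤ) ^ (l * m) := by
            refine Finset.sum_le_sum fun c _ => Finset.sum_le_sum_of_subset_of_nonneg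
              (Finset.erase_subset _ _) fun _ _ _ => by positivity
        _ = 4 ^ l * 2 ^ (l * m) := by
            rw [Finset.sum_const, Finset.sum_const, hc]
            simp only [nsmul_eq_mul]
            push_cast
            rw [← mul_assoc, ← mul_pow]
            norm_num
    linarith
  have hN3 : ∑ r ∈ BL (l * m), N r = 2 ^ (l * m) := by
    have h2 : (0 : ℤ) < 2 ^ l := by positivity
    exact mul_left_cancel₀ h2.ne' hN1
  have hN4 : ∑ r ∈ BL (l * m), (N r) ^ 2 ≤ 2 * 2 ^ (l * m) := by
    have h2 : (0 : ℤ) < 4 ^ l := by positivity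
    have h3 : (4 : ℤ) ^ l * ∑ r ∈ BL (l * m), (N r) ^ 2 ≤ 4 ^ l * (2 * 2 ^ (l * m)) := by
      linarith
    exact le_of_mul_le_mul_left h3 h2
  have h5 : ∀ r ∈ BL (l * m), 3 * N r - (N r) ^ 2 ≤
      2 * (if ∃ c ∈ S', hsh m l r c = y then 1 else 0) := by
    intro r _
    by_cases hr : ∃ c ∈ S', hsh m l r c = y
    · rw [if_pos hr]
      have h6 : (N r - 1) * (N r - 2) ≥ 0 := by
        rcases le_or_gt (N r) 1 with h7 | h7
        · exact mul_nonneg_of_nonpos_of_nonpos (by linarith) (by linarith)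
        · exact mul_nonneg (by linarith) (by linarith [Int.add_one_le_of_lt h7])
      nlinarith
    · rw [if_neg hr]
      have h6 : N r = 0 := by
        refine Finset.sum_eq_zero fun c hc' => ?_
        rw [decide_eq_false fun h => hr ⟨c, hc', h⟩]
        rfl
      rw [h6]
      norm_num
  have h6 := Finset.sum_le_sum h5
  rw [Finset.sum_sub_distrib, ← Finset.mul_sum, ← Finset.mul_sum, hN3, Finset.sum_boole] at h6
  have h7 : (2 : ℤ) ^ (l * m) ≤
      2 * (((BL (l * m)).filter (fun r => ∃ c ∈ S', hsh m l r c = y)).card : ℤ) := by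
    linarith
  exact_mod_cast h7

/-- **Hitting sets.** -/
theorem exists_hitting {ι Ω : Type} (W : Finset Ω) (P : ι → Ω → Prop) : ∀ (K : ℕ) (U : Finset ι),
    (∀ u ∈ U, W.card ≤ 2 * {ω : Ω | ω ∈ W ∧ P u ω}.ncard) → W.Nonempty → U.card < 2 ^ K →
    ∃ L : List Ω, L.length = K ∧ (∀ ω ∈ L, ω ∈ W) ∧ ∀ u ∈ U, ∃ ω ∈ L, P u ω := by
  classical
  intro K
  induction K with
  | zero =>
    intro U _ _ hK
    have h1 : U = ∅ := Finset.card_eq_zero.1 (by simpa using hK)
    exact ⟨[], rfl, by simp, by simp [h1]⟩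
  | succ K ih =>
    intro U hU hW hK
    have hU' : ∀ u ∈ U, W.card ≤ 2 * (W.filter (P u)).card := by
      intro u hu
      have h1 : {ω : Ω | ω ∈ W ∧ P u ω} = ↑(W.filter (P u)) := by ext ω; simp
      have h2 := hU u hu
      rwa [h1, Set.ncard_coe_finset] at h2
    obtain ⟨ω, hω, hω2⟩ : ∃ ω ∈ W, U.card ≤ 2 * (U.filter (fun u => P u ω)).card := by
      by_contra hcon
      push Not at hcon
      have h1 : ∑ u ∈ U, W.card ≤ ∑ u ∈ U, 2 * (W.filter (P u)).card := Finset.sum_le_sum hU'
      have h2 : ∑ u ∈ U, 2 * (W.filter (P u)).card =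
          ∑ ω ∈ W, 2 * (U.filter (fun u => P u ω)).card := by
        rw [← Finset.mul_sum, ← Finset.mul_sum]
        congr 1
        simp only [Finset.card_filter]
        rw [Finset.sum_comm]
      have h3 : ∑ ω ∈ W, 2 * (U.filter (fun u => P u ω)).card < ∑ ω ∈ W, U.card :=
        Finset.sum_lt_sum_of_nonempty hW hcon
      rw [h2] at h1
      simp only [Finset.sum_const, smul_eq_mul] at h1 h3
      rw [mul_comm] at h1
      omega
    have h4 := Finset.card_filter_add_card_filter_not (s := U) (fun u => P u ω)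
    obtain ⟨L, hL1, hL2, hL3⟩ := ih (U.filter (fun u => ¬ P u ω))
      (fun u hu => hU u (Finset.mem_filter.1 hu).1) hW (by rw [pow_succ] at hK; omega)
    refine ⟨ω :: L, by simp [hL1], fun ω' h' => ?_, fun u hu => ?_⟩
    · rcases List.mem_cons.1 h' with rfl | h'
      · exact hω
      · exact hL2 _ h'
    · by_cases hp : P u ω
      · exact ⟨ω, List.mem_cons_self, hp⟩
      · obtain ⟨ω', h1, h2⟩ := hL3 u (Finset.mem_filter.2 ⟨hu, hp⟩)
        exact ⟨ω', List.mem_cons_of_mem _ h1, h2⟩

end Pool.Agent.TH684.AM
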