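import Pool.Agent.TH684.CX.LawN
import Pool.Agent.W920.NL.LawAM2
import Pool.Agent.TH684.AM.Commit
import Pool.Agent.TH684.AM.DefsA

/-!
# Exclusion with public coins for `NP`-hard sets
-/

set_option autoImplicit false

namespace Pool.Agent.TH684.AM

open Pool.Agent.NPC Pool.Agent.H251R5.PQ Pool.Agent.W901.AT Pool.Agent.H579R2.Spt
open Pool.Agent.W920.LN (Tb lk inNP_of)
open Pool.Agent.W920.NL (InAM Str str_finite str_ncard ncard_split_le)
open Pool.Agent.TH684.EX Pool.Agent.TH684.CX

/-- The union bound over all strings of length at most `N`. -/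
theorem union_keys {X : List Bool → Set (List Bool)} {nf : ℕ → ℕ} {B : ℕ}
    (hX : ∀ z, X z ⊆ Str (nf z.length))
    (hc : ∀ z, 2 ^ (2 * z.length + 3) * (X z).ncard ≤ 2 ^ nf z.length) (N : ℕ)
    (hn : ∀ l ≤ N, nf l ≤ B) :
    2 * {r : List Bool | r.length = B ∧ ∃ z : List Bool, z.length ≤ N ∧
      r.take (nf z.length) ∈ X z}.ncard ≤ 2 ^ B := by
  classical
  have h1 : ∀ z : List Bool, z.length ≤ N → 2 ^ (2 * z.length + 3) *
      {r : List Bool | r.length = B ∧ r.take (nf z.length) ∈ X z}.ncard ≤ 2 ^ B := by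
    intro z hz
    have h2 : {r : List Bool | r.length = B ∧ r.take (nf z.length) ∈ X z}.ncard ≤
        (X z).ncard * (Str (B - nf z.length)).ncard := by
      refine ncard_split_le (a := nf z.length) ((str_finite _).subset (hX z)) (str_finite _) ?_
      rintro r ⟨hr1, hr2⟩
      refine ⟨hr2, ?_⟩
      change (r.drop (nf z.length)).length = B - nf z.length
      rw [List.length_drop, hr1]
    rw [str_ncard] at h2
    calc 2 ^ (2 * z.length + 3) *
          {r : List Bool | r.length = B ∧ r.take (nf z.length) ∈ X z}.ncard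
        ≤ 2 ^ (2 * z.length + 3) * ((X z).ncard * 2 ^ (B - nf z.length)) :=
          Nat.mul_le_mul_left _ h2
      _ = 2 ^ (2 * z.length + 3) * (X z).ncard * 2 ^ (B - nf z.length) := by ring
      _ ≤ 2 ^ nf z.length * 2 ^ (B - nf z.length) := Nat.mul_le_mul_right _ (hc z)
      _ = 2 ^ B := by
          rw [← pow_add]
          congr 1
          have := hn _ hz
          omega
  have key : ∀ M ≤ N, 2 ^ (M + 3) * {r : List Bool | r.length = B ∧ ∃ z : List Bool,
      z.length ≤ M ∧ r.take (nf z.length) ∈ X z}.ncard + 2 ^ B ≤ 2 ^ (M + 1) * 2 ^ B := by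
    intro M
    induction M with
    | zero =>
      intro hM
      have h2 := h1 [] (Nat.zero_le _)
      have h3 : {r : List Bool | r.length = B ∧ ∃ z : List Bool, z.length ≤ 0 ∧
          r.take (nf z.length) ∈ X z} ⊆
          {r : List Bool | r.length = B ∧ r.take (nf ([] : List Bool).length) ∈ X []} := by
        rintro r ⟨hr, z, hz, h4⟩
        have h5 : z = [] := List.length_eq_zero_iff.1 (Nat.le_zero.1 hz)
        subst h5
        exact ⟨hr, h4⟩
      have h4 := Set.ncard_le_ncard h3 ((str_finite B).subset fun r hr => hr.1)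
      have h5 := Nat.mul_le_mul_left (2 ^ (0 + 3)) h4
      simp only [List.length_nil, mul_zero, zero_add] at h2 h5 ⊢
      omega
    | succ M ih =>
      intro hM
      have h2 := ih (by omega)
      have h3 : {r : List Bool | r.length = B ∧ ∃ z : List Bool, z.length ≤ M + 1 ∧
          r.take (nf z.length) ∈ X z} ⊆
          {r : List Bool | r.length = B ∧ ∃ z : List Bool, z.length ≤ M ∧
            r.take (nf z.length) ∈ X z} ∪
          {r : List Bool | r.length = B ∧ ∃ z ∈ BL (M + 1), r.take (nf z.length) ∈ X z} := by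
        rintro r ⟨hr, z, hz, h4⟩
        rcases Nat.lt_or_ge M z.length with h5 | h5
        · exact Or.inr ⟨hr, z, mem_BL.2 (by omega), h4⟩
        · exact Or.inl ⟨hr, z, h5, h4⟩
      have h4 := (Set.ncard_le_ncard h3 (((str_finite B).subset fun r hr => hr.1).union
        ((str_finite B).subset fun r hr => hr.1))).trans (Set.ncard_union_le _ _)
      have h5 : {r : List Bool | r.length = B ∧ ∃ z ∈ BL (M + 1),
          r.take (nf z.length) ∈ X z}.ncard ≤
          (BL (M + 1)).card * (2 ^ B / 2 ^ (2 * (M + 1) + 3)) := by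
        refine ncard_exists_le (BL (M + 1)) (fun z r => r.take (nf z.length) ∈ X z) B _
          fun z hz => ?_
        rw [Nat.le_div_iff_mul_le (by positivity), mul_comm]
        have h6 := h1 z (by rw [mem_BL.1 hz]; exact hM)
        rwa [mem_BL.1 hz] at h6 ⊢
      rw [Pool.Agent.W901.RL.card_BL_nat] at h5
      have h6 : 2 ^ (M + 1 + 3) * (2 ^ (M + 1) * (2 ^ B / 2 ^ (2 * (M + 1) + 3))) ≤ 2 ^ B := by
        calc 2 ^ (M + 1 + 3) * (2 ^ (M + 1) * (2 ^ B / 2 ^ (2 * (M + 1) + 3))) =
              2 ^ (2 * (M + 1) + 3) * (2 ^ B / 2 ^ (2 * (M + 1) + 3)) := by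
                rw [← mul_assoc, ← pow_add]
                congr 2
                ring
          _ ≤ 2 ^ B := Nat.mul_div_le _ _
      have h7 := Nat.mul_le_mul_left (2 ^ (M + 1 + 3)) (h4.trans (Nat.add_le_add_left h5 _))
      rw [Nat.mul_add] at h7
      have h8 : 2 ^ (M + 1 + 3) * {r : List Bool | r.length = B ∧ ∃ z : List Bool,
          z.length ≤ M ∧ r.take (nf z.length) ∈ X z}.ncard =
          2 * (2 ^ (M + 3) * {r : List Bool | r.length = B ∧ ∃ z : List Bool,
          z.length ≤ M ∧ r.take (nf z.length) ∈ X z}.ncard) := by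
        rw [← mul_assoc, ← pow_succ']
      have h9 : 2 ^ (M + 1 + 1) * 2 ^ B = 2 * (2 ^ (M + 1) * 2 ^ B) := by ring
      omega
  have h2 := key N le_rfl
  have h3 : 2 ^ (N + 1) * (2 * {r : List Bool | r.length = B ∧ ∃ z : List Bool,
      z.length ≤ N ∧ r.take (nf z.length) ∈ X z}.ncard) ≤ 2 ^ (N + 1) * 2 ^ B := by
    have h4 : 2 ^ (N + 1) * (2 * {r : List Bool | r.length = B ∧ ∃ z : List Bool,
      z.length ≤ N ∧ r.take (nf z.length) ∈ X z}.ncard) ≤ 2 ^ (N + 3) * {r : List Bool |
      r.length = B ∧ ∃ z : List Bool, z.length ≤ N ∧ r.take (nf z.length) ∈ X z}.ncard := by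
      have h5 : 2 ^ (N + 3) = 2 ^ (N + 1) * 4 := by rw [pow_add, pow_add 2 N 1]; ring
      rw [h5, mul_assoc]
      exact Nat.mul_le_mul_left _ (Nat.mul_le_mul_right _ (by norm_num))
    exact h4.trans (le_trans (Nat.le_add_right _ _) h2)
  exact Nat.le_of_mul_le_mul_left h3 (by positivity)

/-- **Exclusion with public coins for an `NP`-hard set puts the complements of `NP` sets in `AM`.** -/
theorem inAM_of_amfeasible {A L : Set (List Bool)} (hA : NPHard A) (hL : InP L)
    (h : AMFeasible (Exclude L A)) {S : Set (List Bool)} (hS : InNP S) : InAM Sᶜ := by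
  classical
  obtain ⟨V, hV, hVL⟩ := hL
  obtain ⟨Y, ρ, p, b, c, hY, h⟩ := h
  set c' := max b c with hc'
  have hlam : Poly (fun q : ℕ × (ℕ × ℕ) => decide (V (bits q) = [true])) :=
    NPC.Poly.decide_eq ((PIso.poly_iff.2 hV).comp bits_poly) (NPC.Poly.const [true])
  set Y' : List (List Bool) × (List Bool × List Bool) → Option ℕ :=
    fun q => Y (pairBits (pairBits q.2.1 ((q.1.getD 0 []).take (ρ.eval q.2.1.length))) q.2.2)
    with hY'
  have e1 : Poly (fun q : List (List Bool) × (List Bool × List Bool) => q.2.1) :=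
    NPC.Poly.fst (NPC.Poly.snd NPC.Poly.id)
  have hY'p : Poly Y' := (poly_of_opt hY).comp (H622R2.poly_pairBits (H622R2.poly_pairBits e1
    (take_poly' (NPC.Poly.getD (NPC.Poly.fst NPC.Poly.id) (NPC.Poly.const 0) (NPC.Poly.const []))
      ((UPoly.length e1).eval ρ).toPoly)) (NPC.Poly.snd (NPC.Poly.snd NPC.Poly.id)))
  have hW := rdX_poly hY'p p b c'
  obtain ⟨V', Nk, q, hV', hs, hcm⟩ := core_G hW (SndX.mono (A := A) (b := b) (c := c'))
    (approx_X hA hlam (le_max_left b c) hW) S hS p
  have hVp : NPC.Poly (fun y : List Bool => (unbits (List Tb) (unpair y).2).elim false fun tbs =>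
      V' ((unpair (unpair y).1).1, ([(unpair (unpair y).1).2], tbs))) := by
    have e1 : NPC.Poly (fun y : List Bool => (unpair (unpair y).1).1) :=
      NPC.Poly.fst (poly_unpair.comp (NPC.Poly.fst poly_unpair))
    have e2 : NPC.Poly (fun y : List Bool => (unpair (unpair y).1).2) :=
      NPC.Poly.snd (poly_unpair.comp (NPC.Poly.fst poly_unpair))
    have e3 : NPC.Poly (fun y : List Bool => [(unpair (unpair y).1).2]) :=
      NPC.Poly.cons e2 (NPC.Poly.const [])
    refine (NPC.Poly.optCases (o := fun y : List Bool => unbits (List Tb) (unpair y).2)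
      (g := fun _ => false) (h := fun y tbs => V' ((unpair (unpair y).1).1,
        ([(unpair (unpair y).1).2], tbs)))
      (poly_unbits.comp (NPC.Poly.snd poly_unpair)) (NPC.Poly.const false) ?_).congr fun y => ?_
    · exact hV'.comp (NPC.Poly.pair (e1.comp (NPC.Poly.fst NPC.Poly.id))
        (NPC.Poly.pair (e3.comp (NPC.Poly.fst NPC.Poly.id)) (NPC.Poly.snd NPC.Poly.id)))
    · cases unbits (List Tb) (unpair y).2 <;> rfl
  have hVe : ∀ x r w : List Bool, (unbits (List Tb) (unpair (pairBits (pairBits x r) w)).2).elim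
      false (fun tbs => V' ((unpair (unpair (pairBits (pairBits x r) w)).1).1,
        ([(unpair (unpair (pairBits (pairBits x r) w)).1).2], tbs))) =
      (unbits (List Tb) w).elim false fun tbs => V' (x, ([r], tbs)) := by
    intro x r w
    simp only [unpair_pairBits]
  have eB : ∀ n : ℕ, (ρ.comp Nk).eval n = ρ.eval (Nk.eval n) := fun n => Polynomial.eval_comp
  have hYe : ∀ r z w : List Bool, Y' ([r], (z, w)) =
      Y (pairBits (pairBits z (r.take (ρ.eval z.length))) w) := fun r z w => rfl
  refine ⟨fun y => [(unbits (List Tb) (unpair y).2).elim false fun tbs =>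
      V' ((unpair (unpair y).1).1, ([(unpair (unpair y).1).2], tbs))], ρ.comp Nk, q,
    PIso.poly_iff.1 (NPC.Poly.cons hVp (NPC.Poly.const [])), ?_, ?_⟩
  · intro x hx r hr
    rw [eB] at hr
    obtain ⟨tbs, ht1, ht2⟩ := hcm x [r] (fun z hz => rdX_tot fun n qs hzq h1 h2 => by
      subst hzq
      obtain ⟨l, w, hw, hl⟩ := (h n qs h1 h2).1 (r.take (ρ.eval (bits qs).length)) (by
        rw [List.length_take, hr]
        exact min_eq_left (eval_mono ρ hz))
      exact ⟨w, l, hw, by rw [hYe]; exact hl⟩) hx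
    refine ⟨bits tbs, by rw [bits_length]; exact ht1, ?_⟩
    simp only
    rw [hVe, unbits_bits, Option.elim_some, ht2]
  · intro x hx
    have hxS : x ∈ S := by
      by_contra h
      exact hx h
    rw [eB]
    set N : ℕ := Nk.eval x.length with hN
    set X : List Bool → Set (List Bool) := fun z => {r | r.length = ρ.eval z.length ∧
      ∃ (n : ℕ) (qs : List (List Bool)), z = bits qs ∧ (qs.length = n ^ b + b ∧
        ∀ y ∈ qs, y.length ≤ n) ∧ ∃ l, AOut Y p z r l ∧ ¬ (l ≤ n ^ c + c ∧ Exclude L A qs l)}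
      with hXdef
    have hXc : ∀ z, 2 ^ (2 * z.length + 3) * (X z).ncard ≤ 2 ^ ρ.eval z.length := by
      intro z
      by_cases hz : ∃ (n : ℕ) (qs : List (List Bool)), z = bits qs ∧ (qs.length = n ^ b + b ∧
          ∀ y ∈ qs, y.length ≤ n)
      · obtain ⟨qs, hzq, h2, h3⟩ := Nat.find_spec hz
        subst hzq
        refine le_trans (Nat.mul_le_mul_left _ (Set.ncard_le_ncard ?_ ?_))
          (h (Nat.find hz) qs h2 h3).2
        · rintro r ⟨hr, n, qs', hq1, hq2, l, hl1, hl2⟩
          have h4 : qs = qs' := bits_injective hq1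
          subst h4
          refine ⟨hr, l, hl1, fun h5 => hl2 ⟨h5.1.trans ?_, h5.2⟩⟩
          exact Nat.add_le_add_right (Nat.pow_le_pow_left (Nat.find_min' hz ⟨qs, rfl, hq2⟩) c) c
        · exact (str_finite _).subset fun r hr => hr.1
      · have h1 : X z = ∅ := by
          ext r
          simp only [hXdef, Set.mem_ofPred_eq, Set.mem_empty_iff_false, iff_false]
          rintro ⟨_, n, qs, h1, h2, _⟩
          exact hz ⟨n, qs, h1, h2⟩
        rw [h1]
        simp
    have hun := union_keys (X := X) (nf := fun l => ρ.eval l) (B := ρ.eval N)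
      (fun z r hr => hr.1) hXc N (fun l hl => eval_mono ρ hl)
    refine le_trans (Nat.mul_le_mul_left _ (Set.ncard_le_ncard ?_ ?_)) hun
    · rintro r ⟨hr, w, _, hw⟩
      refine ⟨hr, ?_⟩
      by_contra hcon
      push Not at hcon
      simp only at hw
      rw [hVe] at hw
      cases hw' : unbits (List Tb) w with
      | none => rw [hw', Option.elim_none] at hw; exact absurd hw (by simp)
      | some tbs =>
        rw [hw', Option.elim_some] at hw
        have h1 := hs x [r] ?_ hxS tbs
        · rw [h1] at hw; exact absurd hw (by simp)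
        refine rdX_snd fun n qs h1 h2 hK w l hwl hl => ?_
        rw [hYe] at hl
        have h3 := hcon (bits qs) hK
        have h4 : l ≤ n ^ c + c ∧ Exclude L A qs l := by
          by_contra h5
          refine h3 ⟨?_, n, qs, rfl, ⟨h1, h2⟩, l, ⟨w, hwl, hl⟩, h5⟩
          rw [List.length_take, hr]
          exact min_eq_left (eval_mono ρ hK)
        refine ⟨h4.1.trans (pow_add_mono (le_max_right b c) n), fun h5 => h4.2 ?_⟩
        rw [h5]
        unfold vec
        refine List.map_congr_left fun i _ => ?_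
        exact decide_eq_decide.2 (hVL _).symm
    · exact (str_finite (ρ.eval N)).subset fun r hr => hr.1

end Pool.Agent.TH684.AM
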