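import Pool.Agent.TH684.AM.Ampl
import Pool.Agent.TH684.AM.DefsR
import Pool.Agent.TH684.AM.DefsA
import Pool.Agent.TH684.DI.Sens2
import Pool.Agent.H579R2.Spt.VV3

/-!
# The protocol
-/

set_option autoImplicit false

namespace Pool.Agent.TH684.AM

open Pool.Agent.NPC Pool.Agent.H251R5.PQ Pool.Agent.W901.AT Pool.Agent.H579R2.Spt
open Pool.Agent.TH684.EX Pool.Agent.TH684.CX Pool.Agent.TH684.DI

/-! ### The parameters -/

/-- the length of the outputs of the repeated algorithm -/
noncomputable def Sp (q : Polynomial ℕ) : Polynomial ℕ :=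
  Polynomial.C 24 * Polynomial.X * (Polynomial.C 4 * q + 2) + 1

/-- the number of blocks of two strings -/
noncomputable def tp (q : Polynomial ℕ) : Polynomial ℕ := Sp q + 2

/-- the number of strings of a list -/
noncomputable def Wp (q : Polynomial ℕ) (d : ℕ) : Polynomial ℕ :=
  (Polynomial.C 2 * tp q) ^ d + Polynomial.C d

/-- the length of the code of a list -/
noncomputable def Zp (q : Polynomial ℕ) (d : ℕ) : Polynomial ℕ :=
  Wp q d * (Polynomial.C 4 * Polynomial.X + 2) + 1

/-- the number of random bits of one run of the algorithm -/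
noncomputable def mp (ρ q : Polynomial ℕ) (d : ℕ) : Polynomial ℕ := ρ.comp (Zp q d)

/-- the length of a selection together with the random bits of the repeated algorithm -/
noncomputable def Np (ρ q : Polynomial ℕ) (d : ℕ) : Polynomial ℕ :=
  tp q + Polynomial.C 24 * Polynomial.X * mp ρ q d

/-! ### The repeated algorithm -/

/-- The positions of the strings of the list given by the codes `its` and the selection `s`. -/
def pos (its : List (Bool × ℕ)) (s : List Bool) : List ℕ :=
  its.map (fun c => bif c.1 then 2 * c.2 + (bif s.getD c.2 false then 1 else 0) + 2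
    else min c.2 1)

/-- The outputs for `24 a` blocks of random bits. -/
noncomputable def FF (D : List Bool → List Bool) (ρ : Polynomial ℕ) (m a : ℕ)
    (L : List (List Bool)) (b : List Bool) : List Bool :=
  bits ((rowsL m (24 * a) b).map
    (fun b' => D (pairBits (bits L) (b'.take (ρ.eval (bits L).length)))))

/-- The output for a selection and random bits. -/
noncomputable def Fx (D : List Bool → List Bool) (ρ q : Polynomial ℕ) (d : ℕ)
    (qs : List (List Bool)) (its : List (Bool × ℕ)) (a : ℕ) (x : List Bool) : List Bool :=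
  FF D ρ ((mp ρ q d).eval a) a (sel qs (pos its (x.take ((tp q).eval a))))
    (x.drop ((tp q).eval a))

/-- The value of `g` if the answers are all `e`, with the exception of `i`. -/
noncomputable def sdx (g : List Bool → Bool) (q : Polynomial ℕ) (its : List (Bool × ℕ)) (i : ℕ)
    (e : Bool) (a : ℕ) (x : List Bool) : Bool :=
  g ((pos its (x.take ((tp q).eval a))).map (val i e))

/-! ### The verifier -/

/-- Commitments: a unary number, the codes of the list, the exceptional string and the kind of the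
vector, two unary numbers, the matrices for the outputs and for the selections. -/
abbrev Cm : Type := List Bool × (List (Bool × ℕ) × ((ℕ × Bool) × ((List Bool × List Bool) ×
  (List (List Bool) × List (List Bool)))))

/-- Conditions on a commitment; `qs` is the list of the questions preceded by two fixed strings. -/
noncomputable def okc (ρ q : Polynomial ℕ) (d C0 C1 : ℕ) (Q : Polynomial ℕ)
    (qs : List (List Bool)) (zl : ℕ) (c : Cm) : Bool :=
  ((decide (C0 ≤ c.1.length) && decide (c.1.length ≤ zl + C1)) &&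
    (!c.2.1.isEmpty && decide (c.2.1.length ≤ (Wp q d).eval c.1.length))) &&
  ((c.2.1.all (fun t => !t.1 || decide (2 * t.2 + 3 < qs.length)) &&
    qs.all (fun y => decide (y.length ≤ c.1.length))) &&
  ((decide (c.2.2.1.1 + 2 < qs.length) && decide (c.2.2.2.1.1.length ≤ (Sp q).eval c.1.length + 1)) &&
  ((decide (c.2.2.2.1.2.length ≤ (Np ρ q d).eval c.1.length) &&
    decide ((Np ρ q d).eval c.1.length ≤ c.2.2.2.1.1.length + c.2.2.2.1.2.length + c.1.length)) &&
  ((decide (c.2.2.2.2.1.length ≤ (Sp q).eval c.1.length + 2) &&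
    decide (c.2.2.2.2.2.length ≤ (Sp q).eval c.1.length + (Np ρ q d).eval c.1.length + 3)) &&
    decide ((bits c).length ≤ Q.eval zl)))))

/-- The test of one pair for one target. -/
noncomputable def tst (g : List Bool → Bool) (D : List Bool → List Bool) (ρ q : Polynomial ℕ)
    (d : ℕ) (qs : List (List Bool)) (c : Cm) (L1 L2 : ℕ) (ch : List Bool)
    (xx : List Bool × List Bool) : Bool :=
  ((decide (xx.1.length = (Np ρ q d).eval c.1.length) &&
    decide (xx.2.length = (Np ρ q d).eval c.1.length)) &&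
  (decide (Fx D ρ q d qs c.2.1 c.1.length xx.1 = Fx D ρ q d qs c.2.1 c.1.length xx.2) &&
    !decide (sdx g q c.2.1 c.2.2.1.1 c.2.2.1.2 c.1.length xx.1 =
      sdx g q c.2.1 c.2.2.1.1 c.2.2.1.2 c.1.length xx.2))) &&
  (c.2.2.2.2.1.any (fun h => decide (hsh ((Sp q).eval c.1.length + 1) c.2.2.2.1.1.length h
      (Fx D ρ q d qs c.2.1 c.1.length xx.1) = ch.take c.2.2.2.1.1.length)) &&
  (c.2.2.2.2.2.any (fun h => decide (hsh ((Np ρ q d).eval c.1.length + 1) c.2.2.2.1.2.length h
      xx.1 = (ch.drop L1).take c.2.2.2.1.2.length)) &&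
   c.2.2.2.2.2.any (fun h => decide (hsh ((Np ρ q d).eval c.1.length + 1) c.2.2.2.1.2.length h
      xx.2 = (ch.drop (L1 + L2)).take c.2.2.2.1.2.length))))

/-- Guesses: a commitment and pairs. -/
abbrev Gm : Type := Cm × List (List Bool × List Bool)

/-- Decoding of a guess. -/
def dgm (w : List Bool) : Gm := (unbits Gm w).getD default

theorem dgm_poly : Poly dgm := NPC.Poly.optGetD poly_unbits (NPC.Poly.const _)

theorem dgm_bits (g : Gm) : dgm (bits g) = g := by
  unfold dgm
  rw [unbits_bits, Option.getD_some]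

/-- The data of the protocol which depend on the number of the blocks. -/
structure Par where
  /-- the sensitive function -/
  g : List Bool → Bool
  /-- the algorithm -/
  D : List Bool → List Bool
  /-- the number of random bits -/
  ρ : Polynomial ℕ
  /-- the bound for the outputs -/
  q : Polynomial ℕ
  /-- the exponent for the sensitivity -/
  d : ℕ
  /-- the least unary number -/
  C0 : ℕ
  /-- the slack of the unary number -/
  C1 : ℕ
  /-- the bound for the commitments -/
  Q : Polynomial ℕ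
  /-- the number of targets -/
  T : Polynomial ℕ
  /-- the length of the first part of a target -/
  L1 : Polynomial ℕ
  /-- the length of the other parts of a target -/
  L2 : Polynomial ℕ
  /-- a member -/
  y1 : List Bool
  /-- a string which is no member -/
  y0 : List Bool

/-- the length of a target -/
noncomputable def Par.cs (P : Par) : Polynomial ℕ := P.L1 + Polynomial.C 2 * P.L2

/-- The verifier for the list `qs`, whose code has length `zl`, and random bits `r`. -/
noncomputable def vfy (P : Par) (qs : List (List Bool)) (zl : ℕ) (r : List Bool) (G : Gm) : Bool :=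
  okc P.ρ P.q P.d P.C0 P.C1 P.Q qs zl G.1 &&
    (List.range (P.T.eval zl)).all (fun τ => tst P.g P.D P.ρ P.q P.d qs G.1 (P.L1.eval zl)
      (P.L2.eval zl) ((r.drop (τ * P.cs.eval zl)).take (P.cs.eval zl)) (G.2.getD τ ([], [])))

/-- The algorithm. -/
noncomputable def ya (P : Par) (z : List Bool) : Option ℕ :=
  bif vfy P (P.y0 :: P.y1 :: dl (unpair (unpair z).1).1) (unpair (unpair z).1).1.length
      (unpair (unpair z).1).2 (dgm (unpair z).2) then
    some (bif (dgm (unpair z).2).1.2.2.1.2 then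
      (dgm (unpair z).2).1.2.2.1.1 + (dl (unpair (unpair z).1).1).length
      else (dgm (unpair z).2).1.2.2.1.1)
  else none

/-! ### Polynomial time -/

section PolyLemmas

variable {α : Type} [TEnc α]

theorem pos_poly {its : α → List (Bool × ℕ)} {s : α → List Bool} (hi : Poly its) (hs : Poly s) :
    Poly (fun x => pos (its x) (s x)) := by
  unfold pos
  refine NPC.Poly.map (l := its) (F := fun x c =>
    bif c.1 then 2 * c.2 + (bif (s x).getD c.2 false then 1 else 0) + 2 else min c.2 1) hi ?_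
  have e1 : Poly (fun t : α × (Bool × ℕ) => t.2.1) := NPC.Poly.fst (NPC.Poly.snd NPC.Poly.id)
  have e2 : Poly (fun t : α × (Bool × ℕ) => t.2.2) := NPC.Poly.snd (NPC.Poly.snd NPC.Poly.id)
  have e3 : Poly (fun t : α × (Bool × ℕ) => s t.1) := hs.comp (NPC.Poly.fst NPC.Poly.id)
  exact NPC.Poly.cond e1 (NPC.Poly.add (NPC.Poly.add (NPC.Poly.mul (NPC.Poly.const 2) e2)
    (NPC.Poly.cond (NPC.Poly.getD e3 e2 (NPC.Poly.const false)) (NPC.Poly.const 1)
      (NPC.Poly.const 0))) (NPC.Poly.const 2)) (NPC.Poly.min e2 (NPC.Poly.const 1))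

theorem hsh_poly {m l : α → ℕ} {r c : α → List Bool} (hm : Poly m) (hl : UPoly l) (hr : Poly r)
    (hc : Poly c) : Poly (fun x => hsh (m x) (l x) (r x) (c x)) := by
  unfold hsh cd
  refine NPC.Poly.map (l := fun x => rowsL (m x) (l x) (r x))
    (F := fun x a => ip a (c x ++ [true])) (rowsL_poly hm hl hr) ?_
  exact ip_poly (NPC.Poly.snd NPC.Poly.id)
    (NPC.Poly.append (hc.comp (NPC.Poly.fst NPC.Poly.id)) (NPC.Poly.const [true]))

theorem FF_poly {D : List Bool → List Bool} (hD : Poly D) (ρ : Polynomial ℕ) {m a : α → ℕ}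
    {L : α → List (List Bool)} {b : α → List Bool} (hm : Poly m) (ha : UPoly a) (hL : Poly L)
    (hb : Poly b) : Poly (fun x => FF D ρ (m x) (a x) (L x) (b x)) := by
  unfold FF
  refine bits_poly.comp (NPC.Poly.map (l := fun x => rowsL (m x) (24 * a x) (b x))
    (F := fun x b' => D (pairBits (bits (L x)) (b'.take (ρ.eval (bits (L x)).length))))
    (rowsL_poly hm ((UPoly.const 24).mul ha) hb) ?_)
  have e1 : Poly (fun t : α × List Bool => bits (L t.1)) :=
    bits_poly.comp (hL.comp (NPC.Poly.fst NPC.Poly.id))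
  exact hD.comp (H622R2.poly_pairBits e1 (take_poly' (NPC.Poly.snd NPC.Poly.id)
    ((UPoly.length e1).eval ρ).toPoly))

theorem Fx_poly {D : List Bool → List Bool} (hD : Poly D) (ρ q : Polynomial ℕ) (d : ℕ)
    {qs : α → List (List Bool)} {its : α → List (Bool × ℕ)} {a : α → ℕ} {x : α → List Bool}
    (hq : Poly qs) (hi : Poly its) (ha : UPoly a) (hx : Poly x) :
    Poly (fun t => Fx D ρ q d (qs t) (its t) (a t) (x t)) := by
  unfold Fx
  exact FF_poly hD ρ (ha.eval (mp ρ q d)).toPoly ha (sel_poly hq (pos_poly hi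
    (take_poly' hx (ha.eval (tp q)).toPoly))) (drop_poly' hx (ha.eval (tp q)).toPoly)

theorem sdx_poly {g : List Bool → Bool} (hg : Poly g) (q : Polynomial ℕ)
    {its : α → List (Bool × ℕ)} {i : α → ℕ} {e : α → Bool} {a : α → ℕ} {x : α → List Bool}
    (hi : Poly its) (hj : Poly i) (he : Poly e) (ha : UPoly a) (hx : Poly x) :
    Poly (fun t => sdx g q (its t) (i t) (e t) (a t) (x t)) := by
  unfold sdx
  exact hg.comp (val_poly (pos_poly hi (take_poly' hx (ha.eval (tp q)).toPoly)) hj he)

theorem okc_poly (ρ q : Polynomial ℕ) (d C0 C1 : ℕ) (Q : Polynomial ℕ)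
    {qs : α → List (List Bool)} {zl : α → ℕ} {c : α → Cm} (hq : Poly qs) (hz : UPoly zl)
    (hc : Poly c) : Poly (fun t => okc ρ q d C0 C1 Q (qs t) (zl t) (c t)) := by
  have ea : UPoly (fun t => (c t).1.length) := UPoly.length (NPC.Poly.fst hc)
  have c1 := NPC.Poly.fst (NPC.Poly.snd hc)
  have c2 := NPC.Poly.snd (NPC.Poly.snd hc)
  have ei := NPC.Poly.fst (NPC.Poly.fst c2)
  have c3 := NPC.Poly.snd c2
  have el : UPoly (fun t => (c t).2.2.2.1.1.length) := UPoly.length (NPC.Poly.fst (NPC.Poly.fst c3))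
  have ek : UPoly (fun t => (c t).2.2.2.1.2.length) := UPoly.length (NPC.Poly.snd (NPC.Poly.fst c3))
  have eV := NPC.Poly.length (NPC.Poly.fst (NPC.Poly.snd c3))
  have eX := NPC.Poly.length (NPC.Poly.snd (NPC.Poly.snd c3))
  have eS := (ea.eval (Sp q)).toPoly
  have eN := (ea.eval (Np ρ q d)).toPoly
  unfold okc
  refine NPC.Poly.and (NPC.Poly.and (NPC.Poly.and
      (NPC.Poly.decide_le (NPC.Poly.const C0) ea.toPoly)
      (NPC.Poly.decide_le ea.toPoly (NPC.Poly.add hz.toPoly (NPC.Poly.const C1))))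
      (NPC.Poly.and (NPC.Poly.not (NPC.Poly.isEmpty c1))
        (NPC.Poly.decide_le (NPC.Poly.length c1) (ea.eval (Wp q d)).toPoly)))
    (NPC.Poly.and (NPC.Poly.and ?_ ?_) (NPC.Poly.and (NPC.Poly.and
      (NPC.Poly.decide_lt (NPC.Poly.add ei (NPC.Poly.const 2)) (NPC.Poly.length hq))
      (NPC.Poly.decide_le el.toPoly (NPC.Poly.add eS (NPC.Poly.const 1))))
      (NPC.Poly.and (NPC.Poly.and (NPC.Poly.decide_le ek.toPoly eN)
        (NPC.Poly.decide_le eN (NPC.Poly.add (NPC.Poly.add el.toPoly ek.toPoly) ea.toPoly)))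
        (NPC.Poly.and (NPC.Poly.and (NPC.Poly.decide_le eV (NPC.Poly.add eS (NPC.Poly.const 2)))
          (NPC.Poly.decide_le eX (NPC.Poly.add (NPC.Poly.add eS eN) (NPC.Poly.const 3))))
          (NPC.Poly.decide_le (NPC.Poly.length (bits_poly.comp hc)) (hz.eval Q).toPoly)))))
  · refine NPC.Poly.all (l := fun t => (c t).2.1)
      (p := fun t u => !u.1 || decide (2 * u.2 + 3 < (qs t).length)) c1 ?_
    exact NPC.Poly.or (NPC.Poly.not (NPC.Poly.fst (NPC.Poly.snd NPC.Poly.id)))
      (NPC.Poly.decide_lt (NPC.Poly.add (NPC.Poly.mul (NPC.Poly.const 2)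
        (NPC.Poly.snd (NPC.Poly.snd NPC.Poly.id))) (NPC.Poly.const 3))
        (NPC.Poly.length (hq.comp (NPC.Poly.fst NPC.Poly.id))))
  · exact NPC.Poly.all (l := qs) (p := fun t y => decide (y.length ≤ (c t).1.length)) hq
      (NPC.Poly.decide_le (NPC.Poly.length (NPC.Poly.snd NPC.Poly.id))
        (ea.toPoly.comp (NPC.Poly.fst NPC.Poly.id)))

theorem any_hsh_poly {m l : α → ℕ} {H : α → List (List Bool)} {c y : α → List Bool}
    (hm : Poly m) (hl : UPoly l) (hH : Poly H) (hc : Poly c) (hy : Poly y) :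
    Poly (fun t => (H t).any (fun h => decide (hsh (m t) (l t) h (c t) = y t))) := by
  refine NPC.Poly.any (l := H) (p := fun t h => decide (hsh (m t) (l t) h (c t) = y t)) hH ?_
  have e1 : Poly (fun t : α × List Bool => t.1) := NPC.Poly.fst NPC.Poly.id
  exact NPC.Poly.decide_eq (hsh_poly (hm.comp e1) (hl.comp e1) (NPC.Poly.snd NPC.Poly.id)
    (hc.comp e1)) (hy.comp e1)

theorem tst_poly {g : List Bool → Bool} (hg : Poly g) {D : List Bool → List Bool} (hD : Poly D)
    (ρ q : Polynomial ℕ) (d : ℕ) {qs : α → List (List Bool)} {c : α → Cm} {L1 L2 : α → ℕ}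
    {ch : α → List Bool} {xx : α → List Bool × List Bool} (hq : Poly qs) (hc : Poly c)
    (h1 : Poly L1) (h2 : Poly L2) (hch : Poly ch) (hx : Poly xx) :
    Poly (fun t => tst g D ρ q d (qs t) (c t) (L1 t) (L2 t) (ch t) (xx t)) := by
  have ea : UPoly (fun t => (c t).1.length) := UPoly.length (NPC.Poly.fst hc)
  have c1 := NPC.Poly.fst (NPC.Poly.snd hc)
  have c2 := NPC.Poly.snd (NPC.Poly.snd hc)
  have ei := NPC.Poly.fst (NPC.Poly.fst c2)
  have ee := NPC.Poly.snd (NPC.Poly.fst c2)
  have c3 := NPC.Poly.snd c2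
  have el : UPoly (fun t => (c t).2.2.2.1.1.length) := UPoly.length (NPC.Poly.fst (NPC.Poly.fst c3))
  have ek : UPoly (fun t => (c t).2.2.2.1.2.length) := UPoly.length (NPC.Poly.snd (NPC.Poly.fst c3))
  have eV := NPC.Poly.fst (NPC.Poly.snd c3)
  have eX := NPC.Poly.snd (NPC.Poly.snd c3)
  have eS := (ea.eval (Sp q)).toPoly
  have eN := (ea.eval (Np ρ q d)).toPoly
  have x1 := NPC.Poly.fst hx
  have x2 := NPC.Poly.snd hx
  unfold tst
  exact NPC.Poly.and (NPC.Poly.and (NPC.Poly.and
      (NPC.Poly.decide_eq (NPC.Poly.length x1) eN) (NPC.Poly.decide_eq (NPC.Poly.length x2) eN))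
      (NPC.Poly.and (NPC.Poly.decide_eq (Fx_poly hD ρ q d hq c1 ea x1)
        (Fx_poly hD ρ q d hq c1 ea x2)) (NPC.Poly.not (NPC.Poly.decide_eq
          (sdx_poly hg q c1 ei ee ea x1) (sdx_poly hg q c1 ei ee ea x2)))))
    (NPC.Poly.and (any_hsh_poly (NPC.Poly.add eS (NPC.Poly.const 1)) el eV
      (Fx_poly hD ρ q d hq c1 ea x1) (take_poly' hch el.toPoly))
      (NPC.Poly.and (any_hsh_poly (NPC.Poly.add eN (NPC.Poly.const 1)) ek eX x1
        (take_poly' (drop_poly' hch h1) ek.toPoly))
        (any_hsh_poly (NPC.Poly.add eN (NPC.Poly.const 1)) ek eX x2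
          (take_poly' (drop_poly' hch (NPC.Poly.add h1 h2)) ek.toPoly))))

theorem vfy_poly (P : Par) (hg : Poly P.g) (hD : Poly P.D) {qs : α → List (List Bool)}
    {zl : α → ℕ} {r : α → List Bool} {G : α → Gm} (hq : Poly qs) (hz : UPoly zl) (hr : Poly r)
    (hG : Poly G) : Poly (fun t => vfy P (qs t) (zl t) (r t) (G t)) := by
  unfold vfy
  refine NPC.Poly.and (okc_poly P.ρ P.q P.d P.C0 P.C1 P.Q hq hz (NPC.Poly.fst hG)) ?_
  refine NPC.Poly.all (l := fun t => List.range (P.T.eval (zl t)))
    (p := fun t τ => tst P.g P.D P.ρ P.q P.d (qs t) (G t).1 (P.L1.eval (zl t))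
      (P.L2.eval (zl t)) (((r t).drop (τ * P.cs.eval (zl t))).take (P.cs.eval (zl t)))
      ((G t).2.getD τ ([], []))) (hz.eval P.T).range ?_
  have e1 : Poly (fun t : α × ℕ => t.1) := NPC.Poly.fst NPC.Poly.id
  have e2 : Poly (fun t : α × ℕ => t.2) := NPC.Poly.snd NPC.Poly.id
  have ec := ((hz.comp e1).eval P.cs).toPoly
  exact tst_poly hg hD P.ρ P.q P.d (hq.comp e1) ((NPC.Poly.fst hG).comp e1)
    ((hz.comp e1).eval P.L1).toPoly ((hz.comp e1).eval P.L2).toPoly
    (take_poly' (drop_poly' (hr.comp e1) (NPC.Poly.mul e2 ec)) ec)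
    (NPC.Poly.getD ((NPC.Poly.snd hG).comp e1) e2 (NPC.Poly.const ([], [])))

end PolyLemmas

theorem ya_poly (P : Par) (hg : Poly P.g) (hD : Poly P.D) : Poly (ya P) := by
  have e1 : Poly (fun z : List Bool => (unpair (unpair z).1).1) :=
    NPC.Poly.fst (poly_unpair.comp (NPC.Poly.fst poly_unpair))
  have e2 : Poly (fun z : List Bool => (unpair (unpair z).1).2) :=
    NPC.Poly.snd (poly_unpair.comp (NPC.Poly.fst poly_unpair))
  have e3 : Poly (fun z : List Bool => dgm (unpair z).2) :=
    dgm_poly.comp (NPC.Poly.snd poly_unpair)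
  have e4 : Poly (fun z : List Bool => dl (unpair (unpair z).1).1) := dl_poly.comp e1
  have e5 := NPC.Poly.fst (NPC.Poly.snd (NPC.Poly.snd (NPC.Poly.fst e3)))
  unfold ya
  exact NPC.Poly.cond (vfy_poly P hg hD (NPC.Poly.cons (NPC.Poly.const P.y0)
    (NPC.Poly.cons (NPC.Poly.const P.y1) e4)) (UPoly.length e1) e2 e3)
    (NPC.Poly.some (NPC.Poly.cond (NPC.Poly.snd e5)
      (NPC.Poly.add (NPC.Poly.fst e5) (NPC.Poly.length e4)) (NPC.Poly.fst e5)))
    (NPC.Poly.const none)

end Pool.Agent.TH684.AM
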