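import Pool.Agent.TH684.AM.Prot

/-!
# Soundness of the protocol
-/

set_option autoImplicit false

namespace Pool.Agent.TH684.AM

open Pool.Agent.NPC Pool.Agent.H251R5.PQ Pool.Agent.W901.AT Pool.Agent.H579R2.Spt
open Pool.Agent.TH684.EX Pool.Agent.TH684.CX Pool.Agent.TH684.DI
open Pool.Agent.W920.NL (Str str_finite str_ncard ncard_split_le)
open Pool.Agent.W901.RL (split_le split_le_left)

/-- The specification of a distillation algorithm with bounded error. -/
def RSpec (Q : List (List Bool) → Prop) (B : Set (List Bool)) (D : List Bool → List Bool)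
    (ρ q : Polynomial ℕ) : Prop :=
  ∀ (n : ℕ) (qs : List (List Bool)), qs ≠ [] → (∀ y ∈ qs, y.length ≤ n) →
    (∀ r : List Bool, r.length = ρ.eval (bits qs).length →
      (D (pairBits (bits qs) r)).length ≤ q.eval n) ∧
    3 * {r : List Bool | r.length = ρ.eval (bits qs).length ∧
      ¬ (D (pairBits (bits qs) r) ∈ B ↔ Q qs)}.ncard ≤ 2 ^ ρ.eval (bits qs).length

open Classical in
/-- The majority of the `K` strings coded by `v` is in `B`. -/
def Maj (B : Set (List Bool)) (K : ℕ) (v : List Bool) : Prop :=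
  K < 2 * ((dl v).filter (fun u => decide (u ∈ B))).length

theorem rowsL_length (m k : ℕ) (r : List Bool) : (rowsL m k r).length = k := by
  simp [rowsL]

theorem maj_of {B : Set (List Bool)} {Q : Prop} {K : ℕ} (rows : List (List Bool))
    (hK : rows.length = K) (f : List Bool → List Bool) (P : List Bool → Bool)
    (hP : ∀ b, P b = true ↔ ¬ (f b ∈ B ↔ Q)) (h : 2 * wr P rows < K) :
    Maj B K (bits (rows.map f)) ↔ Q := by
  classical
  unfold Maj
  rw [dl_bits, List.filter_map, List.length_map]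
  have h1 := List.length_eq_length_filter_add (l := rows) (fun b => decide (f b ∈ B))
  have h2 : ((fun u => decide (u ∈ B)) ∘ f) = fun b => decide (f b ∈ B) := rfl
  by_cases hQ : Q
  · have h3 : wr P rows = (rows.filter (fun b => !decide (f b ∈ B))).length := by
      unfold wr
      congr 1
      refine List.filter_congr fun b _ => ?_
      have h4 := hP b
      by_cases h5 : f b ∈ B
      · have h6 : ¬ P b = true := fun h7 => h4.1 h7 ⟨fun _ => hQ, fun _ => h5⟩
        simp [h5, h6]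
      · have h6 : P b = true := h4.2 fun h7 => h5 (h7.2 hQ)
        simp [h5, h6]
    simp only [hQ, iff_true]
    rw [h2]
    omega
  · have h3 : wr P rows = (rows.filter (fun b => decide (f b ∈ B))).length := by
      unfold wr
      congr 1
      refine List.filter_congr fun b _ => ?_
      have h4 := hP b
      by_cases h5 : f b ∈ B
      · have h6 : P b = true := h4.2 fun h7 => hQ (h7.1 h5)
        simp [h5, h6]
      · have h6 : ¬ P b = true := fun h7 => h4.1 h7 ⟨fun h8 => absurd h8 h5, fun h8 => absurd h8 hQ⟩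
        simp [h5, h6]
    simp only [hQ, iff_false]
    rw [h2]
    omega

variable {g : List Bool → Bool} {A B : Set (List Bool)} {D : List Bool → List Bool}
  {ρ q : Polynomial ℕ} {d : ℕ}

/-- The error for a fixed list. -/
theorem list_bad (hs : RSpec (Val g A) B D ρ q) (L : List (List Bool)) (hL : L ≠ []) (a m : ℕ)
    (hLa : ∀ y ∈ L, y.length ≤ a) (hm : ρ.eval (bits L).length ≤ m) (c : Bool)
    (hc : Val g A L ↔ c = true) :
    2 ^ (2 * a) * {b : List Bool | b.length = 24 * a * m ∧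
      ¬ (Maj B (24 * a) (FF D ρ m a L b) ↔ c = true)}.ncard ≤ 2 ^ (24 * a * m) := by
  classical
  set ρ0 := ρ.eval (bits L).length with hρ0
  set P : List Bool → Bool := fun b =>
    decide ¬ (D (pairBits (bits L) (b.take ρ0)) ∈ B ↔ c = true) with hP
  have h1 : 3 * {b : List Bool | b.length = m ∧ P b = true}.ncard ≤ 2 ^ m := by
    have h2 := (hs a L hL hLa).2
    have h3 := split_le_left (K := 3) (a := ρ0) (b := m - ρ0)
      (Q := fun r => ¬ (D (pairBits (bits L) r) ∈ B ↔ Val g A L)) h2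
    rw [Nat.add_sub_cancel' hm] at h3
    refine le_trans (Nat.mul_le_mul_left _ (Set.ncard_le_ncard ?_ ?_)) h3
    · rintro b ⟨hb1, hb2⟩
      refine ⟨hb1, ?_⟩
      rw [hP] at hb2
      simp only [decide_eq_true_eq] at hb2
      rwa [hc]
    · exact (str_finite m).subset fun r hr => hr.1
  refine le_trans (Nat.mul_le_mul_left _ (Set.ncard_le_ncard ?_ ?_)) (ampl P m a h1)
  · rintro b ⟨hb1, hb2⟩
    refine ⟨hb1, ?_⟩
    by_contra hcon
    refine hb2 ?_
    unfold FF
    exact maj_of (rowsL m (24 * a) b) (rowsL_length _ _ _)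
      (fun b' => D (pairBits (bits L) (b'.take ρ0))) P (fun b' => by
        rw [hP]
        simp only [decide_eq_true_eq]) (not_le.1 hcon)
  · exact (str_finite _).subset fun r hr => hr.1

theorem pos_length (its : List (Bool × ℕ)) (s : List Bool) : (pos its s).length = its.length := by
  unfold pos
  rw [List.length_map]

theorem sel_len (qs : List (List Bool)) (P : List ℕ) : (sel qs P).length = P.length := by
  unfold sel
  rw [List.length_map]

theorem pos_lt {its : List (Bool × ℕ)} {M : ℕ} (hM : 2 ≤ M)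
    (h : ∀ t ∈ its, t.1 = true → 2 * t.2 + 3 < M) (s : List Bool) : ∀ x ∈ pos its s, x < M := by
  intro x hx
  obtain ⟨t, ht, rfl⟩ := List.mem_map.1 hx
  cases h1 : t.1
  · rw [cond_false]
    have := min_le_right t.2 1
    omega
  · have h2 := h t ht h1
    rw [cond_true]
    cases s.getD t.2 false
    · rw [cond_false]; omega
    · rw [cond_true]; omega

theorem sel_le {qs : List (List Bool)} {a : ℕ} (h : ∀ y ∈ qs, y.length ≤ a) (P : List ℕ) :
    ∀ y ∈ sel qs P, y.length ≤ a := by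
  intro y hy
  obtain ⟨j, -, rfl⟩ := List.mem_map.1 hy
  rcases Nat.lt_or_ge j qs.length with hj | hj
  · rw [List.getD_eq_getElem _ _ hj]
    exact h _ (List.getElem_mem hj)
  · rw [List.getD_eq_default _ _ hj]
    exact Nat.zero_le _

theorem bits_list_le {L : List (List Bool)} {a w : ℕ} (h1 : L.length ≤ w)
    (h2 : ∀ y ∈ L, y.length ≤ a) : (bits L).length ≤ w * (4 * a + 2) + 1 := by
  rw [bits_length]
  have h3 := sz_le_length_mul L (4 * a + 1) (fun y hy => by
    have h5 := sz_listBool_le y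
    have h6 := h2 y hy
    omega)
  have h5 : L.length * (4 * a + 1 + 1) ≤ w * (4 * a + 2) := Nat.mul_le_mul_right _ h1
  omega

/-- The facts of an accepted commitment. -/
theorem okc_facts {C0 C1 : ℕ} {Q : Polynomial ℕ} {qs : List (List Bool)} {zl : ℕ} {c : Cm}
    (h : okc ρ q d C0 C1 Q qs zl c = true) :
    C0 ≤ c.1.length ∧ c.1.length ≤ zl + C1 ∧ c.2.1 ≠ [] ∧
      c.2.1.length ≤ (Wp q d).eval c.1.length ∧
      (∀ t ∈ c.2.1, t.1 = true → 2 * t.2 + 3 < qs.length) ∧ (∀ y ∈ qs, y.length ≤ c.1.length) ∧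
      c.2.2.1.1 + 2 < qs.length ∧ c.2.2.2.1.1.length ≤ (Sp q).eval c.1.length + 1 ∧
      c.2.2.2.1.2.length ≤ (Np ρ q d).eval c.1.length ∧
      (Np ρ q d).eval c.1.length ≤ c.2.2.2.1.1.length + c.2.2.2.1.2.length + c.1.length ∧
      c.2.2.2.2.1.length ≤ (Sp q).eval c.1.length + 2 ∧
      c.2.2.2.2.2.length ≤ (Sp q).eval c.1.length + (Np ρ q d).eval c.1.length + 3 ∧
      (bits c).length ≤ Q.eval zl := by
  unfold okc at h
  simp only [Bool.and_eq_true, decide_eq_true_eq, Bool.not_eq_true', List.all_eq_true,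
    Bool.or_eq_true] at h
  obtain ⟨⟨⟨a1, a2⟩, a3, a4⟩, ⟨b1, b2⟩, ⟨c1, c2⟩, ⟨d1, d2⟩, ⟨e1, e2⟩, e3⟩ := h
  refine ⟨a1, a2, ?_, a4, fun t ht h1 => ?_, b2, c1, c2, d1, d2, e1, e2, e3⟩
  · intro h0
    rw [h0] at a3
    simp at a3
  · rcases b1 t ht with h2 | h2
    · rw [h1] at h2
      exact absurd h2 (by simp)
    · exact h2

theorem np_eval (a : ℕ) : (Np ρ q d).eval a = (tp q).eval a + 24 * a * (mp ρ q d).eval a := by
  simp [Np]

theorem mp_eval (a : ℕ) : (mp ρ q d).eval a = ρ.eval ((Zp q d).eval a) := Polynomial.eval_comp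

theorem zp_eval (a : ℕ) : (Zp q d).eval a = (Wp q d).eval a * (4 * a + 2) + 1 := by
  simp [Zp]

/-- The exceptional answers. -/
def Exc (A : Set (List Bool)) (qs : List (List Bool)) (i : ℕ) (e : Bool) : Prop :=
  ∀ j < qs.length, (qs.getD j [] ∈ A ↔ (bif decide (j = i) then !e else e) = true)

/-- **Few strings are bad.** -/
theorem few_bad (hs : RSpec (Val g A) B D ρ q) {y1 y0 : List Bool} (h1 : y1 ∈ A) (h0 : y0 ∉ A)
    {C0 C1 : ℕ} {Q : Polynomial ℕ} {qs : List (List Bool)} {zl : ℕ} {c : Cm}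
    (h : okc ρ q d C0 C1 Q (y0 :: y1 :: qs) zl c = true) (hE : Exc A qs c.2.2.1.1 c.2.2.1.2) :
    2 ^ (2 * c.1.length) * {x : List Bool | x.length = (Np ρ q d).eval c.1.length ∧
      ¬ (Maj B (24 * c.1.length) (Fx D ρ q d (y0 :: y1 :: qs) c.2.1 c.1.length x) ↔
        sdx g q c.2.1 c.2.2.1.1 c.2.2.1.2 c.1.length x = true)}.ncard ≤
      2 ^ (Np ρ q d).eval c.1.length := by
  obtain ⟨_, _, f3, f4, f5, f6, _, _⟩ := okc_facts h
  rw [np_eval]
  refine split_le (K := 2 ^ (2 * c.1.length)) (a := (tp q).eval c.1.length)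
    (b := 24 * c.1.length * (mp ρ q d).eval c.1.length)
    (Q := fun s b => ¬ (Maj B (24 * c.1.length) (FF D ρ ((mp ρ q d).eval c.1.length) c.1.length
      (sel (y0 :: y1 :: qs) (pos c.2.1 s)) b) ↔
        g ((pos c.2.1 s).map (val c.2.2.1.1 c.2.2.1.2)) = true)) fun s _ => ?_
  have hL : sel (y0 :: y1 :: qs) (pos c.2.1 s) ≠ [] := by
    intro h2
    have h3 := congrArg List.length h2
    rw [sel_len, pos_length, List.length_nil, List.length_eq_zero_iff] at h3
    exact f3 h3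
  have hLa := sel_le f6 (pos c.2.1 s)
  refine list_bad hs _ hL _ _ hLa ?_ _ ?_
  · rw [mp_eval]
    refine eval_mono ρ ?_
    rw [zp_eval]
    refine bits_list_le ?_ hLa
    rw [sel_len, pos_length]
    exact f4
  · unfold Val
    rw [answers_sel h1 h0 hE (pos c.2.1 s) (pos_lt (by omega) f5 s)]

/-- What a successful test says. -/
theorem tst_hit {qs : List (List Bool)} {c : Cm} {L1 L2 : ℕ} {ch : List Bool}
    {xx : List Bool × List Bool} (h : tst g D ρ q d qs c L1 L2 ch xx = true) :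
    Hit (Fx D ρ q d qs c.2.1 c.1.length) (sdx g q c.2.1 c.2.2.1.1 c.2.2.1.2 c.1.length)
      ((Np ρ q d).eval c.1.length) ((Sp q).eval c.1.length + 1) ((Np ρ q d).eval c.1.length + 1)
      c.2.2.2.1.1.length c.2.2.2.1.2.length c.2.2.2.2.1 c.2.2.2.2.2
      (ch.take c.2.2.2.1.1.length) ((ch.drop L1).take c.2.2.2.1.2.length)
      ((ch.drop (L1 + L2)).take c.2.2.2.1.2.length) := by
  unfold tst at h
  simp only [Bool.and_eq_true, decide_eq_true_eq, Bool.not_eq_true', decide_eq_false_iff_not,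
    List.any_eq_true] at h
  obtain ⟨⟨⟨a1, a2⟩, a3, a4⟩, a5, a6, a7⟩ := h
  exact ⟨xx.1, xx.2, a1, a2, a3, a4, a5, a6, a7⟩

/-- **Soundness for one commitment.** -/
theorem one_commit (hs : RSpec (Val g A) B D ρ q) {y1 y0 : List Bool} (h1 : y1 ∈ A) (h0 : y0 ∉ A)
    {C0 C1 : ℕ} {Q : Polynomial ℕ} {qs : List (List Bool)} {zl : ℕ} {c : Cm} {L1 L2 : ℕ}
    (hC0 : ∀ a, C0 ≤ a → 4 * (((Sp q).eval a + 2) * ((Sp q).eval a + (Np ρ q d).eval a + 3)) ≤
      2 ^ a)
    (hL1 : (Sp q).eval (zl + C1) + 1 ≤ L1) (hL2 : (Np ρ q d).eval (zl + C1) ≤ L2)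
    (h : okc ρ q d C0 C1 Q (y0 :: y1 :: qs) zl c = true) (hE : Exc A qs c.2.2.1.1 c.2.2.1.2) :
    2 * {ch : List Bool | ch.length = L1 + 2 * L2 ∧
      ∃ xx, tst g D ρ q d (y0 :: y1 :: qs) c L1 L2 ch xx = true}.ncard ≤ 2 ^ (L1 + 2 * L2) := by
  have hbad := few_bad hs h1 h0 h hE
  obtain ⟨f1, f2, _, _, _, _, _, f8, f9, f10, f11, f12, _⟩ := okc_facts h
  have hS := eval_mono (Sp q) f2
  have hN := eval_mono (Np ρ q d) f2
  have hhit := hit_sound (Fx D ρ q d (y0 :: y1 :: qs) c.2.1 c.1.length)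
    (sdx g q c.2.1 c.2.2.1.1 c.2.2.1.2 c.1.length)
    (fun x => ¬ (Maj B (24 * c.1.length) (Fx D ρ q d (y0 :: y1 :: qs) c.2.1 c.1.length x) ↔
        sdx g q c.2.1 c.2.2.1.1 c.2.2.1.2 c.1.length x = true))
    ((Np ρ q d).eval c.1.length) ((Sp q).eval c.1.length + 1) ((Np ρ q d).eval c.1.length + 1)
    c.2.2.2.1.1.length c.2.2.2.1.2.length L1 L2 (L1 + 2 * L2) c.1.length c.2.2.2.2.1 c.2.2.2.2.2
    (by omega) (by omega) le_rfl (fun x x' _ _ hF hsd => by
      by_contra hcon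
      push Not at hcon
      obtain ⟨b1, b2⟩ := hcon
      rw [hF] at b1
      exact hsd (Bool.eq_iff_iff.2 (b1.symm.trans b2))) hbad f10
    (le_trans (Nat.mul_le_mul_left _ (Nat.mul_le_mul f11 f12)) (hC0 _ f1))
  refine le_trans (Nat.mul_le_mul_left _ (Set.ncard_le_ncard ?_ ?_)) hhit
  · rintro ch ⟨hc1, xx, hxx⟩
    exact ⟨hc1, tst_hit hxx⟩
  · exact (str_finite _).subset fun r hr => hr.1

/-- The commitments with short codes. -/
noncomputable def cms (n : ℕ) : Finset Cm :=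
  (BLe n).preimage (fun c : Cm => bits c) (bits_injective.injOn)

theorem mem_cms {n : ℕ} {c : Cm} : c ∈ cms n ↔ (bits c).length ≤ n := by
  unfold cms
  rw [Finset.mem_preimage, mem_BLe]

theorem card_cms (n : ℕ) : (cms n).card ≤ 2 ^ (n + 1) := by
  classical
  unfold cms
  rw [Finset.card_preimage]
  exact (Finset.card_filter_le _ _).trans (card_BLe n)

/-- **Soundness of the protocol.** -/
theorem vfy_sound (P : Par) {A B : Set (List Bool)} (hs : RSpec (Val P.g A) B P.D P.ρ P.q)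
    (h1 : P.y1 ∈ A) (h0 : P.y0 ∉ A)
    (hC0 : ∀ a, P.C0 ≤ a → 4 * (((Sp P.q).eval a + 2) * ((Sp P.q).eval a +
      (Np P.ρ P.q P.d).eval a + 3)) ≤ 2 ^ a)
    (hL1 : ∀ zl, (Sp P.q).eval (zl + P.C1) + 1 ≤ P.L1.eval zl)
    (hL2 : ∀ zl, (Np P.ρ P.q P.d).eval (zl + P.C1) ≤ P.L2.eval zl)
    (hT : ∀ zl, P.Q.eval zl + 1 + (2 * zl + 3) ≤ P.T.eval zl) (qs : List (List Bool)) (zl : ℕ) :
    2 ^ (2 * zl + 3) * {r : List Bool | r.length = (P.T * P.cs).eval zl ∧ ∃ G : Gm,
      vfy P (P.y0 :: P.y1 :: qs) zl r G = true ∧ Exc A qs G.1.2.2.1.1 G.1.2.2.1.2}.ncard ≤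
        2 ^ (P.T * P.cs).eval zl := by
  have hcs : P.cs.eval zl = P.L1.eval zl + 2 * P.L2.eval zl := by simp [Par.cs]
  rw [Polynomial.eval_mul]
  have h2 := union_commit (cms (P.Q.eval zl)) (P.Q.eval zl) (P.T.eval zl) (P.cs.eval zl)
    (2 * zl + 3) (card_cms _)
    (fun c ch => okc P.ρ P.q P.d P.C0 P.C1 P.Q (P.y0 :: P.y1 :: qs) zl c = true ∧
      Exc A qs c.2.2.1.1 c.2.2.1.2 ∧
      ∃ xx, tst P.g P.D P.ρ P.q P.d (P.y0 :: P.y1 :: qs) c (P.L1.eval zl) (P.L2.eval zl) ch xx =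
        true) (fun c _ => ?_) (hT zl)
  · refine le_trans (Nat.mul_le_mul_left _ (Set.ncard_le_ncard ?_ ?_)) h2
    · rintro r ⟨hr, G, hG, hE⟩
      unfold vfy at hG
      rw [Bool.and_eq_true, List.all_eq_true] at hG
      refine ⟨hr, G.1, mem_cms.2 ?_, fun τ hτ => ⟨hG.1, hE, _, hG.2 τ (List.mem_range.2 hτ)⟩⟩
      obtain ⟨_, _, _, _, _, _, _, _, _, _, _, _, f⟩ := okc_facts hG.1
      exact f
    · exact (str_finite _).subset fun r hr => hr.1
  · by_cases hc : okc P.ρ P.q P.d P.C0 P.C1 P.Q (P.y0 :: P.y1 :: qs) zl c = true ∧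
      Exc A qs c.2.2.1.1 c.2.2.1.2
    · rw [hcs]
      refine le_trans (Nat.mul_le_mul_left _ (Set.ncard_le_ncard ?_ ?_))
        (one_commit hs h1 h0 hC0 (hL1 zl) (hL2 zl) hc.1 hc.2)
      · rintro ch ⟨a1, -, -, a2⟩
        exact ⟨a1, a2⟩
      · exact (str_finite _).subset fun r hr => hr.1
    · have h3 : {ch : List Bool | ch.length = P.cs.eval zl ∧
        (okc P.ρ P.q P.d P.C0 P.C1 P.Q (P.y0 :: P.y1 :: qs) zl c = true ∧
        Exc A qs c.2.2.1.1 c.2.2.1.2 ∧ ∃ xx, tst P.g P.D P.ρ P.q P.d (P.y0 :: P.y1 :: qs) c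
          (P.L1.eval zl) (P.L2.eval zl) ch xx = true)} = ∅ := by
        ext ch
        simp only [Set.mem_ofPred_eq, Set.mem_empty_iff_false, iff_false]
        rintro ⟨-, a1, a2, -⟩
        exact hc ⟨a1, a2⟩
      rw [h3]
      simp

end Pool.Agent.TH684.AM
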