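import Pool.Agent.TH684.AM.Compl
import Pool.Agent.TH684.AM.Law
import Pool.Agent.TH684.DI.Symm

/-!
# Distillation with bounded error of `NP`-hard sets
-/

set_option autoImplicit false

namespace Pool.Agent.TH684.AM

open Pool.Agent.NPC Pool.Agent.H251R5.PQ Pool.Agent.W901.AT Pool.Agent.H579R2.Spt
open Pool.Agent.TH684.EX Pool.Agent.TH684.CX Pool.Agent.TH684.DI
open Pool.Agent.TH684.LT (exists_pow_add_bound)
open Pool.Agent.W920.NL (InAM Str str_finite str_ncard ncard_split_le)

theorem poly_lt_exp (c : ℕ) : ∃ n0, ∀ n, n0 ≤ n → n ^ c + c ≤ 2 ^ n := by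
  have h := tendsto_pow_const_div_const_pow_of_one_lt (c + 1) (r := 2) (by norm_num)
  have h1 := h.eventually (gt_mem_nhds (show (0 : ℝ) < 1 by norm_num))
  obtain ⟨n1, hn1⟩ := Filter.eventually_atTop.1 h1
  refine ⟨max n1 (1 * (1 + c) + 1), ?_⟩
  intro n hn
  have h2 := hn1 n (le_trans (le_max_left _ _) hn)
  rw [div_lt_one (by positivity)] at h2
  have h3 : n ^ (c + 1) < 2 ^ n := by exact_mod_cast h2
  have h4 : 1 * (1 + c) + 1 ≤ n := le_trans (le_max_right _ _) hn
  have h5 : 1 ≤ n ^ c := Nat.one_le_pow _ _ (by omega)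
  have h6 : n ^ c + c ≤ (1 + c) * n ^ c := by nlinarith
  have h7 : (1 + c) * n ^ c ≤ n * n ^ c := Nat.mul_le_mul_right _ (by omega)
  rw [pow_succ, mul_comm] at h3
  omega

theorem exists_C0 (p : Polynomial ℕ) : ∃ C, ∀ a, C ≤ a → p.eval a ≤ 2 ^ a := by
  obtain ⟨b, hb⟩ := exists_pow_add_bound p
  obtain ⟨C, hC⟩ := poly_lt_exp b
  exact ⟨C, fun a ha => (hb a).trans (hC a ha)⟩

/-- The parameters. -/
noncomputable def mkP (g : List Bool → Bool) (D : List Bool → List Bool) (ρ q : Polynomial ℕ)
    (d C0 : ℕ) (y1 y0 : List Bool) : Par where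
  g := g
  D := D
  ρ := ρ
  q := q
  d := d
  C0 := C0
  C1 := y0.length + y1.length + C0
  Q := (Q0 ρ q d).comp (Polynomial.X + Polynomial.C (y0.length + y1.length + C0))
  T := (Q0 ρ q d).comp (Polynomial.X + Polynomial.C (y0.length + y1.length + C0)) +
    Polynomial.C 2 * Polynomial.X + 4
  L1 := (Sp q).comp (Polynomial.X + Polynomial.C (y0.length + y1.length + C0)) + 1
  L2 := (Np ρ q d).comp (Polynomial.X + Polynomial.C (y0.length + y1.length + C0))
  y1 := y1
  y0 := y0

theorem exc_of_vec {A : Set (List Bool)} {qs : List (List Bool)} {i : ℕ} {e : Bool}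
    (hi : i < qs.length) (h : answers A qs = vec L3 qs.length (bif e then i + qs.length else i)) :
    Exc A qs i e := by
  classical
  rw [vec_l3 hi] at h
  intro j hj
  have h7 := congrArg (fun l => l.getD j false) h
  simp only [answers] at h7
  rw [List.getD_eq_getElem _ _ (by simpa using hj), List.getD_eq_getElem _ _ (by simpa using hj),
    List.getElem_map, List.getElem_map, List.getElem_range] at h7
  rw [List.getD_eq_getElem _ _ hj, ← h7, decide_eq_true_iff]

/-- **A distillation with bounded error excludes a vector with public coins.** -/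
theorem amfeasible_of_rdistills {g : List Bool → Bool} (hg : Poly g) (hsens : PolySens g)
    {A B : Set (List Bool)} {y1 y0 : List Bool} (h1 : y1 ∈ A) (h0 : y0 ∉ A)
    (h : RDistills (Val g A) B) : AMFeasible (Exclude L3 A) := by
  obtain ⟨D, ρ, q, hD, hs⟩ := h
  obtain ⟨d, hd⟩ := hsens
  obtain ⟨C0, hC0⟩ := exists_C0 (Polynomial.C 4 * ((Sp q + 2) * (Sp q + Np ρ q d + 3)) +
    Polynomial.C 8 * tp q * (Np ρ q d + 1))
  have hCe : ∀ a, C0 ≤ a → 4 * (((Sp q).eval a + 2) * ((Sp q).eval a + (Np ρ q d).eval a + 3)) +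
      8 * (tp q).eval a * ((Np ρ q d).eval a + 1) ≤ 2 ^ a := fun a ha => by
    have := hC0 a ha
    simpa using this
  set P : Par := mkP g D ρ q d C0 y1 y0 with hP
  have hDp : Poly D := PIso.poly_iff.2 hD
  have hL1 : ∀ zl, (Sp P.q).eval (zl + P.C1) + 1 ≤ P.L1.eval zl := fun zl => by
    simp [hP, mkP]
  have hL2 : ∀ zl, (Np P.ρ P.q P.d).eval (zl + P.C1) ≤ P.L2.eval zl := fun zl => by
    simp [hP, mkP]
  have hQ : ∀ zl, (Q0 P.ρ P.q P.d).eval (zl + P.C1) ≤ P.Q.eval zl := fun zl => by
    simp [hP, mkP]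
  have hT : ∀ zl, P.Q.eval zl + 1 + (2 * zl + 3) ≤ P.T.eval zl := fun zl => by
    simp only [hP, mkP, Polynomial.eval_add, Polynomial.eval_mul, Polynomial.eval_C,
      Polynomial.eval_X, Polynomial.eval_ofNat]
    omega
  obtain ⟨b, hb⟩ := exists_pow_add_bound (Polynomial.X + 2 * (tp q).comp
    (Polynomial.X + Polynomial.C P.C1))
  have hbe : ∀ n, n + 2 * (tp q).eval (n + P.C1) ≤ n ^ b + b := fun n => by
    have := hb n
    simpa using this
  obtain ⟨c, hc⟩ := exists_pow_add_bound (2 * (Polynomial.X ^ b + Polynomial.C b))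
  have hce : ∀ n, 2 * (n ^ b + b) ≤ n ^ c + c := fun n => by
    have := hc n
    simpa using this
  refine ⟨ya P, P.T * P.cs, P.Q + (P.T * (Polynomial.C 8 * (Np P.ρ P.q P.d).comp
    (Polynomial.X + Polynomial.C P.C1) + 4) + 2), b, c, polyTime_bits (ya_poly P hg hDp),
    fun n qs hqs hlen => ⟨fun r hr => ?_, ?_⟩⟩
  · have hqZ : qs.length ≤ (bits qs).length := by
      have e1 := length_lt_sz qs
      have e3 := bits_length qs
      omega
    obtain ⟨G, hG1, hG2⟩ := vfy_complete P hs hd
      (fun a ha => le_trans (Nat.le_add_left _ _) (hCe a ha)) rfl hL1 hL2 hQ n qs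
      (hqs ▸ hbe n) hlen (bits qs).length hqZ r hr
    refine ⟨bif G.1.2.2.1.2 then G.1.2.2.1.1 + qs.length else G.1.2.2.1.1, bits G, ?_, ?_⟩
    · refine hG2.trans (le_of_eq ?_)
      simp
    · unfold ya
      simp only [unpair_pairBits, dl_bits, dgm_bits]
      rw [hG1, cond_true]
  · refine le_trans (Nat.mul_le_mul_left _ (Set.ncard_le_ncard ?_ ?_))
      (vfy_sound P hs h1 h0 (fun a ha => le_trans (Nat.le_add_right _ _) (hCe a ha)) hL1 hL2 hT qs
        (bits qs).length)
    · rintro r ⟨hr, l, ⟨w, -, hw⟩, hl⟩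
      unfold ya at hw
      simp only [unpair_pairBits, dl_bits] at hw
      cases hv : vfy P (P.y0 :: P.y1 :: qs) (bits qs).length r (dgm w)
      · rw [hv, cond_false] at hw
        exact absurd hw (by simp)
      · rw [hv, cond_true] at hw
        refine ⟨hr, dgm w, hv, ?_⟩
        have h2 : okc P.ρ P.q P.d P.C0 P.C1 P.Q (P.y0 :: P.y1 :: qs) (bits qs).length
            (dgm w).1 = true := by
          unfold vfy at hv
          rw [Bool.and_eq_true] at hv
          exact hv.1
        obtain ⟨_, _, _, _, _, _, f7, _⟩ := okc_facts h2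
        have hi : (dgm w).1.2.2.1.1 < qs.length := by
          have e1 : (P.y0 :: P.y1 :: qs).length = qs.length + 2 := rfl
          omega
        refine exc_of_vec hi ?_
        by_contra hne
        refine hl ⟨?_, ?_⟩
        · rw [← Option.some.inj hw]
          have h4 := hce n
          rw [← hqs] at h4
          cases (dgm w).1.2.2.1.2
          · rw [cond_false]
            omega
          · rw [cond_true]
            omega
        · rw [← Option.some.inj hw]
          exact hne
    · exact (str_finite _).subset fun r hr => hr.1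

/-- **An `NP`-hard language with a distillation with bounded error puts `coNP` in `AM`.** -/
theorem inAM_of_rdistills {g : List Bool → Bool} (hg : Poly g) (hsens : PolySens g)
    {A B : Set (List Bool)} (hA : NPHard A) (h : RDistills (Val g A) B) {S : Set (List Bool)}
    (hS : InNP S) : InAM Sᶜ := by
  obtain ⟨y1, y0, h1, h0⟩ := exists_mem_of_nphard hA
  exact inAM_of_amfeasible hA l3_inP (amfeasible_of_rdistills hg hsens h1 h0 h) hS

end Pool.Agent.TH684.AM
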